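import Pool.Agent.TH601.SV.Modulus

/-! The length-area estimates. -/

namespace Pool.Agent.TH601.SV.Mod

open MeasureTheory Set Filter Topology
open scoped ENNReal NNReal

theorem fubini {F G : ℝ → ℝ} (hF : Continuous F) (hG : Continuous G) (A B : ℝ) {ψ : ℂ → ℝ≥0∞}
    (hψ : Measurable ψ) :
    ∫⁻ z in Reg F G A B, ψ z =
      ∫⁻ y in Ioo A B, ∫⁻ x in Ioo (F y) (G y), ψ ⟨x, y⟩ := by
  have ho := isOpen_Reg hF hG A B
  rw [← lintegral_indicator ho.measurableSet,
    ← (Complex.volume_preserving_equiv_real_prod.symm).lintegral_comp_emb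
      Complex.measurableEquivRealProd.symm.measurableEmbedding, Measure.volume_eq_prod,
    lintegral_prod_symm' (fun p : ℝ × ℝ => (Reg F G A B).indicator ψ
      (Complex.measurableEquivRealProd.symm p)) ((hψ.indicator ho.measurableSet).comp
      Complex.measurableEquivRealProd.symm.measurable),
    ← lintegral_indicator measurableSet_Ioo]
  congr 1
  funext y
  by_cases hy : y ∈ Ioo A B
  · rw [indicator_of_mem hy, ← lintegral_indicator measurableSet_Ioo]
    congr 1
    funext x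
    by_cases hx : x ∈ Ioo (F y) (G y)
    · rw [indicator_of_mem hx]
      show (Reg F G A B).indicator ψ ⟨x, y⟩ = ψ ⟨x, y⟩
      exact indicator_of_mem (show (⟨x, y⟩ : ℂ) ∈ Reg F G A B from ⟨hy.1, hy.2, hx.1, hx.2⟩) ψ
    · rw [indicator_of_notMem hx]
      show (Reg F G A B).indicator ψ ⟨x, y⟩ = 0
      exact indicator_of_notMem (fun h => hx ⟨h.2.2.1, h.2.2.2⟩) ψ
  · rw [indicator_of_notMem hy]
    have e : ∀ x : ℝ, (Reg F G A B).indicator ψ (Complex.measurableEquivRealProd.symm (x, y)) = 0 := by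
      intro x
      show (Reg F G A B).indicator ψ ⟨x, y⟩ = 0
      exact indicator_of_notMem (fun h => hy ⟨h.1, h.2.1⟩) ψ
    simp only [e, lintegral_zero]

/-- the modulus `∫ dy / w` -/
noncomputable def Mm (F G : ℝ → ℝ) (A B : ℝ) : ℝ := ∫ y in A..B, 1 / (G y - F y)

theorem Mm_lintegral {F G : ℝ → ℝ} (hF : Continuous F) (hG : Continuous G) {A B : ℝ} (hAB : A < B)
    (hw : ∀ y ∈ Icc A B, F y < G y) (c : ℝ) (hc : 0 ≤ c) :
    ∫⁻ y in Ioo A B, ENNReal.ofReal (c * (1 / (G y - F y))) = ENNReal.ofReal (c * Mm F G A B) := by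
  have hcont : ContinuousOn (fun y => c * (1 / (G y - F y))) (Icc A B) := by
    apply ContinuousOn.mul continuousOn_const
    apply ContinuousOn.div continuousOn_const (hG.sub hF).continuousOn
    intro y hy
    have := hw y hy
    exact (sub_pos.2 this).ne'
  have hint : IntegrableOn (fun y => c * (1 / (G y - F y))) (Ioo A B) volume :=
    (hcont.integrableOn_Icc).mono_set Ioo_subset_Icc_self
  rw [← ofReal_integral_eq_lintegral_ofReal hint]
  · congr 1
    rw [← integral_Ioc_eq_integral_Ioo, ← intervalIntegral.integral_of_le hAB.le,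
      intervalIntegral.integral_const_mul]
    rfl
  · apply (ae_restrict_mem measurableSet_Ioo).mono
    intro y hy
    have := hw y ⟨hy.1.le, hy.2.le⟩
    have h2 : 0 < G y - F y := sub_pos.2 this
    show 0 ≤ c * (1 / (G y - F y))
    positivity

theorem meas_ψ (φ : ℂ → ℂ) (e : ℕ) : Measurable (fun z => ENNReal.ofReal (‖deriv φ z‖ ^ e)) :=
  ((measurable_deriv φ).norm.pow_const e).ennreal_ofReal

/-- horizontal lines -/
theorem row_ge {F G : ℝ → ℝ} (hF : Continuous F) (hG : Continuous G) {A B lam : ℝ}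
    (hw : ∀ y ∈ Icc A B, F y < G y) {φ : ℂ → ℂ} (hφ : ConfRect F G A B lam φ) {y : ℝ}
    (hy : y ∈ Ioo A B) :
    ENNReal.ofReal (1 / (G y - F y)) ≤
      ∫⁻ x in Ioo (F y) (G y), ENNReal.ofReal (‖deriv φ ⟨x, y⟩‖ ^ 2) := by
  have ho := isOpen_Reg hF hG A B
  have hlt : F y < G y := hw y ⟨hy.1.le, hy.2.le⟩
  have hwpos : 0 < G y - F y := sub_pos.2 hlt
  have hcm : Continuous (fun x : ℝ => (⟨x, y⟩ : ℂ)) := by
    have : (fun x : ℝ => (⟨x, y⟩ : ℂ)) = fun x : ℝ => (x:ℂ) + (y:ℂ) * Complex.I := by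
      funext x; rw [Complex.mk_eq_add_mul_I]
    rw [this]
    exact Complex.continuous_ofReal.add continuous_const
  have hmap : MapsTo (fun x : ℝ => (⟨x, y⟩ : ℂ)) (Ioo (F y) (G y)) (Reg F G A B) :=
    fun x hx => ⟨hy.1, hy.2, hx.1, hx.2⟩
  have hmap2 : MapsTo (fun x : ℝ => (⟨x, y⟩ : ℂ)) (Icc (F y) (G y)) (closure (Reg F G A B)) := by
    have := hmap.closure hcm
    rwa [closure_Ioo hlt.ne] at this
  have h1 := ftc_le (h := fun x : ℝ => φ ⟨x, y⟩) (h' := fun x : ℝ => deriv φ ⟨x, y⟩) hlt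
    (hφ.cont.comp hcm.continuousOn hmap2) (by
      intro x hx
      have hz : (⟨x, y⟩ : ℂ) ∈ Reg F G A B := hmap hx
      have hd : HasDerivAt φ (deriv φ ⟨x, y⟩) ⟨x, y⟩ :=
        ((hφ.diff _ hz).differentiableAt (ho.mem_nhds hz)).hasDerivAt
      have hc : HasDerivAt (fun x : ℝ => (⟨x, y⟩ : ℂ)) 1 x := by
        have e : (fun x : ℝ => (⟨x, y⟩ : ℂ)) = fun x : ℝ => (x:ℂ) + (y:ℂ) * Complex.I := by
          funext x; rw [Complex.mk_eq_add_mul_I]
        rw [e]
        exact (Complex.ofRealCLM.hasDerivAt (x := x)).add_const _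
      have := HasDerivAt.comp x hd hc
      rw [mul_one] at this
      exact this) (by
      have hdc : ContinuousOn (deriv φ) (Reg F G A B) :=
        (hφ.diff.deriv ho).continuousOn
      exact hdc.comp hcm.continuousOn hmap)
  have h2 : (1:ℝ≥0∞) ≤ ‖φ ⟨G y, y⟩ - φ ⟨F y, y⟩‖ₑ := by
    have e1 : (φ ⟨G y, y⟩).re = 1 := hφ.right _ (hmap2 ⟨hlt.le, le_rfl⟩) rfl
    have e2 : (φ ⟨F y, y⟩).re = 0 := hφ.left _ (hmap2 ⟨le_rfl, hlt.le⟩) rfl
    have e3 : (1:ℝ) ≤ ‖φ ⟨G y, y⟩ - φ ⟨F y, y⟩‖ := by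
      have := Complex.abs_re_le_norm (φ ⟨G y, y⟩ - φ ⟨F y, y⟩)
      rw [Complex.sub_re, e1, e2, sub_zero, abs_one] at this
      exact this
    rw [← ofReal_norm, ← ENNReal.ofReal_one]
    exact ENNReal.ofReal_le_ofReal e3
  set I := ∫⁻ x in Ioo (F y) (G y), ENNReal.ofReal (‖deriv φ ⟨x, y⟩‖ ^ 2) with hI
  have h3 : (1:ℝ≥0∞) ≤ ENNReal.ofReal ((G y - F y) / 2) * I + ENNReal.ofReal (1 / 2) := by
    refine (h2.trans h1).trans ?_
    have h4 : ∫⁻ x in Ioo (F y) (G y), ‖deriv φ ⟨x, y⟩‖ₑ ≤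
        ∫⁻ x in Ioo (F y) (G y), (ENNReal.ofReal ((G y - F y) / 2) *
          ENNReal.ofReal (‖deriv φ ⟨x, y⟩‖ ^ 2) + ENNReal.ofReal (1 / (2 * (G y - F y)))) := by
      apply lintegral_mono
      intro x
      beta_reduce
      rw [← ofReal_norm, ← ENNReal.ofReal_mul (by positivity),
        ← ENNReal.ofReal_add (by positivity) (by positivity)]
      apply ENNReal.ofReal_le_ofReal
      set t := ‖deriv φ ⟨x, y⟩‖
      set w := G y - F y
      have h5 : w / 2 * t ^ 2 + 1 / (2 * w) - t = (w * t - 1) ^ 2 / (2 * w) := by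
        field_simp
        ring
      have h6 : 0 ≤ (w * t - 1) ^ 2 / (2 * w) := by positivity
      linarith
    refine h4.trans ?_
    rw [lintegral_add_right _ measurable_const, lintegral_const_mul' _ _ ENNReal.ofReal_ne_top]
    apply le_of_eq
    congr 1
    rw [lintegral_const, Measure.restrict_apply MeasurableSet.univ, univ_inter, Real.volume_Ioo,
      ← ENNReal.ofReal_mul (by positivity)]
    congr 1
    field_simp
  by_cases hIt : I = ⊤
  · rw [hIt]; exact le_top
  · have h7 := ENNReal.toReal_mono (by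
      apply ENNReal.add_ne_top.2
      exact ⟨ENNReal.mul_ne_top ENNReal.ofReal_ne_top hIt, ENNReal.ofReal_ne_top⟩) h3
    rw [ENNReal.toReal_add (ENNReal.mul_ne_top ENNReal.ofReal_ne_top hIt) ENNReal.ofReal_ne_top,
      ENNReal.toReal_mul, ENNReal.toReal_ofReal (by positivity), ENNReal.toReal_ofReal (by norm_num),
      ENNReal.toReal_one] at h7
    apply ENNReal.ofReal_le_of_le_toReal
    rw [div_le_iff₀ hwpos]
    linarith

/-- the lower bound for the modulus -/
theorem mod_ge {F G : ℝ → ℝ} (hF : Continuous F) (hG : Continuous G) {A B lam : ℝ} (hAB : A < B)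
    (hl : 0 < lam) (hw : ∀ y ∈ Icc A B, F y < G y) {φ : ℂ → ℂ} (hφ : ConfRect F G A B lam φ) :
    Mm F G A B ≤ lam := by
  have h1 := area hF hG hφ
  rw [fubini hF hG A B (meas_ψ φ 2)] at h1
  have h2 := Mm_lintegral hF hG hAB hw 1 zero_le_one
  simp only [one_mul] at h2
  have h3 : ENNReal.ofReal (Mm F G A B) ≤ ENNReal.ofReal lam := by
    rw [← h1, ← h2]
    apply lintegral_mono_ae
    apply (ae_restrict_mem measurableSet_Ioo).mono
    intro y hy
    exact row_ge hF hG hw hφ hy
  exact (ENNReal.ofReal_le_ofReal_iff hl.le).1 h3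

/-- vertical curves -/
theorem col_ge {F G F' G' : ℝ → ℝ} (hF : ∀ y, HasDerivAt F (F' y) y)
    (hG : ∀ y, HasDerivAt G (G' y) y) (hF' : Continuous F') (hG' : Continuous G') {α A B lam : ℝ}
    (hα : 0 ≤ α) (hFα : ∀ y, |F' y| ≤ α) (hGα : ∀ y, |G' y| ≤ α) (hAB : A < B)
    (hl : 0 < lam) (hw : ∀ y ∈ Icc A B, F y < G y) {φ : ℂ → ℂ} (hφ : ConfRect F G A B lam φ)
    {s : ℝ} (hs : s ∈ Ioo (0:ℝ) 1) :
    ENNReal.ofReal lam ≤
      ∫⁻ y in Ioo A B, ENNReal.ofReal (√(1 + α ^ 2) * ‖deriv φ ⟨F y + s * (G y - F y), y⟩‖) := by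
  have cF : Continuous F := continuous_iff_continuousAt.2 (fun y => (hF y).continuousAt)
  have cG : Continuous G := continuous_iff_continuousAt.2 (fun y => (hG y).continuousAt)
  have ho := isOpen_Reg cF cG A B
  set c : ℝ → ℂ := fun y => ⟨F y + s * (G y - F y), y⟩ with hcdef
  have ceq : c = fun y : ℝ => (((F y + s * (G y - F y) : ℝ) : ℂ) + (y:ℂ) * Complex.I) := by
    funext y; rw [hcdef]; exact Complex.mk_eq_add_mul_I _ _
  have hcm : Continuous c := by
    rw [ceq]
    apply Continuous.add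
    · exact Complex.continuous_ofReal.comp (cF.add (continuous_const.mul (cG.sub cF)))
    · exact Complex.continuous_ofReal.mul continuous_const
  have hmap : MapsTo c (Ioo A B) (Reg F G A B) := by
    intro y hy
    have hlt := hw y ⟨hy.1.le, hy.2.le⟩
    have h1 : 0 < s * (G y - F y) := mul_pos hs.1 (sub_pos.2 hlt)
    have h2 : s * (G y - F y) < 1 * (G y - F y) := mul_lt_mul_of_pos_right hs.2 (sub_pos.2 hlt)
    refine ⟨hy.1, hy.2, ?_, ?_⟩
    · show F y < F y + s * (G y - F y)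
      linarith
    · show F y + s * (G y - F y) < G y
      linarith
  have hmap2 : MapsTo c (Icc A B) (closure (Reg F G A B)) := by
    have := hmap.closure hcm
    rwa [closure_Ioo hAB.ne] at this
  set c' : ℝ → ℂ := fun y => (((F' y + s * (G' y - F' y) : ℝ) : ℂ) + Complex.I) with hc'def
  have hcd : ∀ y, HasDerivAt c (c' y) y := by
    intro y
    rw [ceq]
    apply HasDerivAt.add
    · have := ((hF y).add (((hG y).sub (hF y)).const_mul s)).ofReal_comp
      exact this
    · have := (Complex.ofRealCLM.hasDerivAt (x := y)).mul_const Complex.I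
      simpa using this
  have hc'c : Continuous c' := by
    rw [hc'def]
    exact (Complex.continuous_ofReal.comp (hF'.add (continuous_const.mul (hG'.sub hF')))).add
      continuous_const
  have hc'n : ∀ y, ‖c' y‖ ≤ √(1 + α ^ 2) := by
    intro y
    apply Real.le_sqrt_of_sq_le
    rw [← Complex.normSq_eq_norm_sq, Complex.normSq_apply]
    simp only [hc'def, Complex.add_re, Complex.ofReal_re, Complex.I_re, add_zero, Complex.add_im,
      Complex.ofReal_im, Complex.I_im, zero_add, mul_one]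
    have h1 := abs_le.1 (hFα y)
    have h2 := abs_le.1 (hGα y)
    have h3 : |F' y + s * (G' y - F' y)| ≤ α := by
      rw [abs_le]
      have e : F' y + s * (G' y - F' y) = (1 - s) * F' y + s * G' y := by ring
      rw [e]
      have s0 := hs.1
      have s1 := hs.2
      constructor <;> nlinarith [h1.1, h1.2, h2.1, h2.2]
    have h4 := sq_le_sq' (abs_le.1 h3).1 (abs_le.1 h3).2
    nlinarith
  have h1 := ftc_le (h := fun y => φ (c y)) (h' := fun y => deriv φ (c y) * c' y) hAB
    (hφ.cont.comp hcm.continuousOn hmap2) (by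
      intro y hy
      have hz : c y ∈ Reg F G A B := hmap hy
      have hd : HasDerivAt φ (deriv φ (c y)) (c y) :=
        ((hφ.diff _ hz).differentiableAt (ho.mem_nhds hz)).hasDerivAt
      exact HasDerivAt.comp y hd (hcd y)) (by
      have hdc : ContinuousOn (deriv φ) (Reg F G A B) := (hφ.diff.deriv ho).continuousOn
      exact (hdc.comp hcm.continuousOn hmap).mul hc'c.continuousOn)
  have h2 : ENNReal.ofReal lam ≤ ‖φ (c B) - φ (c A)‖ₑ := by
    have e1 : (φ (c B)).im = lam := hφ.top _ (hmap2 ⟨hAB.le, le_rfl⟩) rfl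
    have e2 : (φ (c A)).im = 0 := hφ.bottom _ (hmap2 ⟨le_rfl, hAB.le⟩) rfl
    have e3 : lam ≤ ‖φ (c B) - φ (c A)‖ := by
      have := Complex.abs_im_le_norm (φ (c B) - φ (c A))
      rw [Complex.sub_im, e1, e2, sub_zero, abs_of_pos hl] at this
      exact this
    rw [← ofReal_norm]
    exact ENNReal.ofReal_le_ofReal e3
  refine (h2.trans h1).trans ?_
  apply lintegral_mono
  intro y
  show ‖deriv φ (c y) * c' y‖ₑ ≤ _
  rw [← ofReal_norm, norm_mul]
  apply ENNReal.ofReal_le_ofReal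
  rw [mul_comm]
  exact mul_le_mul_of_nonneg_right (hc'n y) (norm_nonneg _)

/-- the upper bound for the modulus -/
theorem mod_le {F G F' G' : ℝ → ℝ} (hF : ∀ y, HasDerivAt F (F' y) y)
    (hG : ∀ y, HasDerivAt G (G' y) y) (hF' : Continuous F') (hG' : Continuous G') {α A B lam : ℝ}
    (hα : 0 ≤ α) (hFα : ∀ y, |F' y| ≤ α) (hGα : ∀ y, |G' y| ≤ α) (hAB : A < B)
    (hl : 0 < lam) (hw : ∀ y ∈ Icc A B, F y < G y) {φ : ℂ → ℂ} (hφ : ConfRect F G A B lam φ) :
    lam ≤ (1 + α ^ 2) * Mm F G A B := by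
  have cF : Continuous F := continuous_iff_continuousAt.2 (fun y => (hF y).continuousAt)
  have cG : Continuous G := continuous_iff_continuousAt.2 (fun y => (hG y).continuousAt)
  have ha := area cF cG hφ
  rw [fubini cF cG A B (meas_ψ φ 2)] at ha
  set k := √(1 + α ^ 2) with hk
  have hk0 : 0 ≤ k := Real.sqrt_nonneg _
  have hk2 : k ^ 2 = 1 + α ^ 2 := Real.sq_sqrt (by positivity)
  have h1 : ENNReal.ofReal lam ≤ ∫⁻ s in Ioo (0:ℝ) 1, ∫⁻ y in Ioo A B,
      ENNReal.ofReal (k * ‖deriv φ ⟨F y + s * (G y - F y), y⟩‖) := by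
    calc ENNReal.ofReal lam = ∫⁻ s in Ioo (0:ℝ) 1, ENNReal.ofReal lam := by
          rw [lintegral_const, Measure.restrict_apply MeasurableSet.univ, univ_inter,
            Real.volume_Ioo]
          simp
      _ ≤ _ := by
          apply lintegral_mono_ae
          apply (ae_restrict_mem measurableSet_Ioo).mono
          intro s hs
          exact col_ge hF hG hF' hG' hα hFα hGα hAB hl hw hφ hs
  have hswap : ∫⁻ s in Ioo (0:ℝ) 1, ∫⁻ y in Ioo A B,
      ENNReal.ofReal (k * ‖deriv φ ⟨F y + s * (G y - F y), y⟩‖) =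
      ∫⁻ y in Ioo A B, ∫⁻ s in Ioo (0:ℝ) 1,
      ENNReal.ofReal (k * ‖deriv φ ⟨F y + s * (G y - F y), y⟩‖) := by
    apply lintegral_lintegral_swap
    apply Measurable.aemeasurable
    apply Measurable.ennreal_ofReal
    apply Measurable.const_mul
    apply Measurable.norm
    apply (measurable_deriv φ).comp
    have e : (fun a : ℝ × ℝ => (⟨F a.2 + a.1 * (G a.2 - F a.2), a.2⟩ : ℂ)) =
        fun a : ℝ × ℝ => (((F a.2 + a.1 * (G a.2 - F a.2) : ℝ) : ℂ) + (a.2:ℂ) * Complex.I) := by
      funext a; exact Complex.mk_eq_add_mul_I _ _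
    rw [e]
    apply Continuous.measurable
    apply Continuous.add
    · apply Complex.continuous_ofReal.comp
      exact (cF.comp continuous_snd).add (continuous_fst.mul
        ((cG.comp continuous_snd).sub (cF.comp continuous_snd)))
    · exact (Complex.continuous_ofReal.comp continuous_snd).mul continuous_const
  rw [hswap] at h1
  have h2 : ∀ y ∈ Ioo A B, ∫⁻ s in Ioo (0:ℝ) 1,
      ENNReal.ofReal (k * ‖deriv φ ⟨F y + s * (G y - F y), y⟩‖) ≤
      ENNReal.ofReal (1 / 2) * (∫⁻ x in Ioo (F y) (G y), ENNReal.ofReal (‖deriv φ ⟨x, y⟩‖ ^ 2)) +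
      ENNReal.ofReal (k ^ 2 / 2 * (1 / (G y - F y))) := by
    intro y hy
    have hlt := hw y ⟨hy.1.le, hy.2.le⟩
    have hwpos : 0 < G y - F y := sub_pos.2 hlt
    set w := G y - F y with hwd
    have himg : (fun s : ℝ => F y + s * w) '' (Ioo (0:ℝ) 1) = Ioo (F y) (G y) := by
      ext x
      simp only [mem_image, mem_Ioo]
      constructor
      · rintro ⟨s, ⟨s0, s1⟩, rfl⟩
        constructor <;> nlinarith
      · rintro ⟨x0, x1⟩
        refine ⟨(x - F y) / w, ⟨?_, ?_⟩, ?_⟩
        · apply div_pos <;> linarith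
        · rw [div_lt_one hwpos]; linarith
        · field_simp; ring
    have hcv := lintegral_image_eq_lintegral_abs_deriv_mul (s := Ioo (0:ℝ) 1)
      (f := fun s : ℝ => F y + s * w) (f' := fun _ => w) measurableSet_Ioo (by
        intro s _
        have h := ((hasDerivAt_id s).mul_const w).const_add (F y)
        rw [one_mul] at h
        exact h.hasDerivWithinAt) (by
        intro s _ t _ hst
        have h : F y + s * w = F y + t * w := hst
        have : s * w = t * w := by linarith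
        exact mul_right_cancel₀ hwpos.ne' this)
      (fun x => ENNReal.ofReal (‖deriv φ ⟨x, y⟩‖ ^ 2))
    rw [himg] at hcv
    rw [hcv]
    have h3 : ∫⁻ s in Ioo (0:ℝ) 1, ENNReal.ofReal (k * ‖deriv φ ⟨F y + s * w, y⟩‖) ≤
        ∫⁻ s in Ioo (0:ℝ) 1, (ENNReal.ofReal (1 / 2) * (ENNReal.ofReal |w| *
          ENNReal.ofReal (‖deriv φ ⟨F y + s * w, y⟩‖ ^ 2)) +
          ENNReal.ofReal (k ^ 2 / 2 * (1 / w))) := by
      apply lintegral_mono
      intro s
      beta_reduce
      rw [abs_of_pos hwpos, ← ENNReal.ofReal_mul hwpos.le, ← ENNReal.ofReal_mul (by norm_num),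
        ← ENNReal.ofReal_add (by positivity) (by positivity)]
      apply ENNReal.ofReal_le_ofReal
      set t := ‖deriv φ ⟨F y + s * w, y⟩‖
      have h5 : 1 / 2 * (w * t ^ 2) + k ^ 2 / 2 * (1 / w) - k * t = (w * t - k) ^ 2 / (2 * w) := by
        field_simp
        ring
      have h6 : 0 ≤ (w * t - k) ^ 2 / (2 * w) := by positivity
      linarith
    refine h3.trans ?_
    rw [lintegral_add_right _ measurable_const, lintegral_const_mul' _ _ ENNReal.ofReal_ne_top]
    apply le_of_eq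
    congr 1
    rw [lintegral_const, Measure.restrict_apply MeasurableSet.univ, univ_inter, Real.volume_Ioo]
    simp
  have h3 : ENNReal.ofReal lam ≤ ENNReal.ofReal (1 / 2) * ENNReal.ofReal lam +
      ENNReal.ofReal (k ^ 2 / 2 * Mm F G A B) := by
    refine h1.trans ?_
    have h4 : ∫⁻ y in Ioo A B, ∫⁻ s in Ioo (0:ℝ) 1,
        ENNReal.ofReal (k * ‖deriv φ ⟨F y + s * (G y - F y), y⟩‖) ≤
        ∫⁻ y in Ioo A B, (ENNReal.ofReal (1 / 2) * (∫⁻ x in Ioo (F y) (G y),
          ENNReal.ofReal (‖deriv φ ⟨x, y⟩‖ ^ 2)) +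
        ENNReal.ofReal (k ^ 2 / 2 * (1 / (G y - F y)))) := by
      apply lintegral_mono_ae
      apply (ae_restrict_mem measurableSet_Ioo).mono
      intro y hy
      exact h2 y hy
    refine h4.trans ?_
    rw [lintegral_add_right _ (by
        apply Measurable.ennreal_ofReal
        apply Measurable.const_mul
        exact (measurable_const.div (cG.sub cF).measurable)),
      lintegral_const_mul' _ _ ENNReal.ofReal_ne_top, ha,
      Mm_lintegral cF cG hAB hw (k ^ 2 / 2) (by positivity)]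
  have hM0 : 0 ≤ Mm F G A B := by
    unfold Mm
    apply intervalIntegral.integral_nonneg hAB.le
    intro y hy
    have := sub_pos.2 (hw y hy)
    positivity
  rw [← ENNReal.ofReal_mul (by norm_num), ← ENNReal.ofReal_add (by positivity) (by positivity),
    ENNReal.ofReal_le_ofReal_iff (by positivity), hk2] at h3
  linarith

end Pool.Agent.TH601.SV.Mod
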