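import Pool.Agent.TH601.SV.Var
import Pool.Agent.TH601.SV.Modulus2

/-! From the lattice domains to the domains of the plane. -/

namespace Pool.Agent.TH601.SV

open Pool.Agent.H988R2.Perc Pool.Agent.H980R2.Cross Pool.Agent.H980R2.Unif Finset Filter Topology
  MeasureTheory
open Pool.Agent.TH601.CC (ES mem_ES cluO_sub)
open Pool.Agent.TH601.SV.Mod (Mm)

/-- the lattice approximation of mesh `d` -/
def domC (d : ℝ) (F G : ℝ → ℝ) (A B : ℝ) : Set (ℤ × ℤ) :=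
  {x | A ≤ d * ((x.1 + x.2 : ℤ) : ℝ) ∧ d * ((x.1 + x.2 : ℤ) : ℝ) ≤ B ∧
    F (d * ((x.1 + x.2 : ℤ) : ℝ)) ≤ d * ((x.1 - x.2 : ℤ) : ℝ) ∧
    d * ((x.1 - x.2 : ℤ) : ℝ) ≤ G (d * ((x.1 + x.2 : ℤ) : ℝ))}

/-- the left side -/
def lftC (d : ℝ) (F : ℝ → ℝ) : Set (ℤ × ℤ) :=
  {x | ∃ z, nbr x z ∧ d * ((z.1 - z.2 : ℤ) : ℝ) < F (d * ((z.1 + z.2 : ℤ) : ℝ))}

/-- the right side -/
def rgtC (d : ℝ) (G : ℝ → ℝ) : Set (ℤ × ℤ) :=
  {x | ∃ z, nbr x z ∧ G (d * ((z.1 + z.2 : ℤ) : ℝ)) < d * ((z.1 - z.2 : ℤ) : ℝ)}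

/-- clamping -/
def cl (a b y : ℤ) : ℤ := max (a - 1) (min y (b + 1))

theorem cl_succ (a b y : ℤ) : cl a b (y + 1) = cl a b y ∨ cl a b (y + 1) = cl a b y + 1 := by
  unfold cl
  omega

theorem cl_mem {a b : ℤ} (hab : a ≤ b) (y : ℤ) : a - 1 ≤ cl a b y ∧ cl a b y ≤ b + 1 := by
  unfold cl
  omega

theorem cl_self {a b y : ℤ} (h1 : a - 1 ≤ y) (h2 : y ≤ b + 1) : cl a b y = y := by
  unfold cl
  omega

/-- the discrete function -/
noncomputable def fd (d : ℝ) (F : ℝ → ℝ) (a b : ℤ) (y : ℤ) : ℝ := F (d * (cl a b y : ℝ)) / d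

theorem fd_lip {α d : ℝ} (hd : 0 < d) {F : ℝ → ℝ} (hα : 0 ≤ α)
    (hF : ∀ s t, |F s - F t| ≤ α * |s - t|) (a b y : ℤ) :
    |fd d F a b (y + 1) - fd d F a b y| ≤ α := by
  unfold fd
  rcases cl_succ a b y with h | h
  · rw [h, sub_self, abs_zero]; exact hα
  · rw [h, ← sub_div, abs_div, abs_of_pos hd, div_le_iff₀ hd]
    refine (hF _ _).trans ?_
    have e : d * (((cl a b y + 1 : ℤ)) : ℝ) - d * (cl a b y : ℝ) = d := by push_cast; ring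
    rw [e, abs_of_pos hd]

theorem domC_eq {d : ℝ} (hd : 0 < d) (F G : ℝ → ℝ) (A B : ℝ) :
    domC d F G A B = dom (fd d F ⌈A / d⌉ ⌊B / d⌋) (fd d G ⌈A / d⌉ ⌊B / d⌋) ⌈A / d⌉ ⌊B / d⌋ := by
  ext x
  unfold domC dom fd
  simp only [Set.mem_ofPred_eq]
  have e1 : A ≤ d * ((x.1 + x.2 : ℤ) : ℝ) ↔ ⌈A / d⌉ ≤ x.1 + x.2 := by
    rw [Int.ceil_le, div_le_iff₀ hd, mul_comm]
  have e2 : d * ((x.1 + x.2 : ℤ) : ℝ) ≤ B ↔ x.1 + x.2 ≤ ⌊B / d⌋ := by
    rw [Int.le_floor, le_div_iff₀ hd, mul_comm]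
  rw [e1, e2]
  constructor
  · rintro ⟨h1, h2, h3, h4⟩
    refine ⟨h1, h2, ?_, ?_⟩
    · rw [cl_self (by omega) (by omega), div_le_iff₀ hd, mul_comm _ d]; exact h3
    · rw [cl_self (by omega) (by omega), le_div_iff₀ hd, mul_comm _ d]; exact h4
  · rintro ⟨h1, h2, h3, h4⟩
    rw [cl_self (by omega) (by omega), div_le_iff₀ hd, mul_comm _ d] at h3
    rw [cl_self (by omega) (by omega), le_div_iff₀ hd, mul_comm _ d] at h4
    exact ⟨h1, h2, h3, h4⟩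

theorem lftC_iff {d : ℝ} (hd : 0 < d) (F : ℝ → ℝ) {a b : ℤ} {x : ℤ × ℤ} (h1 : a ≤ x.1 + x.2)
    (h2 : x.1 + x.2 ≤ b) : x ∈ lftC d F ↔ x ∈ lft (fd d F a b) := by
  unfold lftC lft fd
  simp only [Set.mem_ofPred_eq]
  constructor
  · rintro ⟨z, hz, h⟩
    obtain ⟨c1, c2⟩ := nbr_cases hz
    refine ⟨z, hz, ?_⟩
    rw [cl_self (by omega) (by omega), lt_div_iff₀ hd, mul_comm _ d]; exact h
  · rintro ⟨z, hz, h⟩
    obtain ⟨c1, c2⟩ := nbr_cases hz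
    refine ⟨z, hz, ?_⟩
    rw [cl_self (by omega) (by omega), lt_div_iff₀ hd, mul_comm _ d] at h; exact h

theorem rgtC_iff {d : ℝ} (hd : 0 < d) (F : ℝ → ℝ) {a b : ℤ} {x : ℤ × ℤ} (h1 : a ≤ x.1 + x.2)
    (h2 : x.1 + x.2 ≤ b) : x ∈ rgtC d F ↔ x ∈ rgt (fd d F a b) := by
  unfold rgtC rgt fd
  simp only [Set.mem_ofPred_eq]
  constructor
  · rintro ⟨z, hz, h⟩
    obtain ⟨c1, c2⟩ := nbr_cases hz
    refine ⟨z, hz, ?_⟩
    rw [cl_self (by omega) (by omega), div_lt_iff₀ hd, mul_comm _ d]; exact h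
  · rintro ⟨z, hz, h⟩
    obtain ⟨c1, c2⟩ := nbr_cases hz
    refine ⟨z, hz, ?_⟩
    rw [cl_self (by omega) (by omega), div_lt_iff₀ hd, mul_comm _ d] at h; exact h

theorem crG_eq {d : ℝ} (hd : 0 < d) (F G : ℝ → ℝ) (A B : ℝ) (ω : Conf) :
    crG (domC d F G A B) (lftC d F) (rgtC d G) ω =
      crG (dom (fd d F ⌈A / d⌉ ⌊B / d⌋) (fd d G ⌈A / d⌉ ⌊B / d⌋) ⌈A / d⌉ ⌊B / d⌋)
        (lft (fd d F ⌈A / d⌉ ⌊B / d⌋)) (rgt (fd d G ⌈A / d⌉ ⌊B / d⌋)) ω := by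
  rw [domC_eq hd]
  ext C
  constructor
  · rintro ⟨p, hp, hpL, rfl, q, hq, hqR⟩
    have hq' := cluO_sub hp hq
    exact ⟨p, hp, (lftC_iff hd F hp.1 hp.2.1).1 hpL, rfl, q, hq,
      (rgtC_iff hd G hq'.1 hq'.2.1).1 hqR⟩
  · rintro ⟨p, hp, hpL, rfl, q, hq, hqR⟩
    have hq' := cluO_sub hp hq
    exact ⟨p, hp, (lftC_iff hd F hp.1 hp.2.1).2 hpL, rfl, q, hq,
      (rgtC_iff hd G hq'.1 hq'.2.1).2 hqR⟩

/-! ### the Riemann sums -/

section Riemann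

variable {α d w0 A B : ℝ} {W : ℝ → ℝ}

theorem W_pos' (h0 : 0 < w0) (hw : ∀ y ∈ Set.Icc A B, w0 ≤ W y) :
    ∀ y ∈ Set.Icc A B, 0 < W y := fun y hy => h0.trans_le (hw y hy)

theorem int_W (hc : Continuous W) (h0 : 0 < w0) (hw : ∀ y ∈ Set.Icc A B, w0 ≤ W y) {s t : ℝ}
    (hs : s ∈ Set.Icc A B) (ht : t ∈ Set.Icc A B) :
    IntervalIntegrable (fun y => 1 / W y) volume s t := by
  apply ContinuousOn.intervalIntegrable
  apply ContinuousOn.div continuousOn_const hc.continuousOn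
  intro y hy
  have hsub : Set.uIcc s t ⊆ Set.Icc A B := Set.ordConnected_Icc.uIcc_subset hs ht
  exact (W_pos' h0 hw y (hsub hy)).ne'

/-- one cell -/
theorem cell (hα : 0 ≤ α) (hd : 0 < d) (h0 : 0 < w0) (hdw : 3 * d ≤ w0)
    (hc : Continuous W) (hL : ∀ s t, |W s - W t| ≤ 2 * α * |s - t|) (hα1 : α ≤ 1 / 256)
    (hw : ∀ y ∈ Set.Icc A B, w0 ≤ W y) {y : ℤ} (h1 : A ≤ d * y) (h2 : d * (y + 1) ≤ B) :
    (1 - α) * (∫ t in (d * y)..(d * (y + 1)), 1 / W t) ≤ d / W (d * y) ∧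
    d / W (d * y) ≤ (1 + α) * (∫ t in (d * y)..(d * (y + 1)), 1 / W t) := by
  have hle : d * y ≤ d * (y + 1) := by nlinarith
  have m1 : d * (y:ℝ) ∈ Set.Icc A B := ⟨h1, hle.trans h2⟩
  have m2 : d * ((y:ℝ) + 1) ∈ Set.Icc A B := ⟨h1.trans hle, h2⟩
  have hi := int_W hc h0 hw m1 m2
  have hWy : 0 < W (d * y) := W_pos' h0 hw _ m1
  have hWy3 : 3 * d ≤ W (d * y) := hdw.trans (hw _ m1)
  have hb : ∀ t ∈ Set.Icc (d * (y:ℝ)) (d * (y + 1)), W (d * y) * (1 - α) ≤ W t ∧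
      W t ≤ W (d * y) * (1 + α) := by
    intro t ht
    have h3 := hL t (d * y)
    have h4 : |t - d * y| ≤ d := by
      rw [abs_le]
      constructor
      · linarith [ht.1]
      · have := ht.2
        nlinarith
    have h5 : 2 * α * |t - d * y| ≤ α * W (d * y) := by
      have : 2 * α * |t - d * y| ≤ 2 * α * d := mul_le_mul_of_nonneg_left h4 (by positivity)
      nlinarith
    have h6 := abs_le.1 (h3.trans h5)
    constructor <;> nlinarith [h6.1, h6.2]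
  have hα2 : 0 < 1 - α := by linarith
  have e : ∀ c : ℝ, ∫ t in (d * (y:ℝ))..(d * (y + 1)), c = d * c := by
    intro c
    rw [intervalIntegral.integral_const]
    simp only [smul_eq_mul]
    ring
  constructor
  · have h3 : ∫ t in (d * (y:ℝ))..(d * (y + 1)), 1 / W t ≤
        ∫ t in (d * (y:ℝ))..(d * (y + 1)), 1 / (W (d * y) * (1 - α)) := by
      apply intervalIntegral.integral_mono_on hle hi (by simp)
      intro t ht
      apply one_div_le_one_div_of_le (by positivity) (hb t ht).1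
    rw [e] at h3
    have h4 : (1 - α) * (d * (1 / (W (d * y) * (1 - α)))) = d / W (d * y) := by field_simp
    rw [← h4]
    exact mul_le_mul_of_nonneg_left h3 hα2.le
  · have h3 : ∫ t in (d * (y:ℝ))..(d * (y + 1)), 1 / (W (d * y) * (1 + α)) ≤
        ∫ t in (d * (y:ℝ))..(d * (y + 1)), 1 / W t := by
      apply intervalIntegral.integral_mono_on hle (by simp) hi
      intro t ht
      have := W_pos' h0 hw t ⟨h1.trans ht.1, ht.2.trans h2⟩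
      apply one_div_le_one_div_of_le this (hb t ht).2
    rw [e] at h3
    have h4 : (1 + α) * (d * (1 / (W (d * y) * (1 + α)))) = d / W (d * y) := by field_simp
    rw [← h4]
    exact mul_le_mul_of_nonneg_left h3 (by linarith)

theorem cells (hα : 0 ≤ α) (hd : 0 < d) (h0 : 0 < w0) (hdw : 3 * d ≤ w0)
    (hc : Continuous W) (hL : ∀ s t, |W s - W t| ≤ 2 * α * |s - t|) (hα1 : α ≤ 1 / 256)
    (hw : ∀ y ∈ Set.Icc A B, w0 ≤ W y) {a : ℤ} (h1 : A ≤ d * a) (n : ℕ) (h2 : d * (a + n) ≤ B) :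
    (1 - α) * (∫ t in (d * a)..(d * (a + n)), 1 / W t) ≤
      ∑ y ∈ Finset.Ico a (a + n), d / W (d * y) ∧
    ∑ y ∈ Finset.Ico a (a + n), d / W (d * y) ≤
      (1 + α) * (∫ t in (d * a)..(d * (a + n)), 1 / W t) := by
  induction n with
  | zero => simp
  | succ n ih =>
    have h2' : d * ((a:ℝ) + n) ≤ B := by push_cast at h2; nlinarith
    obtain ⟨i1, i2⟩ := ih h2'
    have hA' : A ≤ d * ((a:ℝ) + n) := by
      have : (0:ℝ) ≤ n := Nat.cast_nonneg n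
      nlinarith
    have hc1 := cell hα hd h0 hdw hc hL hα1 hw (y := a + n) (by push_cast; exact hA')
      (by push_cast at h2 ⊢; linarith)
    push_cast at hc1
    have e1 : Finset.Ico a (a + ((n + 1 : ℕ) : ℤ)) = insert (a + (n:ℤ)) (Finset.Ico a (a + n)) := by
      ext y
      simp only [Finset.mem_Ico, Finset.mem_insert]
      omega
    have e2 : (a + (n:ℤ)) ∉ Finset.Ico a (a + (n:ℤ)) := by simp
    rw [e1, Finset.sum_insert e2]
    have m1 : d * (a:ℝ) ∈ Set.Icc A B := by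
      refine ⟨h1, ?_⟩
      have : (0:ℝ) ≤ n := Nat.cast_nonneg n
      nlinarith
    have m2 : d * ((a:ℝ) + n) ∈ Set.Icc A B := ⟨hA', h2'⟩
    have m3 : d * ((a:ℝ) + n + 1) ∈ Set.Icc A B := by
      push_cast at h2
      exact ⟨by nlinarith, by linarith⟩
    have e3 := intervalIntegral.integral_add_adjacent_intervals
      (int_W hc h0 hw m1 m2) (int_W hc h0 hw m2 m3)
    have e4 : d * ((a:ℝ) + ((n + 1 : ℕ) : ℝ)) = d * ((a:ℝ) + n + 1) := by push_cast; ring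
    rw [e4, ← e3]
    have e5 : d / W (d * ((a + (n:ℤ) : ℤ) : ℝ)) = d / W (d * ((a:ℝ) + n)) := by push_cast; rfl
    rw [e5]
    constructor
    · linarith [hc1.1]
    · linarith [hc1.2]

end Riemann

end Pool.Agent.TH601.SV
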