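import Pool.Agent.TH601.SV.Cont

/-! The final estimates in the plane. -/

namespace Pool.Agent.TH601.SV

open Pool.Agent.H988R2.Perc Pool.Agent.H980R2.Cross Pool.Agent.H980R2.Unif Finset Filter Topology
  MeasureTheory
open Pool.Agent.TH601.CC (ES mem_ES cluO_sub)
open Pool.Agent.TH601.SV.Mod (Mm ConfRect Reg Rec mod_ge mod_le)

/-- the comparison of the sum and the integral -/
theorem riemann {α d w0 A B : ℝ} {W : ℝ → ℝ} (hα : 0 ≤ α) (hd : 0 < d) (h0 : 0 < w0)
    (hdw : 3 * d ≤ w0) (hc : Continuous W) (hL : ∀ s t, |W s - W t| ≤ 2 * α * |s - t|)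
    (hα1 : α ≤ 1 / 256) (hw : ∀ y ∈ Set.Icc A B, w0 ≤ W y) {a b : ℤ} (hab : a ≤ b)
    (h1 : A ≤ d * a) (h1' : d * a ≤ A + d) (h2 : d * b ≤ B) (h2' : B - d ≤ d * b) :
    |∑ y ∈ Finset.Ico a b, d / W (d * y) - ∫ t in A..B, 1 / W t| ≤
      α * (∫ t in A..B, 1 / W t) + 1 := by
  obtain ⟨n, hn⟩ := Int.eq_ofNat_of_zero_le (sub_nonneg.2 hab)
  have eb : b = a + n := by omega
  subst eb
  push_cast at h2 h2'
  obtain ⟨i1, i2⟩ := cells hα hd h0 hdw hc hL hα1 hw h1 n h2
  have n0 : (0:ℝ) ≤ n := Nat.cast_nonneg n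
  have hle : d * (a:ℝ) ≤ d * ((a:ℝ) + n) := by nlinarith
  have m0 : A ∈ Set.Icc A B := ⟨le_rfl, by linarith⟩
  have m1 : d * (a:ℝ) ∈ Set.Icc A B := ⟨h1, hle.trans h2⟩
  have m2 : d * ((a:ℝ) + n) ∈ Set.Icc A B := ⟨h1.trans hle, h2⟩
  have m3 : B ∈ Set.Icc A B := ⟨by linarith, le_rfl⟩
  have e1 := intervalIntegral.integral_add_adjacent_intervals (int_W hc h0 hw m0 m1)
    (int_W hc h0 hw m1 m2)
  have e2 := intervalIntegral.integral_add_adjacent_intervals (int_W hc h0 hw m0 m2)
    (int_W hc h0 hw m2 m3)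
  have small : ∀ s t : ℝ, s ∈ Set.Icc A B → t ∈ Set.Icc A B → s ≤ t → t ≤ s + d →
      0 ≤ (∫ y in s..t, 1 / W y) ∧ (∫ y in s..t, 1 / W y) ≤ 1 / 3 := by
    intro s t hs ht hst htd
    constructor
    · apply intervalIntegral.integral_nonneg hst
      intro y hy
      have := W_pos' h0 hw y ⟨hs.1.trans hy.1, hy.2.trans ht.2⟩
      positivity
    · have h3 : ∫ y in s..t, 1 / W y ≤ ∫ y in s..t, 1 / w0 := by
        apply intervalIntegral.integral_mono_on hst (int_W hc h0 hw hs ht) (by simp)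
        intro y hy
        exact one_div_le_one_div_of_le h0 (hw y ⟨hs.1.trans hy.1, hy.2.trans ht.2⟩)
      rw [intervalIntegral.integral_const, smul_eq_mul] at h3
      refine h3.trans ?_
      rw [mul_one_div, div_le_div_iff₀ h0 (by norm_num)]
      linarith
  obtain ⟨s1, s2⟩ := small A (d * a) m0 m1 h1 h1'
  obtain ⟨s3, s4⟩ := small (d * ((a:ℝ) + n)) B m2 m3 h2 (by linarith)
  have hI : 0 ≤ ∫ t in (d * (a:ℝ))..(d * (a + n)), 1 / W t := by
    apply intervalIntegral.integral_nonneg hle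
    intro y hy
    have := W_pos' h0 hw y ⟨h1.trans hy.1, hy.2.trans h2⟩
    positivity
  set I := ∫ t in (d * (a:ℝ))..(d * (a + n)), 1 / W t with hIdef
  set M := ∫ t in A..B, 1 / W t with hM
  have l1 : I ≤ M := by linarith
  have l2 : M ≤ I + 2 / 3 := by linarith
  have l3 : α * I ≤ α * M := mul_le_mul_of_nonneg_left l1 hα
  rw [abs_le]
  constructor <;> nlinarith

/-- the number of crossing clusters of the lattice approximation -/
noncomputable def nC (d : ℝ) (F G : ℝ → ℝ) (A B : ℝ) (ω : Conf) : ℝ :=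
  ((crG (domC d F G A B) (lftC d F) (rgtC d G) ω).ncard : ℝ)

theorem nC_eq {d : ℝ} (hd : 0 < d) (F G : ℝ → ℝ) (A B : ℝ) :
    nC d F G A B = nn (fd d F ⌈A / d⌉ ⌊B / d⌋) (fd d G ⌈A / d⌉ ⌊B / d⌋) ⌈A / d⌉ ⌊B / d⌋ := by
  funext ω
  unfold nC nn
  rw [crG_eq hd]

theorem lip_of_deriv {α : ℝ} {F F' : ℝ → ℝ} (hF : ∀ y, HasDerivAt F (F' y) y)
    (hFα : ∀ y, |F' y| ≤ α) (s t : ℝ) : |F s - F t| ≤ α * |s - t| := by
  have h := Convex.norm_image_sub_le_of_norm_hasDerivWithin_le (f := F) (f' := F') (C := α)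
    (s := Set.univ) (x := t) (y := s) (fun x _ => (hF x).hasDerivWithinAt) (fun x _ => hFα x)
    convex_univ (Set.mem_univ _) (Set.mem_univ _)
  exact h

theorem final_aux {C α D lam M Mt Qt x v : ℝ} (hC : 1 ≤ C) (hα0 : 0 ≤ α) (hα1 : α ≤ 1 / 256)
    (hD0 : 0 ≤ D) (hD : D ≤ 1 / 3) (hl : 0 ≤ lam) (hM0 : 0 ≤ M) (hM : M ≤ lam)
    (hM2 : lam ≤ (1 + α ^ 2) * M)
    (hMt0 : 0 ≤ Mt) (hMt : |Mt - M| ≤ α * M + 1) (hQ : Qt ≤ D * Mt)
    (h1 : |x - √3 / 4 * Mt| ≤ C * (1 + √α * Mt + Qt)) (h2 : v ≤ C * (1 + Mt)) :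
    |x - √3 / 4 * lam| ≤ (5 * C + 5) * (1 + (√α + D) * lam) ∧ v ≤ (5 * C + 5) * (1 + lam) := by
  have s3 : √3 / 4 ≤ 1 := by
    have : √3 ≤ 2 := Real.sqrt_le_iff.2 ⟨by norm_num, by norm_num⟩
    linarith
  have s0 : 0 ≤ √3 / 4 := by positivity
  have hβ0 : 0 ≤ √α := Real.sqrt_nonneg _
  have hββ : √α * √α = α := Real.mul_self_sqrt hα0
  have hβ1 : √α ≤ 1 / 16 := by
    apply Real.sqrt_le_iff.2
    constructor
    · norm_num
    · linarith
  have hαβ : α ≤ √α := by nlinarith
  have k1 := abs_le.1 hMt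
  have k2 : Mt ≤ 2 * lam + 1 := by nlinarith
  have k3 : √α * Mt ≤ √α * (2 * lam + 1) := mul_le_mul_of_nonneg_left k2 hβ0
  have k4 : D * Mt ≤ D * (2 * lam + 1) := mul_le_mul_of_nonneg_left k2 hD0
  have k5 : 1 + √α * Mt + Qt ≤ 2 + 2 * ((√α + D) * lam) := by nlinarith
  have k6 : C * (1 + √α * Mt + Qt) ≤ C * (2 + 2 * ((√α + D) * lam)) :=
    mul_le_mul_of_nonneg_left k5 (by linarith)
  have k7 : |Mt - lam| ≤ 2 * (√α * lam) + 1 := by
    have e1 : lam - M ≤ α * lam := by
      have : α ^ 2 * M ≤ α * lam := by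
        have h3 : α * (α * M) ≤ α * (1 * lam) := by
          apply mul_le_mul_of_nonneg_left _ hα0
          apply mul_le_mul (by linarith) hM hM0 (by norm_num)
        nlinarith
      nlinarith
    have e2 : α * lam ≤ √α * lam := mul_le_mul_of_nonneg_right hαβ hl
    have e3 : α * M ≤ α * lam := mul_le_mul_of_nonneg_left hM hα0
    rw [abs_le]
    constructor <;> linarith
  have k8 : |√3 / 4 * Mt - √3 / 4 * lam| ≤ 2 * (√α * lam) + 1 := by
    rw [← mul_sub, abs_mul, abs_of_nonneg s0]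
    have := abs_nonneg (Mt - lam)
    nlinarith
  have hDl : 0 ≤ D * lam := by positivity
  have hβl : 0 ≤ √α * lam := by positivity
  constructor
  · have k9 := abs_le.1 h1
    have k10 := abs_le.1 k8
    have e : C * (2 + 2 * ((√α + D) * lam)) = 2 * C + 2 * C * (√α * lam) + 2 * C * (D * lam) := by
      ring
    rw [e] at k6
    have e' : (5 * C + 5) * (1 + (√α + D) * lam) =
      5 * C + 5 + (5 * C + 5) * (√α * lam) + (5 * C + 5) * (D * lam) := by ring
    rw [e']
    have p1 : 0 ≤ C * (√α * lam) := by positivity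
    have p2 : 0 ≤ C * (D * lam) := by positivity
    rw [abs_le]
    constructor <;> linarith [k9.1, k9.2, k10.1, k10.2]
  · have k9 : C * (1 + Mt) ≤ C * (2 + 2 * lam) := by
      apply mul_le_mul_of_nonneg_left _ (by linarith)
      linarith
    have p1 : 0 ≤ C * lam := by positivity
    nlinarith

/-- **the final estimates** -/
theorem cont_main : ∃ C : ℝ, 1 ≤ C ∧ ∀ (α : ℝ) (F G F' G' : ℝ → ℝ) (A B lam w0 : ℝ) (φ : ℂ → ℂ)
    (d : ℝ), 0 ≤ α → α ≤ 1 / 256 → (∀ y, HasDerivAt F (F' y) y) → (∀ y, HasDerivAt G (G' y) y) →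
    Continuous F' → Continuous G' → (∀ y, |F' y| ≤ α) → (∀ y, |G' y| ≤ α) → A < B → 0 < lam →
    0 < w0 → (∀ y ∈ Set.Icc A B, w0 ≤ G y - F y) → ConfRect F G A B lam φ → 0 < d → 3 * d ≤ w0 →
    |mn (nC d F G A B) - √3 / 4 * lam| ≤ C * (1 + (√α + d / w0) * lam) ∧
    vr (nC d F G A B) ≤ C * (1 + lam) := by
  obtain ⟨C1, hC1, H1⟩ := slow_mean
  obtain ⟨C2, hC2, H2⟩ := slow_var
  set C := C1 + C2 with hC
  refine ⟨5 * C + 5, by linarith, fun α F G F' G' A B lam w0 φ d hα0 hα1 hF hG hF' hG' hFα hGα hAB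
    hl h0 hw hφ hd hdw => ?_⟩
  have cF : Continuous F := continuous_iff_continuousAt.2 (fun y => (hF y).continuousAt)
  have cG : Continuous G := continuous_iff_continuousAt.2 (fun y => (hG y).continuousAt)
  have hlt : ∀ y ∈ Set.Icc A B, F y < G y := fun y hy => by linarith [hw y hy]
  have lF := lip_of_deriv hF hFα
  have lG := lip_of_deriv hG hGα
  have g1 := mod_ge cF cG hAB hl hlt hφ
  have g2 := mod_le hF hG hF' hG' hα0 hFα hGα hAB hl hlt hφ
  have hM0 : 0 ≤ Mm F G A B := by
    unfold Mm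
    apply intervalIntegral.integral_nonneg hAB.le
    intro y hy
    have := sub_pos.2 (hlt y hy)
    positivity
  have hD0 : 0 ≤ d / w0 := by positivity
  have hD1 : d / w0 ≤ 1 / 3 := by
    rw [div_le_div_iff₀ h0 (by norm_num)]; linarith
  have cW : Continuous (fun y => G y - F y) := cG.sub cF
  have lW : ∀ s t, |(G s - F s) - (G t - F t)| ≤ 2 * α * |s - t| := by
    intro s t
    have e : (G s - F s) - (G t - F t) = (G s - G t) - (F s - F t) := by ring
    rw [e]
    refine (abs_sub _ _).trans ?_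
    have := lF s t
    have := lG s t
    linarith
  rw [nC_eq hd]
  set a := ⌈A / d⌉ with ha
  set b := ⌊B / d⌋ with hb
  have a1 : A ≤ d * a := by
    have := Int.le_ceil (A / d)
    rw [div_le_iff₀ hd] at this
    rw [mul_comm]; exact this
  have a2 : d * a ≤ A + d := by
    have := Int.ceil_lt_add_one (A / d)
    rw [← ha] at this
    have h3 : d * (a:ℝ) < d * (A / d + 1) := mul_lt_mul_of_pos_left this hd
    have h4 : d * (A / d + 1) = A + d := by field_simp
    linarith
  have b1 : d * b ≤ B := by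
    have := Int.floor_le (B / d)
    rw [le_div_iff₀ hd] at this
    rw [mul_comm]; exact this
  have b2 : B - d ≤ d * b := by
    have := Int.lt_floor_add_one (B / d)
    rw [← hb] at this
    have h3 : d * (B / d) < d * (b + 1) := mul_lt_mul_of_pos_left this hd
    have h4 : d * (B / d) = B := by field_simp
    linarith
  rcases le_or_gt a b with hab | hab
  · -- the general case
    have hs : Slow α (fd d F a b) (fd d G a b) := by
      refine ⟨hα0, hα1, fun y => fd_lip hd hα0 lF a b y, fun y => fd_lip hd hα0 lG a b y, ?_⟩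
      intro y
      unfold fd
      rw [← sub_div, le_div_iff₀ hd]
      obtain ⟨c1, c2⟩ := cl_mem hab y
      set t := cl a b y with ht
      rcases lt_or_ge t a with h3 | h3
      · have e : t = a - 1 := by omega
        have h4 := lW (d * a) (d * t)
        have e2 : d * (a:ℝ) - d * (t:ℝ) = d := by rw [e]; push_cast; ring
        rw [e2, abs_of_pos hd] at h4
        have h5 := hw (d * a) ⟨a1, by
          have : (a:ℝ) ≤ b := by exact_mod_cast hab
          nlinarith⟩
        have h6 := (abs_le.1 h4).2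
        nlinarith
      · rcases lt_or_ge b t with h3' | h3'
        · have e : t = b + 1 := by omega
          have h4 := lW (d * b) (d * t)
          have e2 : d * (b:ℝ) - d * (t:ℝ) = -d := by rw [e]; push_cast; ring
          rw [e2, abs_neg, abs_of_pos hd] at h4
          have h5 := hw (d * b) ⟨by
            have : (a:ℝ) ≤ b := by exact_mod_cast hab
            nlinarith, b1⟩
          have h6 := (abs_le.1 h4).2
          nlinarith
        · have hta : (a:ℝ) ≤ t := by exact_mod_cast h3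
          have htb : (t:ℝ) ≤ b := by exact_mod_cast h3'
          have h5 := hw (d * t) ⟨by nlinarith, by nlinarith⟩
          linarith
    have hMt : MM (fd d F a b) (fd d G a b) a b = ∑ y ∈ Finset.Ico a b, d / (G (d * y) - F (d * y)) := by
      unfold MM
      apply Finset.sum_congr rfl
      intro y hy
      rw [Finset.mem_Ico] at hy
      unfold fd
      rw [cl_self (by omega) (by omega), ← sub_div, one_div_div]
    have hr := riemann hα0 hd h0 hdw cW lW hα1 hw hab a1 a2 b1 b2
    rw [← hMt] at hr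
    have hQ : QQ (fd d F a b) (fd d G a b) a b ≤ d / w0 * MM (fd d F a b) (fd d G a b) a b := by
      unfold QQ MM
      rw [Finset.mul_sum]
      apply Finset.sum_le_sum
      intro y hy
      rw [Finset.mem_Ico] at hy
      have hya : (a:ℝ) ≤ y := by exact_mod_cast hy.1
      have hyb : (y:ℝ) ≤ b := by exact_mod_cast hy.2.le
      have h5 := hw (d * y) ⟨by nlinarith, by nlinarith⟩
      have e : fd d G a b y - fd d F a b y = (G (d * y) - F (d * y)) / d := by
        unfold fd
        rw [cl_self (by omega) (by omega), ← sub_div]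
      rw [e]
      have hWp : 0 < G (d * y) - F (d * y) := by linarith
      have e2 : 1 / ((G (d * y) - F (d * y)) / d) ^ 2 =
          d / (G (d * y) - F (d * y)) * (1 / ((G (d * y) - F (d * y)) / d)) := by
        field_simp
      rw [e2]
      apply mul_le_mul_of_nonneg_right _ (by positivity)
      exact div_le_div_of_nonneg_left hd.le h0 h5
    have h1 := H1 α _ _ hs a b hab
    have h2 := H2 α _ _ hs a b hab
    have hMt0 := MM_nonneg hs a b
    have hQ0 := QQ_nonneg (fd d F a b) (fd d G a b) a b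
    have hβ0 : 0 ≤ √α := Real.sqrt_nonneg _
    have h1' : |mn (nn (fd d F a b) (fd d G a b) a b) - √3 / 4 *
        MM (fd d F a b) (fd d G a b) a b| ≤ C * (1 + √α * MM (fd d F a b) (fd d G a b) a b +
          QQ (fd d F a b) (fd d G a b) a b) := by
      refine h1.trans ?_
      apply mul_le_mul_of_nonneg_right _ (by positivity)
      rw [hC]; linarith
    have h2' : vr (nn (fd d F a b) (fd d G a b) a b) ≤
        C * (1 + MM (fd d F a b) (fd d G a b) a b) := by
      refine h2.trans ?_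
      apply mul_le_mul_of_nonneg_right _ (by positivity)
      rw [hC]; linarith
    exact final_aux (by rw [hC]; linarith) hα0 hα1 hD0 hD1 hl.le hM0 g1 g2 hMt0 hr hQ h1' h2'
  · -- the empty case
    have hnn : nn (fd d F a b) (fd d G a b) a b = fun _ => 0 := by
      funext ω
      unfold nn
      have e : crG (dom (fd d F a b) (fd d G a b) a b) (lft (fd d F a b)) (rgt (fd d G a b)) ω = ∅ := by
        apply Set.eq_empty_of_forall_notMem
        rintro C' ⟨p, hp, _⟩
        have := hp.1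
        have := hp.2.1
        omega
      rw [e]; simp
    rw [hnn]
    have hmn : mn (fun _ : Conf => (0:ℝ)) = 0 := mn_const 0
    have hvr : vr (fun _ : Conf => (0:ℝ)) = 0 := by
      unfold vr
      rw [hmn]; simp
    rw [hmn, hvr]
    have hba : (b:ℝ) + 1 ≤ a := by
      have : b + 1 ≤ a := by omega
      exact_mod_cast this
    have hM1 : Mm F G A B ≤ 1 := by
      unfold Mm
      have h3 : ∫ y in A..B, 1 / (G y - F y) ≤ ∫ y in A..B, 1 / w0 := by
        apply intervalIntegral.integral_mono_on hAB.le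
        · exact int_W cW h0 hw ⟨le_rfl, hAB.le⟩ ⟨hAB.le, le_rfl⟩
        · simp
        · intro y hy
          exact one_div_le_one_div_of_le h0 (hw y hy)
      rw [intervalIntegral.integral_const, smul_eq_mul] at h3
      refine h3.trans ?_
      rw [mul_one_div, div_le_one h0]
      nlinarith
    have hlam : lam ≤ 2 := by
      have : α ^ 2 ≤ 1 := by nlinarith
      nlinarith
    have s3 : √3 / 4 ≤ 1 := by
      have : √3 ≤ 2 := Real.sqrt_le_iff.2 ⟨by norm_num, by norm_num⟩
      linarith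
    have s0 : 0 ≤ √3 / 4 := by positivity
    have hβ0 : 0 ≤ √α := Real.sqrt_nonneg _
    constructor
    · rw [zero_sub, abs_neg, abs_of_nonneg (by positivity)]
      have p1 : √3 / 4 * lam ≤ 2 := by nlinarith
      have p2 : 0 ≤ (√α + d / w0) * lam := by positivity
      have p3 : 1 ≤ C := by rw [hC]; linarith
      have p4 : 10 * 1 ≤ (5 * C + 5) * (1 + (√α + d / w0) * lam) := by
        apply mul_le_mul (by linarith) (by linarith) (by norm_num) (by linarith)
      linarith
    · have p3 : 1 ≤ C := by rw [hC]; linarith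
      positivity

end Pool.Agent.TH601.SV
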