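import Pool.Agent.TH601.CC.Unif2

/-! Crossing clusters of general sets: cutting along a line `u + v = c`. -/

namespace Pool.Agent.TH601.SV

open Pool.Agent.H988R2.Perc Pool.Agent.H980R2.Cross Pool.Agent.H980R2.Unif Finset Filter Topology
  MeasureTheory
open Pool.Agent.TH601.CC (OpenAdj.symm' OpenAdj.sum OpenAdj.diff cluO_self cluO_sub cluO_symm
  cluO_trans cluO_eq cluO_mono cluO_sep clu_side ES mem_ES step_congr cluO_congr cluO_cf)

/-- the open clusters of `S` which meet `L` and `R` -/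
def crG (S L R : Set (ℤ × ℤ)) (ω : Conf) : Set (Set (ℤ × ℤ)) :=
  {C | ∃ a ∈ S, a ∈ L ∧ C = cluO S ω a ∧ ∃ b ∈ C, b ∈ R}

/-- those which meet the line `u + v = c` -/
def toG (S L R : Set (ℤ × ℤ)) (c : ℤ) (ω : Conf) : Set (Set (ℤ × ℤ)) :=
  {C | C ∈ crG S L R ω ∧ ∃ x ∈ C, x.1 + x.2 = c}

/-- those which avoid the line `u + v = c` -/
def avG (S L R : Set (ℤ × ℤ)) (c : ℤ) (ω : Conf) : Set (Set (ℤ × ℤ)) :=
  {C | C ∈ crG S L R ω ∧ ∀ x ∈ C, x.1 + x.2 ≠ c}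

theorem crG_finite {S : Set (ℤ × ℤ)} (hS : S.Finite) (L R : Set (ℤ × ℤ)) (ω : Conf) :
    (crG S L R ω).Finite := by
  apply Set.Finite.subset (hS.image (cluO S ω))
  rintro C ⟨a, ha, _, rfl, _⟩
  exact ⟨a, ha, rfl⟩

theorem ncard_splitG {S : Set (ℤ × ℤ)} (hS : S.Finite) (L R : Set (ℤ × ℤ)) (c : ℤ) (ω : Conf) :
    (crG S L R ω).ncard = (avG S L R c ω).ncard + (toG S L R c ω).ncard := by
  have hf := crG_finite hS L R ω
  have e : crG S L R ω = avG S L R c ω ∪ toG S L R c ω := by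
    ext C
    constructor
    · intro h
      by_cases h2 : ∃ x ∈ C, x.1 + x.2 = c
      · exact Or.inr ⟨h, h2⟩
      · left
        refine ⟨h, ?_⟩
        push Not at h2
        exact h2
    · rintro (h | h)
      · exact h.1
      · exact h.1
  have hd : Disjoint (avG S L R c ω) (toG S L R c ω) := by
    rw [Set.disjoint_left]
    rintro C ⟨_, h1⟩ ⟨_, x, hx, h2⟩
    exact h1 x hx h2
  have f1 : (avG S L R c ω).Finite := hf.subset (fun C h => h.1)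
  have f2 : (toG S L R c ω).Finite := hf.subset (fun C h => h.1)
  conv_lhs => rw [e]
  rw [Set.ncard_union_eq hd f1 f2]

theorem avG_sep {S T : Set (ℤ × ℤ)} (hST : S ⊆ T) (L R : Set (ℤ × ℤ)) (c : ℤ) (ω : Conf)
    (hsep : ∀ x y, x ∈ S → x.1 + x.2 ≠ c → y ∈ T → OpenAdj ω x y → y ∈ S) :
    avG S L R c ω = {C | C ∈ avG T L R c ω ∧ C ⊆ S} := by
  ext C
  constructor
  · rintro ⟨⟨a, ha, ha0, rfl, b, hb, hbN⟩, hav⟩
    have e : cluO T ω a = cluO S ω a := cluO_sep hST {x | x.1 + x.2 = c} ω hsep ha hav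
    refine ⟨⟨⟨a, hST ha, ha0, e.symm, b, hb, hbN⟩, hav⟩, fun x hx => cluO_sub ha hx⟩
  · rintro ⟨⟨⟨a, ha, ha0, rfl, b, hb, hbN⟩, hav⟩, hS⟩
    have haS : a ∈ S := hS (cluO_self T ω a)
    have e : cluO T ω a = cluO S ω a := cluO_sep hST {x | x.1 + x.2 = c} ω hsep haS
      (fun x hx => hav x (cluO_mono hST ω a hx))
    refine ⟨⟨a, haS, ha0, e, b, hb, hbN⟩, hav⟩

/-- **cutting along the line `u + v = c`** -/
theorem cutG {S S1 S2 : Set (ℤ × ℤ)} (hS : S.Finite) (L R : Set (ℤ × ℤ)) (c : ℤ)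
    (h1 : ∀ x, x ∈ S1 ↔ x ∈ S ∧ x.1 + x.2 ≤ c) (h2 : ∀ x, x ∈ S2 ↔ x ∈ S ∧ c ≤ x.1 + x.2)
    (ω : Conf) :
    (crG S L R ω).ncard + (toG S1 L R c ω).ncard + (toG S2 L R c ω).ncard =
    (crG S1 L R ω).ncard + (crG S2 L R ω).ncard + (toG S L R c ω).ncard := by
  have s1 : S1 ⊆ S := fun x hx => ((h1 x).1 hx).1
  have s2 : S2 ⊆ S := fun x hx => ((h2 x).1 hx).1
  have hS1 := hS.subset s1
  have hS2 := hS.subset s2
  rw [ncard_splitG hS L R c ω, ncard_splitG hS1 L R c ω, ncard_splitG hS2 L R c ω]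
  have e1 := avG_sep s1 L R c ω (by
    intro x y hx hne hy hadj
    have := OpenAdj.sum hadj
    have := ((h1 x).1 hx).2
    exact (h1 y).2 ⟨hy, by omega⟩)
  have e2 := avG_sep s2 L R c ω (by
    intro x y hx hne hy hadj
    have := OpenAdj.sum hadj
    have := ((h2 x).1 hx).2
    exact (h2 y).2 ⟨hy, by omega⟩)
  have e : avG S L R c ω = avG S1 L R c ω ∪ avG S2 L R c ω := by
    rw [e1, e2]
    ext C
    constructor
    · intro h
      have h' := h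
      obtain ⟨⟨x, hx, hx0, rfl, _⟩, hav⟩ := h'
      rcases clu_side c hav with h3 | h3
      · left
        refine ⟨h, fun y hy => ?_⟩
        exact (h1 y).2 ⟨cluO_sub hx hy, (h3 y hy).le⟩
      · right
        refine ⟨h, fun y hy => ?_⟩
        exact (h2 y).2 ⟨cluO_sub hx hy, (h3 y hy).le⟩
    · rintro (h | h)
      · exact h.1
      · exact h.1
  have hd : Disjoint (avG S1 L R c ω) (avG S2 L R c ω) := by
    rw [Set.disjoint_left]
    rintro C ⟨⟨x, hx, hx0, rfl, _⟩, hav⟩ h3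
    rw [e2] at h3
    have h4 := h3.2 (cluO_self _ ω x)
    have h5 := hav x (cluO_self _ ω x)
    have h6 := ((h1 x).1 hx).2
    have h7 := ((h2 x).1 h4).2
    omega
  have f1 : (avG S1 L R c ω).Finite := (crG_finite hS1 L R ω).subset (fun C h => h.1)
  have f2 : (avG S2 L R c ω).Finite := (crG_finite hS2 L R ω).subset (fun C h => h.1)
  rw [e, Set.ncard_union_eq hd f1 f2]
  ring

theorem crG_congr {S : Set (ℤ × ℤ)} (hS : S.Finite) (L R : Set (ℤ × ℤ)) {ω ω' : Conf}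
    (h : ∀ e : Edge, (e.1, e.2.1, !e.2.2) ∈ ES hS → ω e = ω' e) :
    crG S L R ω = crG S L R ω' := by
  unfold crG
  simp only [cluO_congr hS h]

theorem toG_congr {S : Set (ℤ × ℤ)} (hS : S.Finite) (L R : Set (ℤ × ℤ)) (c : ℤ) {ω ω' : Conf}
    (h : ∀ e : Edge, (e.1, e.2.1, !e.2.2) ∈ ES hS → ω e = ω' e) :
    toG S L R c ω = toG S L R c ω' := by
  unfold toG
  rw [crG_congr hS L R h]

/-- counting clusters which meet few boxes and reach a large distance -/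
theorem count_le {S : Set (ℤ × ℤ)} (hS : S.Finite) {F : Finset H974.Edg} (hF : F ⊆ ES hS)
    (m J : ℕ) (ctr : ℕ → ℤ × ℤ) (D : Set (Set (ℤ × ℤ)))
    (h : ∀ C ∈ D, ∃ a, C = cluO S (cf F) a ∧ ∃ x ∈ C,
      (∃ j < J, x ∈ Kb (ctr j).1 (ctr j).2 m) ∧
      ∃ z ∈ C, 4 * (m:ℤ) ≤ |z.1 - x.1| ∨ 4 * (m:ℤ) ≤ |z.2 - x.2|) :
    D.ncard ≤ ∑ j ∈ range J, H974.NC H974.src H974.tgt (Kb (ctr j).1 (ctr j).2 m)
        (Bb (ctr j).1 (ctr j).2 m) (↑F : Set H974.Edg) := by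
  classical
  have hsub : D ⊆
      ((range J).biUnion (fun j => H974.TC H974.src H974.tgt (Kb (ctr j).1 (ctr j).2 m)
        (Bb (ctr j).1 (ctr j).2 m) (↑F : Set H974.Edg)) : Finset (Set (ℤ × ℤ))) := by
    intro C hC
    obtain ⟨a, rfl, x, hx, ⟨j, hj, hjx⟩, z, hz, hzx⟩ := h C hC
    rw [Finset.coe_biUnion, Set.mem_iUnion₂]
    refine ⟨j, Finset.mem_coe.2 (Finset.mem_range.2 hj), ?_⟩
    rw [Finset.mem_coe, H974.mem_TC]
    have ec1 : H974.clu H974.src H974.tgt (↑F : Set H974.Edg) x = cluO S (cf F) a := by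
      rw [← cluO_cf hS hF, cluO_eq hx]
    refine ⟨x, hjx, ⟨z, ?_, ?_⟩, ec1⟩
    · rw [u4_mem_Kb] at hjx
      unfold Bb
      simp only [Set.mem_ofPred_eq, le_abs] at hzx ⊢
      omega
    · rw [← ec1] at hz
      exact hz
  have h1 := Set.ncard_le_ncard hsub (Finset.finite_toSet _)
  rw [Set.ncard_coe_finset] at h1
  exact h1.trans Finset.card_biUnion_le

end Pool.Agent.TH601.SV
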