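import Pool.Agent.TH601.SV.Dom

/-! The effect of a cut on the mean and on the variance. -/

namespace Pool.Agent.TH601.SV

open Pool.Agent.H988R2.Perc Pool.Agent.H980R2.Cross Pool.Agent.H980R2.Unif Finset Filter Topology
  MeasureTheory
open Pool.Agent.TH601.CC (OpenAdj.symm' OpenAdj.sum OpenAdj.diff cluO_self cluO_sub cluO_symm
  cluO_trans cluO_eq cluO_mono cluO_sep clu_side ES mem_ES step_congr cluO_congr cluO_cf)

/-- the number of crossing clusters -/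
noncomputable def nn (f g : ℤ → ℝ) (a b : ℤ) (ω : Conf) : ℝ :=
  ((crG (dom f g a b) (lft f) (rgt g) ω).ncard : ℝ)

/-- the number of those touching a line -/
noncomputable def tn (f g : ℤ → ℝ) (a b c : ℤ) (ω : Conf) : ℝ :=
  ((toG (dom f g a b) (lft f) (rgt g) c ω).ncard : ℝ)

theorem nn_loc (f g : ℤ → ℝ) (a b : ℤ) : Loc (ES (dom_finite f g a b)) (nn f g a b) := by
  intro ω ω' h
  unfold nn
  rw [crG_congr (dom_finite f g a b) _ _ h]

theorem tn_loc (f g : ℤ → ℝ) (a b c : ℤ) : Loc (ES (dom_finite f g a b)) (tn f g a b c) := by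
  intro ω ω' h
  unfold tn
  rw [toG_congr (dom_finite f g a b) _ _ c h]

theorem nn_nonneg (f g : ℤ → ℝ) (a b : ℤ) (ω : Conf) : 0 ≤ nn f g a b ω := Nat.cast_nonneg _

theorem tn_nonneg (f g : ℤ → ℝ) (a b c : ℤ) (ω : Conf) : 0 ≤ tn f g a b c ω := Nat.cast_nonneg _

theorem ES_mono {S T : Set (ℤ × ℤ)} (hS : S.Finite) (hT : T.Finite) (h : S ⊆ T) : ES hS ⊆ ES hT := by
  intro e he
  rw [mem_ES] at he ⊢
  exact ⟨h he.1, h he.2⟩

theorem src_tgt (e : H974.Edg) :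
    (H974.tgt e).1 + (H974.tgt e).2 = (H974.src e).1 + (H974.src e).2 + 1 := by
  obtain ⟨x, y, t⟩ := e
  cases t
  · show x + (y + 1) = x + y + 1
    ring
  · show (x + 1) + y = x + y + 1
    ring

theorem dom_sub_left {f g : ℤ → ℝ} {a b c : ℤ} (h : c ≤ b) : dom f g a c ⊆ dom f g a b := by
  rintro x ⟨h1, h2, h3, h4⟩
  exact ⟨h1, h2.trans h, h3, h4⟩

theorem dom_sub_right {f g : ℤ → ℝ} {a b c : ℤ} (h : a ≤ c) : dom f g c b ⊆ dom f g a b := by
  rintro x ⟨h1, h2, h3, h4⟩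
  exact ⟨h.trans h1, h2, h3, h4⟩

theorem ES_disj (f g : ℤ → ℝ) (a c b : ℤ) :
    Disjoint (ES (dom_finite f g a c)) (ES (dom_finite f g c b)) := by
  rw [Finset.disjoint_left]
  intro e h1 h2
  rw [mem_ES] at h1 h2
  have h3 := h1.2.2.1
  have h4 := h2.1.1
  have h5 := src_tgt e
  omega

theorem nn_cut (f g : ℤ → ℝ) {a c b : ℤ} (hac : a ≤ c) (hcb : c ≤ b) (ω : Conf) :
    nn f g a b ω + tn f g a c c ω + tn f g c b c ω =
      nn f g a c ω + nn f g c b ω + tn f g a b c ω := by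
  unfold nn tn
  have h := cutG (S := dom f g a b) (S1 := dom f g a c) (S2 := dom f g c b)
    (dom_finite f g a b) (lft f) (rgt g) c
    (fun x => ⟨fun ⟨h1, h2, h3, h4⟩ => ⟨⟨h1, h2.trans hcb, h3, h4⟩, h2⟩,
      fun ⟨⟨h1, _, h3, h4⟩, h2⟩ => ⟨h1, h2, h3, h4⟩⟩)
    (fun x => ⟨fun ⟨h1, h2, h3, h4⟩ => ⟨⟨hac.trans h1, h2, h3, h4⟩, h1⟩,
      fun ⟨⟨_, h2, h3, h4⟩, h1⟩ => ⟨h1, h2, h3, h4⟩⟩) ω
  exact_mod_cast h

/-- second moment of the number of crossing clusters touching a line -/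
theorem tn_sq : ∃ A : ℝ, 0 ≤ A ∧ ∀ (α : ℝ) (f g : ℤ → ℝ), Slow α f g → ∀ (a b c : ℤ),
    mn (fun ω => tn f g a b c ω ^ 2) ≤ A := by
  obtain ⟨A, hA0, hA⟩ := loc_sq
  refine ⟨A, hA0, fun α f g hs a b c => ?_⟩
  apply hA α f g hs a b c (fun ω => toG (dom f g a b) (lft f) (rgt g) c ω) (tn_loc f g a b c)
  rintro ω C ⟨h1, x, hx, hxc⟩
  refine ⟨h1, x, hx, ?_⟩
  have := hs.w c
  rw [hxc, sub_self]
  simp only [Int.cast_zero, abs_zero]
  linarith

/-- second moment of the number of crossing clusters of a short piece -/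
theorem nn_sq : ∃ A : ℝ, 0 ≤ A ∧ ∀ (α : ℝ) (f g : ℤ → ℝ), Slow α f g → ∀ (a b : ℤ),
    ((b - a : ℤ) : ℝ) ≤ 10 * (g a - f a) → mn (fun ω => nn f g a b ω ^ 2) ≤ A := by
  obtain ⟨A, hA0, hA⟩ := loc_sq
  refine ⟨A, hA0, fun α f g hs a b hab => ?_⟩
  apply hA α f g hs a b a (fun ω => crG (dom f g a b) (lft f) (rgt g) ω) (nn_loc f g a b)
  rintro ω C h1
  refine ⟨h1, ?_⟩
  obtain ⟨p, hp, hpL, rfl, q, hq, hqR⟩ := h1
  refine ⟨p, cluO_self _ _ _, ?_⟩
  obtain ⟨k1, k2, -, -⟩ := hp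
  have e1 : ((p.1 + p.2 - a : ℤ) : ℝ) ≤ ((b - a : ℤ) : ℝ) := by
    have : p.1 + p.2 - a ≤ b - a := by omega
    exact_mod_cast this
  have e2 : (0:ℝ) ≤ ((p.1 + p.2 - a : ℤ) : ℝ) := by
    have : 0 ≤ p.1 + p.2 - a := by omega
    exact_mod_cast this
  rw [abs_of_nonneg e2]
  linarith

theorem mn_le_sqrt {S : Finset H974.Edg} {f : Conf → ℝ} (hf : Loc S f) {A : ℝ} (_hA : 0 ≤ A)
    (h : mn (fun ω => f ω ^ 2) ≤ A) : |mn f| ≤ √A := by
  apply Real.abs_le_sqrt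
  have := vr_nonneg f
  rw [vr_eq hf] at this
  linarith

/-- **the effect of a cut** -/
theorem cut_slow : ∃ D : ℝ, 1 ≤ D ∧ ∀ (α : ℝ) (f g : ℤ → ℝ), Slow α f g → ∀ (a c b : ℤ),
    a ≤ c → c ≤ b →
    |mn (nn f g a b) - mn (nn f g a c) - mn (nn f g c b)| ≤ D ∧
    vr (nn f g a b) ≤ (√(vr (nn f g a c) + vr (nn f g c b)) + D) ^ 2 := by
  obtain ⟨A, hA0, hA⟩ := tn_sq
  refine ⟨√(9 * A) + 1, by linarith [Real.sqrt_nonneg (9 * A)], fun α f g hs a c b hac hcb => ?_⟩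
  have L0 := nn_loc f g a b
  have L1 := (nn_loc f g a c).mono
    (ES_mono (dom_finite f g a c) (dom_finite f g a b) (dom_sub_left hcb))
  have L2 := (nn_loc f g c b).mono
    (ES_mono (dom_finite f g c b) (dom_finite f g a b) (dom_sub_right hac))
  have T0 := tn_loc f g a b c
  have T1 := (tn_loc f g a c c).mono
    (ES_mono (dom_finite f g a c) (dom_finite f g a b) (dom_sub_left hcb))
  have T2 := (tn_loc f g c b c).mono
    (ES_mono (dom_finite f g c b) (dom_finite f g a b) (dom_sub_right hac))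
  set T : Conf → ℝ := fun ω => tn f g a b c ω - tn f g a c c ω - tn f g c b c ω with hT
  have LT : Loc (ES (dom_finite f g a b)) T := (T0.sub T1).sub T2
  have eT : nn f g a b = fun ω => (nn f g a c ω + nn f g c b ω) + T ω := by
    funext ω
    have := nn_cut f g hac hcb ω
    simp only [hT]
    linarith
  have hTsq : mn (fun ω => T ω ^ 2) ≤ 9 * A := by
    have h1 : mn (fun ω => T ω ^ 2) ≤ mn (fun ω => 3 * ((tn f g a b c ω ^ 2 +
        tn f g a c c ω ^ 2) + tn f g c b c ω ^ 2)) := by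
      apply mn_mono LT.sq (((T0.sq.add T1.sq).add T2.sq).smul 3)
      intro ω
      simp only [hT]
      nlinarith [sq_nonneg (tn f g a b c ω + tn f g a c c ω),
        sq_nonneg (tn f g a b c ω + tn f g c b c ω),
        sq_nonneg (tn f g a c c ω - tn f g c b c ω)]
    rw [mn_smul, mn_add (T0.sq.add T1.sq) T2.sq, mn_add T0.sq T1.sq] at h1
    have h2 := hA α f g hs a b c
    have h3 := hA α f g hs a c c
    have h4 := hA α f g hs c b c
    linarith
  have hD : |mn T| ≤ √(9 * A) := mn_le_sqrt LT (by positivity) hTsq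
  have hsum : mn (nn f g a b) = (mn (nn f g a c) + mn (nn f g c b)) + mn T := by
    rw [eT, mn_add (L1.add L2) LT, mn_add L1 L2]
  constructor
  · have : mn (nn f g a b) - mn (nn f g a c) - mn (nn f g c b) = mn T := by
      rw [hsum]; ring
    rw [this]
    linarith
  · have h1 := vr_add_le (L1.add L2) LT
    rw [← eT, vr_add_indep (nn_loc f g a c) (nn_loc f g c b) (ES_disj f g a c b)] at h1
    refine h1.trans ?_
    apply pow_le_pow_left₀ (by positivity)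
    have h2 : √(vr T) ≤ √(9 * A) := Real.sqrt_le_sqrt ((vr_le_sq LT).trans hTsq)
    linarith

end Pool.Agent.TH601.SV
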