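import Pool.Agent.TH601.SV.Prob

/-! The domains between two slowly varying graphs; local moment bounds. -/

namespace Pool.Agent.TH601.SV

open Pool.Agent.H988R2.Perc Pool.Agent.H980R2.Cross Pool.Agent.H980R2.Unif Finset Filter Topology
  MeasureTheory
open Pool.Agent.TH601.CC (OpenAdj.symm' OpenAdj.sum OpenAdj.diff cluO_self cluO_sub cluO_symm
  cluO_trans cluO_eq cluO_mono cluO_sep clu_side ES mem_ES step_congr cluO_congr cluO_cf)

/-- the region between the graphs of `f` and `g` over the heights `a ≤ u + v ≤ b` -/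
def dom (f g : ℤ → ℝ) (a b : ℤ) : Set (ℤ × ℤ) :=
  {x | a ≤ x.1 + x.2 ∧ x.1 + x.2 ≤ b ∧ f (x.1 + x.2) ≤ ((x.1 - x.2 : ℤ) : ℝ) ∧
    ((x.1 - x.2 : ℤ) : ℝ) ≤ g (x.1 + x.2)}

/-- nearest neighbours -/
def nbr (x z : ℤ × ℤ) : Prop := |x.1 - z.1| + |x.2 - z.2| = 1

/-- the vertices with a neighbour to the left of the graph of `f` -/
def lft (f : ℤ → ℝ) : Set (ℤ × ℤ) :=
  {x | ∃ z, nbr x z ∧ ((z.1 - z.2 : ℤ) : ℝ) < f (z.1 + z.2)}

/-- the vertices with a neighbour to the right of the graph of `g` -/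
def rgt (g : ℤ → ℝ) : Set (ℤ × ℤ) :=
  {x | ∃ z, nbr x z ∧ g (z.1 + z.2) < ((z.1 - z.2 : ℤ) : ℝ)}

/-- slowly varying pairs of graphs -/
structure Slow (α : ℝ) (f g : ℤ → ℝ) : Prop where
  h0 : 0 ≤ α
  h1 : α ≤ 1 / 256
  lf : ∀ y, |f (y + 1) - f y| ≤ α
  lg : ∀ y, |g (y + 1) - g y| ≤ α
  w : ∀ y, 2 ≤ g y - f y

theorem nbr_cases {x z : ℤ × ℤ} (h : nbr x z) :
    (z.1 + z.2 = x.1 + x.2 + 1 ∨ z.1 + z.2 = x.1 + x.2 - 1) ∧
    (z.1 - z.2 = x.1 - x.2 + 1 ∨ z.1 - z.2 = x.1 - x.2 - 1) := by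
  unfold nbr at h
  rcases abs_cases (x.1 - z.1) with ⟨h1, h2⟩ | ⟨h1, h2⟩ <;>
  rcases abs_cases (x.2 - z.2) with ⟨h3, h4⟩ | ⟨h3, h4⟩ <;>
  rw [h1, h3] at h <;> omega

theorem nbr_symm {x z : ℤ × ℤ} (h : nbr x z) : nbr z x := by
  unfold nbr at h ⊢
  rw [abs_sub_comm z.1, abs_sub_comm z.2]; exact h

theorem nbr_of {x z : ℤ × ℤ} {ω : Conf} (h : OpenAdj ω x z) : nbr x z := by
  unfold nbr
  obtain ⟨x1, x2⟩ := x
  obtain ⟨z1, z2⟩ := z
  unfold OpenAdj at h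
  simp only [Prod.mk.injEq] at h ⊢
  rcases h with ⟨⟨rfl, rfl⟩, -⟩ | ⟨⟨rfl, rfl⟩, -⟩ | ⟨⟨rfl, rfl⟩, -⟩ | ⟨⟨rfl, rfl⟩, -⟩ <;> simp

theorem lip_aux {α : ℝ} {f : ℤ → ℝ} (h : ∀ y, |f (y + 1) - f y| ≤ α) (y : ℤ) (n : ℕ) :
    |f (y + n) - f y| ≤ α * n := by
  induction n with
  | zero => simp
  | succ n ih =>
    have h1 := h (y + n)
    have e : f (y + ((n+1 : ℕ) : ℤ)) - f y = (f (y + n + 1) - f (y + n)) + (f (y + n) - f y) := by
      have : y + ((n+1 : ℕ) : ℤ) = y + n + 1 := by push_cast; ring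
      rw [this]; ring
    rw [e]
    refine (abs_add_le _ _).trans ?_
    push_cast
    linarith

theorem lip {α : ℝ} {f : ℤ → ℝ} (h : ∀ y, |f (y + 1) - f y| ≤ α) (y z : ℤ) :
    |f z - f y| ≤ α * |((z - y : ℤ) : ℝ)| := by
  rcases le_total y z with hz | hz
  · obtain ⟨n, hn⟩ := Int.eq_ofNat_of_zero_le (sub_nonneg.2 hz)
    have e : z = y + n := by omega
    subst e
    have := lip_aux h y n
    simpa using this
  · obtain ⟨n, hn⟩ := Int.eq_ofNat_of_zero_le (sub_nonneg.2 hz)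
    have e : y = z + n := by omega
    subst e
    have := lip_aux h z n
    rw [abs_sub_comm]
    simpa using this

theorem dom_finite (f g : ℤ → ℝ) (a b : ℤ) : (dom f g a b).Finite := by
  apply Set.Finite.subset ((Finset.Icc a b).biUnion (fun h => (Finset.Icc ⌈f h⌉ ⌊g h⌋).image
    (fun c => ((h + c) / 2, (h - c) / 2)))).finite_toSet
  rintro ⟨x, y⟩ ⟨h1, h2, h3, h4⟩
  simp only at h1 h2 h3 h4
  simp only [Finset.coe_biUnion, Set.mem_iUnion, Finset.mem_coe, Finset.mem_Icc, Finset.mem_image,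
    exists_prop]
  refine ⟨x + y, ⟨h1, h2⟩, x - y, ⟨Int.ceil_le.2 h3, Int.le_floor.2 h4⟩, ?_⟩
  apply Prod.ext <;> simp only <;> omega

theorem lft_le {α : ℝ} {f : ℤ → ℝ} (h : ∀ y, |f (y + 1) - f y| ≤ α) {x : ℤ × ℤ}
    (hx : x ∈ lft f) : ((x.1 - x.2 : ℤ) : ℝ) < f (x.1 + x.2) + 1 + α := by
  obtain ⟨z, hn, hz⟩ := hx
  obtain ⟨h1, h2⟩ := nbr_cases hn
  have h3 := lip h (x.1 + x.2) (z.1 + z.2)
  have h4 : |((z.1 + z.2 - (x.1 + x.2) : ℤ) : ℝ)| = 1 := by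
    rcases h1 with h1 | h1
    · have : z.1 + z.2 - (x.1 + x.2) = 1 := by omega
      rw [this]; simp
    · have : z.1 + z.2 - (x.1 + x.2) = -1 := by omega
      rw [this]; simp
  rw [h4, mul_one, abs_le] at h3
  have h5 : ((x.1 - x.2 : ℤ) : ℝ) ≤ ((z.1 - z.2 : ℤ) : ℝ) + 1 := by
    have : x.1 - x.2 ≤ z.1 - z.2 + 1 := by omega
    exact_mod_cast this
  linarith

theorem rgt_ge {α : ℝ} {g : ℤ → ℝ} (h : ∀ y, |g (y + 1) - g y| ≤ α) {x : ℤ × ℤ}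
    (hx : x ∈ rgt g) : g (x.1 + x.2) - 1 - α < ((x.1 - x.2 : ℤ) : ℝ) := by
  obtain ⟨z, hn, hz⟩ := hx
  obtain ⟨h1, h2⟩ := nbr_cases hn
  have h3 := lip h (x.1 + x.2) (z.1 + z.2)
  have h4 : |((z.1 + z.2 - (x.1 + x.2) : ℤ) : ℝ)| = 1 := by
    rcases h1 with h1 | h1
    · have : z.1 + z.2 - (x.1 + x.2) = 1 := by omega
      rw [this]; simp
    · have : z.1 + z.2 - (x.1 + x.2) = -1 := by omega
      rw [this]; simp
  rw [h4, mul_one, abs_le] at h3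
  have h5 : ((z.1 - z.2 : ℤ) : ℝ) ≤ ((x.1 - x.2 : ℤ) : ℝ) + 1 := by
    have : z.1 - z.2 ≤ x.1 - x.2 + 1 := by omega
    exact_mod_cast this
  linarith

/-- local second moment bound -/
theorem loc_sq : ∃ A : ℝ, 0 ≤ A ∧ ∀ (α : ℝ) (f g : ℤ → ℝ), Slow α f g → ∀ (a b c : ℤ)
    (D : Conf → Set (Set (ℤ × ℤ))),
    Loc (ES (dom_finite f g a b)) (fun ω => ((D ω).ncard : ℝ)) →
    (∀ ω, ∀ C ∈ D ω, C ∈ crG (dom f g a b) (lft f) (rgt g) ω ∧
      ∃ x ∈ C, |((x.1 + x.2 - c : ℤ) : ℝ)| ≤ 10 * (g c - f c)) →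
    mn (fun ω => ((D ω).ncard : ℝ) ^ 2) ≤ A := by
  obtain ⟨A, hA0, hA⟩ := moment_le
  refine ⟨A * (((600 * 600 : ℕ) : ℝ)) ^ 2, by positivity, fun α f g hs a b c D hloc hD => ?_⟩
  obtain ⟨α0, α1, lf, lg, hw⟩ := hs
  set W : ℝ := g c - f c with hW
  have hW2 : 2 ≤ W := hw c
  set m : ℕ := ⌊W / 40⌋₊ with hm
  have hm1 : (m : ℝ) ≤ W / 40 := Nat.floor_le (by positivity)
  have hm2 : W / 40 < m + 1 := Nat.lt_floor_add_one _
  set u0 : ℤ := ⌊(c + f c) / 2 - 6 * W⌋ with hu0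
  set v0 : ℤ := ⌊(c - g c) / 2 - 6 * W⌋ with hv0
  have hu1 : (u0 : ℝ) ≤ (c + f c) / 2 - 6 * W := Int.floor_le _
  have hu2 : (c + f c) / 2 - 6 * W < u0 + 1 := Int.lt_floor_add_one _
  have hv1 : (v0 : ℝ) ≤ (c - g c) / 2 - 6 * W := Int.floor_le _
  have hv2 : (c - g c) / 2 - 6 * W < v0 + 1 := Int.lt_floor_add_one _
  refine hA (dom f g a b) (dom_finite f g a b) m (600 * 600)
    (fun k => (u0 + ((k / 600 : ℕ) : ℤ) * (m + 1), v0 + ((k % 600 : ℕ) : ℤ) * (m + 1))) D hloc ?_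
  intro F hF C hC
  obtain ⟨⟨p, hp, hpL, rfl, q, hq, hqR⟩, x, hx, hxc⟩ := hD (cf F) C hC
  refine ⟨p, rfl, x, hx, ?_, ?_⟩
  · have hxS : x ∈ dom f g a b := cluO_sub hp hx
    obtain ⟨-, -, k3, k4⟩ := hxS
    have l1 := lip lf c (x.1 + x.2)
    have l2 := lip lg c (x.1 + x.2)
    have l3 : α * |((x.1 + x.2 - c : ℤ) : ℝ)| ≤ W / 25 := by
      calc α * |((x.1 + x.2 - c : ℤ) : ℝ)| ≤ (1/256) * (10 * W) := by
            apply mul_le_mul α1 hxc (abs_nonneg _) (by norm_num)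
        _ ≤ W / 25 := by linarith
    have l4 := (abs_le.1 (l1.trans l3))
    have l5 := (abs_le.1 (l2.trans l3))
    have l6 := abs_le.1 hxc
    push_cast at k3 k4 l6
    have x1a : (u0 : ℝ) ≤ x.1 := by linarith
    have x1b : (x.1 : ℝ) - u0 < 600 * (m + 1) := by linarith
    have x2a : (v0 : ℝ) ≤ x.2 := by linarith
    have x2b : (x.2 : ℝ) - v0 < 600 * (m + 1) := by linarith
    have x1a' : u0 ≤ x.1 := by exact_mod_cast x1a
    have x1b' : x.1 - u0 < 600 * ((m:ℤ) + 1) := by exact_mod_cast x1b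
    have x2a' : v0 ≤ x.2 := by exact_mod_cast x2a
    have x2b' : x.2 - v0 < 600 * ((m:ℤ) + 1) := by exact_mod_cast x2b
    have key : ∀ t : ℤ, 0 ≤ t → t < 600 * ((m:ℤ) + 1) →
        ∃ i : ℕ, i < 600 ∧ (i:ℤ) * (m + 1) ≤ t ∧ t ≤ (i:ℤ) * (m+1) + m := by
      intro t t0 t1
      have hpos : (0:ℤ) < (m:ℤ) + 1 := by positivity
      refine ⟨(t / ((m:ℤ) + 1)).toNat, ?_, ?_, ?_⟩
      · have h1 : t / ((m:ℤ)+1) < 600 := Int.ediv_lt_of_lt_mul hpos t1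
        have h0 : 0 ≤ t / ((m:ℤ)+1) := Int.ediv_nonneg t0 hpos.le
        omega
      · rw [Int.toNat_of_nonneg (Int.ediv_nonneg t0 hpos.le)]
        exact Int.ediv_mul_le t hpos.ne'
      · rw [Int.toNat_of_nonneg (Int.ediv_nonneg t0 hpos.le)]
        have := Int.lt_ediv_add_one_mul_self t hpos
        linarith
    obtain ⟨i, hi, i1, i2⟩ := key (x.1 - u0) (by omega) x1b'
    obtain ⟨j, hj, j1, j2⟩ := key (x.2 - v0) (by omega) x2b'
    refine ⟨i * 600 + j, by nlinarith, ?_⟩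
    have e1 : (i * 600 + j) / 600 = i := by omega
    have e2 : (i * 600 + j) % 600 = j := by omega
    rw [u4_mem_Kb]
    simp only [e1, e2]
    refine ⟨⟨?_, ?_⟩, ?_, ?_⟩ <;> linarith
  · by_cases hm0 : m = 0
    · refine ⟨x, hx, Or.inl ?_⟩
      rw [hm0]; simp
    · have hm3 : (1:ℝ) ≤ m := by exact_mod_cast Nat.one_le_iff_ne_zero.2 hm0
      by_contra hcon
      push Not at hcon
      have hpC : p ∈ cluO (dom f g a b) (cf F) p := cluO_self _ _ _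
      obtain ⟨p1, p2⟩ := hcon p hpC
      obtain ⟨q1, q2⟩ := hcon q hq
      have p1' : |((p.1 - x.1 : ℤ) : ℝ)| < 4 * m := by exact_mod_cast p1
      have p2' : |((p.2 - x.2 : ℤ) : ℝ)| < 4 * m := by exact_mod_cast p2
      have q1' : |((q.1 - x.1 : ℤ) : ℝ)| < 4 * m := by exact_mod_cast q1
      have q2' : |((q.2 - x.2 : ℤ) : ℝ)| < 4 * m := by exact_mod_cast q2
      rw [abs_lt] at p1' p2' q1' q2'
      push_cast at p1' p2' q1' q2' hxc
      have l6 := abs_le.1 hxc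
      have hpc : |((p.1 + p.2 - c : ℤ) : ℝ)| ≤ 11 * W := by
        push_cast
        rw [abs_le]
        constructor <;> linarith
      have hqc : |((q.1 + q.2 - c : ℤ) : ℝ)| ≤ 11 * W := by
        push_cast
        rw [abs_le]
        constructor <;> linarith
      have l1 := lip lf c (p.1 + p.2)
      have l2 := lip lg c (q.1 + q.2)
      have l3 : α * |((p.1 + p.2 - c : ℤ) : ℝ)| ≤ W / 20 := by
        calc α * |((p.1 + p.2 - c : ℤ) : ℝ)| ≤ (1/256) * (11 * W) := by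
              apply mul_le_mul α1 hpc (abs_nonneg _) (by norm_num)
          _ ≤ W / 20 := by linarith
      have l4 : α * |((q.1 + q.2 - c : ℤ) : ℝ)| ≤ W / 20 := by
        calc α * |((q.1 + q.2 - c : ℤ) : ℝ)| ≤ (1/256) * (11 * W) := by
              apply mul_le_mul α1 hqc (abs_nonneg _) (by norm_num)
          _ ≤ W / 20 := by linarith
      have l5 := (abs_le.1 (l1.trans l3))
      have l7 := (abs_le.1 (l2.trans l4))
      have b1 := lft_le lf hpL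
      have b2 := rgt_ge lg hqR
      push_cast at b1 b2
      linarith

end Pool.Agent.TH601.SV
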