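import Pool.Agent.TH601.SV.Piece

/-! The mean over a long slowly varying domain. -/

namespace Pool.Agent.TH601.SV

open Pool.Agent.H988R2.Perc Pool.Agent.H980R2.Cross Pool.Agent.H980R2.Unif Finset Filter Topology
  MeasureTheory
open Pool.Agent.TH601.CC (ES mem_ES)

theorem MM_self (f g : ℤ → ℝ) (a : ℤ) : MM f g a a = 0 := by simp [MM]

theorem Ico_one (a : ℤ) : Finset.Ico a (a+1) = {a} := by
  ext y
  simp only [Finset.mem_Ico, Finset.mem_singleton]
  omega

theorem QQ_self (f g : ℤ → ℝ) (a : ℤ) : QQ f g a a = 0 := by simp [QQ]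

/-- lower bound for `M` over a piece -/
theorem MM_ge {α : ℝ} {f g : ℤ → ℝ} (hs : Slow α f g) {a b : ℤ} (hab : a ≤ b) {t : ℝ}
    (ht : ((b - a : ℤ) : ℝ) ≤ t * (g a - f a)) :
    ((b - a : ℤ) : ℝ) * (1 / ((g a - f a) * (1 + 2 * α * t))) ≤ MM f g a b := by
  apply sum_Ico_ge hab
  intro y hy
  rw [Finset.mem_Ico] at hy
  have h2 := hs.w y
  apply one_div_le_one_div_of_le (by linarith)
  have h1 := lip hs.lf a y
  have h3 := lip hs.lg a y
  have h0 := hs.h0
  have h4 : |((y - a : ℤ) : ℝ)| ≤ ((b - a : ℤ) : ℝ) := by
    have e0 : (0:ℝ) ≤ ((y - a : ℤ) : ℝ) := by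
      have : 0 ≤ y - a := by omega
      exact_mod_cast this
    rw [abs_of_nonneg e0]
    have : y - a ≤ b - a := by omega
    exact_mod_cast this
  have h5 : α * |((y - a : ℤ) : ℝ)| ≤ α * (t * (g a - f a)) :=
    mul_le_mul_of_nonneg_left (h4.trans ht) h0
  have h6 := abs_le.1 (h1.trans h5)
  have h7 := abs_le.1 (h3.trans h5)
  nlinarith

theorem beta_piece {α : ℝ} {f g : ℤ → ℝ} (hs : Slow α f g) {a : ℤ} (hβpos : 0 < √α) (k : ℕ)
    (k1 : (k:ℝ) ≤ (g a - f a) / (16 * √α)) (k4 : (g a - f a) / (32 * √α) ≤ k) :
    1 / 64 ≤ √α * MM f g a (a + k) := by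
  have hw := hs.w a
  have ek : ((a + k - a : ℤ) : ℝ) = (k:ℝ) := by
    have : a + (k:ℤ) - a = k := by ring
    rw [this]; simp
  have hβ1 : √α ≤ 1 / 16 := by
    apply Real.sqrt_le_iff.2
    constructor
    · norm_num
    · linarith [hs.h1]
  have hβ0 := hβpos.le
  set w := g a - f a with hwd
  have m1 := MM_ge hs (show a ≤ a + (k:ℤ) by omega) (t := 1 / (16 * √α)) (by
    rw [ek]
    calc (k:ℝ) ≤ w / (16 * √α) := k1
      _ = 1 / (16 * √α) * (g a - f a) := by rw [hwd]; ring)
  rw [ek] at m1
  have m2 : 2 * α * (1 / (16 * √α)) = √α / 8 := by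
    have : α = √α * √α := (Real.mul_self_sqrt hs.h0).symm
    field_simp
    linarith
  rw [m2] at m1
  have m3 : (1:ℝ) / 2 * (1 / w) ≤ 1 / ((g a - f a) * (1 + √α / 8)) := by
    have e : (1:ℝ) / 2 * (1 / w) = 1 / (w * 2) := by field_simp
    rw [e]
    apply one_div_le_one_div_of_le (by positivity)
    apply mul_le_mul_of_nonneg_left _ (by linarith)
    linarith
  have m4 : w / (32 * √α) * (1 / 2 * (1 / w)) ≤ MM f g a (a+k) := by
    refine le_trans ?_ m1
    apply mul_le_mul k4 m3 (by positivity) (by positivity)
  have m5 := mul_le_mul_of_nonneg_left m4 hβ0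
  have m6 : √α * (w / (32 * √α) * (1 / 2 * (1 / w))) = 1 / 64 := by
    have : w ≠ 0 := by linarith
    field_simp
    norm_num
  linarith

theorem kk_aux {C0 C2 D x : ℝ} (h : 64 * (D + C0) ≤ C2 - C0) (hx : 1 / 64 ≤ x) (hD : 0 ≤ D + C0) :
    D + C0 ≤ (C2 - C0) * x := by
  have h1 : (C2 - C0) * (1 / 64) ≤ (C2 - C0) * x :=
    mul_le_mul_of_nonneg_left hx (by linarith)
  linarith

/-- **the mean** -/
theorem slow_mean : ∃ C : ℝ, 1 ≤ C ∧ ∀ (α : ℝ) (f g : ℤ → ℝ), Slow α f g → ∀ (a b : ℤ), a ≤ b →
    |mn (nn f g a b) - √3 / 4 * MM f g a b| ≤ C * (1 + √α * MM f g a b + QQ f g a b) := by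
  obtain ⟨C0, hC0, hP⟩ := piece_mean
  obtain ⟨D, hD1, hD⟩ := cut_slow
  obtain ⟨A, hA0, hA⟩ := nn_sq
  have hsA : 0 ≤ √A := Real.sqrt_nonneg A
  set C1 := C0 + √A with hC1
  set C2 := C0 + 64 * (D + C0) + 64 * (D + √A + 1) with hC2
  have hC2pos : 0 ≤ C2 := by positivity
  have s3 : √3 / 4 ≤ 1 := by
    have : √3 ≤ 2 := Real.sqrt_le_iff.2 ⟨by norm_num, by norm_num⟩
    linarith
  have s0 : 0 ≤ √3 / 4 := by positivity
  have main : ∀ (n : ℕ) (α : ℝ) (f g : ℤ → ℝ), Slow α f g → ∀ (a b : ℤ), a ≤ b →
      (b - a).toNat = n → |mn (nn f g a b) - √3 / 4 * MM f g a b| ≤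
        C1 + C2 * (√α * MM f g a b + QQ f g a b) := by
    intro n
    induction n using Nat.strong_induction_on with
    | _ n ih =>
      intro α f g hs a b hab hn
      have hβ0 : 0 ≤ √α := Real.sqrt_nonneg _
      have hM0 := MM_nonneg hs a b
      have hQ0 := QQ_nonneg f g a b
      rcases eq_or_lt_of_le hab with rfl | hlt
      · rw [MM_self, QQ_self]
        have h1 := hA α f g hs a a (by
          have := hs.w a
          simp only [sub_self, Int.cast_zero]; linarith)
        have h2 := mn_le_sqrt (nn_loc f g a a) hA0 h1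
        simp only [mul_zero, sub_zero, add_zero]
        linarith
      · rcases lt_or_ge (g a - f a) 8 with hw | hw
        · -- narrow: one row
          have h1 := (hD α f g hs a (a+1) b (by omega) (by omega)).1
          have h2 := ih (b - (a+1)).toNat (by omega) α f g hs (a+1) b (by omega) rfl
          have h3 := hA α f g hs a (a+1) (by
            have := hs.w a
            have e : ((a + 1 - a : ℤ) : ℝ) = 1 := by
              have : a + 1 - a = 1 := by ring
              rw [this]; simp
            rw [e]; linarith)
          have h4 := mn_le_sqrt (nn_loc f g a (a+1)) hA0 h3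
          have e1 := MM_add f g (show a ≤ a + 1 by omega) (show a + 1 ≤ b by omega)
          have e2 := QQ_add f g (show a ≤ a + 1 by omega) (show a + 1 ≤ b by omega)
          have e3 : MM f g a (a+1) = 1 / (g a - f a) := by
            unfold MM
            rw [Ico_one]
            simp
          have e4 : QQ f g a (a+1) = 1 / (g a - f a) ^ 2 := by
            unfold QQ
            rw [Ico_one]
            simp
          have hwa := hs.w a
          have e5 : MM f g a (a+1) ≤ 1 := by
            rw [e3, div_le_one (by linarith)]; linarith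
          have e5' : 0 ≤ MM f g a (a+1) := MM_nonneg hs a (a+1)
          have e6 : 1 / 64 ≤ QQ f g a (a+1) := by
            rw [e4]
            apply one_div_le_one_div_of_le (by positivity)
            nlinarith
          have k1 : D + √A + 1 ≤ C2 * QQ f g a (a+1) := by
            have h64 : 64 * (D + √A + 1) ≤ C2 := by
              rw [hC2]; linarith
            have h65 := mul_le_mul_of_nonneg_left e6 hC2pos
            linarith
          have k2 : 0 ≤ C2 * (√α * MM f g a (a+1)) := by positivity
          rw [e1, e2]
          have h1' := abs_le.1 h1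
          have h2' := abs_le.1 h2
          have h4' := abs_le.1 h4
          have k3 : √3 / 4 * MM f g a (a+1) ≤ 1 := mul_le_one₀ s3 e5' e5
          have k4 : 0 ≤ √3 / 4 * MM f g a (a+1) := by positivity
          have k5 : C2 * (√α * (MM f g a (a+1) + MM f g (a+1) b) +
              (QQ f g a (a+1) + QQ f g (a+1) b)) = C2 * (√α * MM f g a (a+1)) +
              C2 * QQ f g a (a+1) + C2 * (√α * MM f g (a+1) b + QQ f g (a+1) b) := by ring
          have k6 : √3 / 4 * (MM f g a (a+1) + MM f g (a+1) b) =
              √3 / 4 * MM f g a (a+1) + √3 / 4 * MM f g (a+1) b := by ring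
          rw [k5, k6, abs_le]
          constructor <;> linarith [h1'.1, h1'.2, h2'.1, h2'.2, h4'.1, h4'.2]
        · rcases le_or_gt (√α * ((b - a : ℤ) : ℝ)) ((g a - f a) / 16) with hK | hK
          · -- a single piece
            have h1 := hP α f g hs a b hab hw hK
            refine h1.trans ?_
            have k1 : 0 ≤ √α * MM f g a b + QQ f g a b := by positivity
            have k2 : C0 ≤ C2 := by rw [hC2]; linarith
            have k3 := mul_le_mul_of_nonneg_right k2 k1
            have k4 : C0 * (1 + √α * MM f g a b + QQ f g a b) =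
                C0 + C0 * (√α * MM f g a b + QQ f g a b) := by ring
            rw [k4]
            linarith
          · -- cut off a piece
            have hβpos : 0 < √α := by
              rcases hβ0.eq_or_lt with h | h
              · rw [← h, zero_mul] at hK
                linarith
              · exact h
            have hβ1 : √α ≤ 1 / 16 := by
              apply Real.sqrt_le_iff.2
              constructor
              · norm_num
              · linarith [hs.h1]
            set w := g a - f a with hwd
            set k : ℕ := ⌊w / (16 * √α)⌋₊ with hk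
            have k1 : (k:ℝ) ≤ w / (16 * √α) := Nat.floor_le (by positivity)
            have k2 : w / (16 * √α) < k + 1 := Nat.lt_floor_add_one _
            have k3 : 8 ≤ w / (16 * √α) := by
              rw [le_div_iff₀ (by positivity)]; linarith
            have k4 : w / (32 * √α) ≤ k := by
              have : w / (32 * √α) = (w / (16 * √α)) / 2 := by field_simp; norm_num
              rw [this]; linarith
            have k5 : (1:ℝ) ≤ k := by linarith
            have k6 : √α * k ≤ w / 16 := by
              have := mul_le_mul_of_nonneg_left k1 hβ0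
              have e : √α * (w / (16 * √α)) = w / 16 := by field_simp
              linarith
            have k7 : (k:ℝ) < ((b - a : ℤ) : ℝ) := by
              by_contra hcon
              push Not at hcon
              have := mul_le_mul_of_nonneg_left hcon hβ0
              linarith
            have k8 : (k:ℤ) < b - a := by exact_mod_cast k7
            have k9 : 1 ≤ (k:ℤ) := by exact_mod_cast k5
            have ek : ((a + k - a : ℤ) : ℝ) = (k:ℝ) := by
              have : a + (k:ℤ) - a = k := by ring
              rw [this]; simp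
            have h1 := (hD α f g hs a (a+k) b (by omega) (by omega)).1
            have h2 := ih (b - (a+k)).toNat (by omega) α f g hs (a+k) b (by omega) rfl
            have h3 := hP α f g hs a (a+k) (by omega) hw (by rw [ek]; exact k6)
            have e1 := MM_add f g (show a ≤ a + (k:ℤ) by omega) (show a + (k:ℤ) ≤ b by omega)
            have e2 := QQ_add f g (show a ≤ a + (k:ℤ) by omega) (show a + (k:ℤ) ≤ b by omega)
            have hM1 : 1 / 64 ≤ √α * MM f g a (a + k) := beta_piece hs hβpos k k1 k4
            have hM1' := MM_nonneg hs a (a+k)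
            have hQ1' := QQ_nonneg f g a (a+k)
            have kk1 : D + C0 ≤ (C2 - C0) * (√α * MM f g a (a+k)) := by
              have : 64 * (D + C0) ≤ C2 - C0 := by
                rw [hC2]; linarith
              exact kk_aux this hM1 (by linarith)
            have kk2 : 0 ≤ (C2 - C0) * QQ f g a (a+k) := by
              apply mul_nonneg _ hQ1'
              rw [hC2]; linarith
            rw [e1, e2]
            have h1' := abs_le.1 h1
            have h2' := abs_le.1 h2
            have h3' := abs_le.1 h3
            have k10 : C2 * (√α * (MM f g a (a+k) + MM f g (a+k) b) +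
                (QQ f g a (a+k) + QQ f g (a+k) b)) =
                C0 * (√α * MM f g a (a+k)) + C0 * QQ f g a (a+k) +
                (C2 - C0) * (√α * MM f g a (a+k)) +
                (C2 - C0) * QQ f g a (a+k) + C2 * (√α * MM f g (a+k) b + QQ f g (a+k) b) := by ring
            have k11 : √3 / 4 * (MM f g a (a+k) + MM f g (a+k) b) =
                √3 / 4 * MM f g a (a+k) + √3 / 4 * MM f g (a+k) b := by ring
            have k12 : C0 * (1 + √α * MM f g a (a+k) + QQ f g a (a+k)) =
                C0 + C0 * (√α * MM f g a (a+k)) + C0 * QQ f g a (a+k) := by ring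
            rw [k12] at h3'
            rw [k10, k11, abs_le]
            constructor <;> linarith [h1'.1, h1'.2, h2'.1, h2'.2, h3'.1, h3'.2]
  refine ⟨C1 + C2, ?_, fun α f g hs a b hab => ?_⟩
  · rw [hC1]; linarith
  · have h := main _ α f g hs a b hab rfl
    refine h.trans ?_
    have hM0 := MM_nonneg hs a b
    have hQ0 := QQ_nonneg f g a b
    have hβ0 : 0 ≤ √α := Real.sqrt_nonneg _
    have k1 : 0 ≤ √α * MM f g a b + QQ f g a b := by positivity
    have k2 : 0 ≤ C1 := by rw [hC1]; linarith
    nlinarith [mul_nonneg k2 k1]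

end Pool.Agent.TH601.SV
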