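import Mathlib

/-! The conformal modulus of a region between two graphs: the length-area estimates
`M ≤ λ ≤ (1 + α²) M`. -/

namespace Pool.Agent.TH601.SV.Mod

open MeasureTheory Set Filter Topology
open scoped ENNReal NNReal

/-- the region between the graphs of `F` and `G` -/
def Reg (F G : ℝ → ℝ) (A B : ℝ) : Set ℂ :=
  {z | A < z.im ∧ z.im < B ∧ F z.im < z.re ∧ z.re < G z.im}

/-- the open rectangle `(0,1) × (0,lam)` -/
def Rec (lam : ℝ) : Set ℂ := {z | 0 < z.re ∧ z.re < 1 ∧ 0 < z.im ∧ z.im < lam}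

/-- `φ` is a conformal map of the region onto the rectangle taking sides to sides -/
structure ConfRect (F G : ℝ → ℝ) (A B lam : ℝ) (φ : ℂ → ℂ) : Prop where
  diff : DifferentiableOn ℂ φ (Reg F G A B)
  cont : ContinuousOn φ (closure (Reg F G A B))
  bij : BijOn φ (Reg F G A B) (Rec lam)
  left : ∀ z ∈ closure (Reg F G A B), z.re = F z.im → (φ z).re = 0
  right : ∀ z ∈ closure (Reg F G A B), z.re = G z.im → (φ z).re = 1
  bottom : ∀ z ∈ closure (Reg F G A B), z.im = A → (φ z).im = 0
  top : ∀ z ∈ closure (Reg F G A B), z.im = B → (φ z).im = lam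

theorem ftc_le {h h' : ℝ → ℂ} {a b : ℝ} (hab : a < b) (hc : ContinuousOn h (Icc a b))
    (hd : ∀ x ∈ Ioo a b, HasDerivAt h (h' x) x) (hc' : ContinuousOn h' (Ioo a b)) :
    ‖h b - h a‖ₑ ≤ ∫⁻ x in Ioo a b, ‖h' x‖ₑ := by
  have key : ∀ᶠ ε in 𝓝[>] (0:ℝ), ‖h (b - ε) - h (a + ε)‖ₑ ≤ ∫⁻ x in Ioo a b, ‖h' x‖ₑ := by
    have h1 : ∀ᶠ ε in 𝓝[>] (0:ℝ), ε < (b - a) / 2 :=
      (Iio_mem_nhds (by linarith : (0:ℝ) < (b - a) / 2)) |> fun hh => mem_nhdsWithin_of_mem_nhds hh
    filter_upwards [h1, self_mem_nhdsWithin] with ε h2 h3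
    have h3' : 0 < ε := h3
    have hle : a + ε ≤ b - ε := by linarith
    have hsub : Icc (a + ε) (b - ε) ⊆ Ioo a b := fun x hx => ⟨by linarith [hx.1], by linarith [hx.2]⟩
    have hint : IntervalIntegrable h' volume (a + ε) (b - ε) := by
      apply ContinuousOn.intervalIntegrable
      rw [uIcc_of_le hle]
      exact hc'.mono hsub
    have e := intervalIntegral.integral_eq_sub_of_hasDerivAt (f := h) (f' := h') (a := a + ε)
      (b := b - ε) (by
        rw [uIcc_of_le hle]
        intro x hx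
        exact hd x (hsub hx)) hint
    rw [← e, intervalIntegral.integral_of_le hle]
    refine (enorm_integral_le_lintegral_enorm _).trans ?_
    apply lintegral_mono_set
    intro x hx
    exact hsub ⟨hx.1.le, hx.2⟩
  have lim : Tendsto (fun ε : ℝ => ‖h (b - ε) - h (a + ε)‖ₑ) (𝓝[>] (0:ℝ)) (𝓝 ‖h b - h a‖ₑ) := by
    apply Tendsto.enorm
    apply Tendsto.sub
    · have c1 : ContinuousWithinAt h (Icc a b) b := hc b ⟨hab.le, le_rfl⟩
      apply c1.tendsto.comp
      apply tendsto_nhdsWithin_of_tendsto_nhds_of_eventually_within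
      · have : Tendsto (fun ε : ℝ => b - ε) (𝓝 0) (𝓝 (b - 0)) := tendsto_const_nhds.sub tendsto_id
        rw [sub_zero] at this
        exact this.mono_left nhdsWithin_le_nhds
      · have h1 : ∀ᶠ ε in 𝓝[>] (0:ℝ), ε < (b - a) :=
          (Iio_mem_nhds (by linarith : (0:ℝ) < (b - a))) |> fun hh => mem_nhdsWithin_of_mem_nhds hh
        filter_upwards [h1, self_mem_nhdsWithin] with ε h2 h3
        have h3' : 0 < ε := h3
        exact ⟨by linarith, by linarith⟩
    · have c1 : ContinuousWithinAt h (Icc a b) a := hc a ⟨le_rfl, hab.le⟩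
      apply c1.tendsto.comp
      apply tendsto_nhdsWithin_of_tendsto_nhds_of_eventually_within
      · have : Tendsto (fun ε : ℝ => a + ε) (𝓝 0) (𝓝 (a + 0)) := tendsto_const_nhds.add tendsto_id
        rw [add_zero] at this
        exact this.mono_left nhdsWithin_le_nhds
      · have h1 : ∀ᶠ ε in 𝓝[>] (0:ℝ), ε < (b - a) :=
          (Iio_mem_nhds (by linarith : (0:ℝ) < (b - a))) |> fun hh => mem_nhdsWithin_of_mem_nhds hh
        filter_upwards [h1, self_mem_nhdsWithin] with ε h2 h3
        have h3' : 0 < ε := h3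
        exact ⟨by linarith, by linarith⟩
  exact le_of_tendsto lim key

theorem isOpen_Reg {F G : ℝ → ℝ} (hF : Continuous F) (hG : Continuous G) (A B : ℝ) :
    IsOpen (Reg F G A B) := by
  unfold Reg
  apply IsOpen.inter (isOpen_lt continuous_const Complex.continuous_im)
  apply IsOpen.inter (isOpen_lt Complex.continuous_im continuous_const)
  apply IsOpen.inter
  · exact isOpen_lt (hF.comp Complex.continuous_im) Complex.continuous_re
  · exact isOpen_lt Complex.continuous_re (hG.comp Complex.continuous_im)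

theorem det_eq (c : ℂ) :
    ((ContinuousLinearMap.toSpanSingleton ℂ c).restrictScalars ℝ).det = ‖c‖ ^ 2 := by
  have h : (((ContinuousLinearMap.toSpanSingleton ℂ c).restrictScalars ℝ : ℂ →L[ℝ] ℂ) :
      ℂ →ₗ[ℝ] ℂ) = (LinearMap.toSpanSingleton ℂ ℂ c).restrictScalars ℝ := by
    ext <;> rfl
  unfold ContinuousLinearMap.det
  rw [h, LinearMap.det_restrictScalars, Algebra.norm_complex_apply, Complex.normSq_eq_norm_sq]
  congr 2
  simp [LinearMap.det_ring]

theorem vol_Rec (lam : ℝ) : volume (Rec lam) = ENNReal.ofReal lam := by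
  have h := (Complex.volume_preserving_equiv_real_prod.symm).measure_preimage
    (s := Rec lam) ?_
  · rw [← h]
    have e : (Complex.measurableEquivRealProd.symm ⁻¹' Rec lam) = Ioo (0:ℝ) 1 ×ˢ Ioo (0:ℝ) lam := by
      ext p
      simp only [mem_preimage, Rec, mem_prod, mem_Ioo]
      constructor
      · rintro ⟨h1, h2, h3, h4⟩
        exact ⟨⟨h1, h2⟩, h3, h4⟩
      · rintro ⟨⟨h1, h2⟩, h3, h4⟩
        exact ⟨h1, h2, h3, h4⟩
    rw [e, Measure.volume_eq_prod, Measure.prod_prod, Real.volume_Ioo, Real.volume_Ioo]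
    simp
  · apply IsOpen.nullMeasurableSet
    unfold Rec
    apply IsOpen.inter (isOpen_lt continuous_const Complex.continuous_re)
    apply IsOpen.inter (isOpen_lt Complex.continuous_re continuous_const)
    apply IsOpen.inter (isOpen_lt continuous_const Complex.continuous_im)
    exact isOpen_lt Complex.continuous_im continuous_const

/-- the area formula -/
theorem area {F G : ℝ → ℝ} (hF : Continuous F) (hG : Continuous G) {A B lam : ℝ}
    {φ : ℂ → ℂ} (hφ : ConfRect F G A B lam φ) :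
    ∫⁻ z in Reg F G A B, ENNReal.ofReal (‖deriv φ z‖ ^ 2) = ENNReal.ofReal lam := by
  have ho := isOpen_Reg hF hG A B
  have h := lintegral_abs_det_fderiv_eq_addHaar_image (volume : Measure ℂ) (s := Reg F G A B)
    (f := φ) (f' := fun z => (ContinuousLinearMap.toSpanSingleton ℂ (deriv φ z)).restrictScalars ℝ)
    ho.measurableSet ?_ hφ.bij.injOn
  · simp only [det_eq] at h
    rw [hφ.bij.image_eq, vol_Rec lam] at h
    rw [← h]
    congr 1
    funext z
    rw [abs_of_nonneg (sq_nonneg _)]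
  · intro z hz
    have hd : HasDerivAt φ (deriv φ z) z :=
      ((hφ.diff z hz).differentiableAt (ho.mem_nhds hz)).hasDerivAt
    exact (hd.hasFDerivAt.restrictScalars ℝ).hasFDerivWithinAt

end Pool.Agent.TH601.SV.Mod
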