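import Pool.Agent.TH601.SV.Sand

/-! The mean over one short piece. -/

namespace Pool.Agent.TH601.SV

open Pool.Agent.H988R2.Perc Pool.Agent.H980R2.Cross Pool.Agent.H980R2.Unif Finset Filter Topology
  MeasureTheory
open Pool.Agent.TH601.CC (ES mem_ES)

/-- `∫ dy / w(y)` -/
noncomputable def MM (f g : ℤ → ℝ) (a b : ℤ) : ℝ := ∑ y ∈ Finset.Ico a b, 1 / (g y - f y)

/-- `∫ dy / w(y)²` -/
noncomputable def QQ (f g : ℤ → ℝ) (a b : ℤ) : ℝ := ∑ y ∈ Finset.Ico a b, 1 / (g y - f y) ^ 2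

theorem MM_add (f g : ℤ → ℝ) {a c b : ℤ} (h1 : a ≤ c) (h2 : c ≤ b) :
    MM f g a b = MM f g a c + MM f g c b := by
  unfold MM
  rw [← Finset.Ico_union_Ico_eq_Ico h1 h2,
    Finset.sum_union (Finset.Ico_disjoint_Ico_consecutive a c b)]

theorem QQ_add (f g : ℤ → ℝ) {a c b : ℤ} (h1 : a ≤ c) (h2 : c ≤ b) :
    QQ f g a b = QQ f g a c + QQ f g c b := by
  unfold QQ
  rw [← Finset.Ico_union_Ico_eq_Ico h1 h2,
    Finset.sum_union (Finset.Ico_disjoint_Ico_consecutive a c b)]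

theorem MM_nonneg {α : ℝ} {f g : ℤ → ℝ} (hs : Slow α f g) (a b : ℤ) : 0 ≤ MM f g a b :=
  Finset.sum_nonneg (fun y _ => by have := hs.w y; positivity)

theorem QQ_nonneg (f g : ℤ → ℝ) (a b : ℤ) : 0 ≤ QQ f g a b :=
  Finset.sum_nonneg (fun y _ => by positivity)

theorem sum_Ico_ge {F : ℤ → ℝ} {a b : ℤ} (hab : a ≤ b) {t : ℝ} (h : ∀ y ∈ Finset.Ico a b, t ≤ F y) :
    ((b - a : ℤ) : ℝ) * t ≤ ∑ y ∈ Finset.Ico a b, F y := by
  have h1 := Finset.card_nsmul_le_sum (Finset.Ico a b) F t h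
  rw [Int.card_Ico, nsmul_eq_mul] at h1
  have h2 : (((b - a).toNat : ℕ) : ℝ) = ((b - a : ℤ) : ℝ) := by
    have := Int.toNat_of_nonneg (sub_nonneg.2 hab)
    exact_mod_cast this
  rwa [h2] at h1

theorem sum_Ico_le {F : ℤ → ℝ} {a b : ℤ} (hab : a ≤ b) {t : ℝ} (h : ∀ y ∈ Finset.Ico a b, F y ≤ t) :
    ∑ y ∈ Finset.Ico a b, F y ≤ ((b - a : ℤ) : ℝ) * t := by
  have h1 := Finset.sum_le_card_nsmul (Finset.Ico a b) F t h
  rw [Int.card_Ico, nsmul_eq_mul] at h1
  have h2 : (((b - a).toNat : ℕ) : ℝ) = ((b - a : ℤ) : ℝ) := by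
    have := Int.toNat_of_nonneg (sub_nonneg.2 hab)
    exact_mod_cast this
  rwa [h2] at h1

theorem piece_aux {A K M Q w δ β N ν : ℝ} (hν0 : 0 ≤ ν) (hν1 : ν ≤ 1) (hK : 0 ≤ K)
    (hδ0 : 0 ≤ δ) (hδ : δ ≤ β * w / 16 + 1 / 256) (hβ0 : 0 ≤ β) (hβ : β ≤ 1 / 16)
    (hw : 8 ≤ w) (hA : 0 ≤ A)
    (hM : K * (1 / (w + 2 * δ)) ≤ M) (hQ : K * (1 / (w + 2 * δ) ^ 2) ≤ Q)
    (hN : w - 2 * δ - 2 ≤ N) :
    ν * (K / N) + A * (1 + K / N ^ 2) ≤ ν * M + (8 * A + 16) * (1 + β * M + Q) := by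
  have hδw : δ ≤ w / 128 := by nlinarith
  have hN2 : w / 2 ≤ N := by linarith
  have hNpos : 0 < N := by linarith
  have hwpos : 0 < w := by linarith
  have hwd : 0 < w + 2 * δ := by linarith
  have hM0 : 0 ≤ M := le_trans (by positivity) hM
  have hQ0 : 0 ≤ Q := le_trans (by positivity) hQ
  -- K / w ≤ 2 M
  have e1 : K / w ≤ 2 * M := by
    have : K / w ≤ 2 * (K * (1 / (w + 2 * δ))) := by
      rw [div_le_iff₀ hwpos, mul_one_div]
      have h2 : 2 * (K / (w + 2 * δ)) * w = K * (2 * w / (w + 2 * δ)) := by ring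
      rw [h2]
      have h3 : 1 ≤ 2 * w / (w + 2 * δ) := by rw [le_div_iff₀ hwd]; linarith
      nlinarith
    linarith
  have e2 : K / w ^ 2 ≤ 2 * Q := by
    have : K / w ^ 2 ≤ 2 * (K * (1 / (w + 2 * δ) ^ 2)) := by
      rw [div_le_iff₀ (by positivity), mul_one_div]
      have h2 : 2 * (K / (w + 2 * δ) ^ 2) * w ^ 2 = K * (2 * w ^ 2 / (w + 2 * δ) ^ 2) := by ring
      rw [h2]
      have h3 : 1 ≤ 2 * w ^ 2 / (w + 2 * δ) ^ 2 := by
        rw [le_div_iff₀ (by positivity)]; nlinarith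
      nlinarith
    linarith
  have e3 : K / N ^ 2 ≤ 8 * Q := by
    have : K / N ^ 2 ≤ 4 * (K / w ^ 2) := by
      rw [div_le_iff₀ (by positivity)]
      have h2 : 4 * (K / w ^ 2) * N ^ 2 = K * (4 * N ^ 2 / w ^ 2) := by ring
      rw [h2]
      have h3 : 1 ≤ 4 * N ^ 2 / w ^ 2 := by
        rw [le_div_iff₀ (by positivity)]; nlinarith
      nlinarith
    linarith
  have e4 : K / N - K * (1 / (w + 2 * δ)) ≤ 2 * (4 * δ + 2) * (K / w ^ 2) := by
    have h1 : K / N - K * (1 / (w + 2 * δ)) = K * (w + 2 * δ - N) / (N * (w + 2 * δ)) := by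
      field_simp
    rw [h1]
    have h2 : K * (w + 2 * δ - N) ≤ K * (4 * δ + 2) := by
      apply mul_le_mul_of_nonneg_left _ hK; linarith
    have h3 : w ^ 2 / 2 ≤ N * (w + 2 * δ) := by nlinarith
    calc K * (w + 2 * δ - N) / (N * (w + 2 * δ)) ≤ K * (4 * δ + 2) / (N * (w + 2 * δ)) := by
          apply div_le_div_of_nonneg_right h2 (by positivity)
      _ ≤ K * (4 * δ + 2) / (w ^ 2 / 2) := by
          apply div_le_div_of_nonneg_left (by positivity) (by positivity) h3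
      _ = 2 * (4 * δ + 2) * (K / w ^ 2) := by field_simp
  have e5 : 2 * (4 * δ + 2) * (K / w ^ 2) ≤ β * M + 10 * Q := by
    have h0 : 0 ≤ K / w ^ 2 := by positivity
    have h1 : 2 * (4 * δ + 2) ≤ β * w / 2 + 5 := by linarith
    have h2 : (β * w / 2 + 5) * (K / w ^ 2) = β / 2 * (K / w) + 5 * (K / w ^ 2) := by
      field_simp
    have h3 : 2 * (4 * δ + 2) * (K / w ^ 2) ≤ (β * w / 2 + 5) * (K / w ^ 2) :=
      mul_le_mul_of_nonneg_right h1 h0
    rw [h2] at h3
    have h4 : β / 2 * (K / w) ≤ β / 2 * (2 * M) := by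
      apply mul_le_mul_of_nonneg_left e1; linarith
    linarith
  have e6 : K / N ≤ M + (β * M + 10 * Q) := by linarith
  have e7 : ν * (K / N) ≤ ν * M + (β * M + 10 * Q) := by
    have h1 : ν * (K / N) ≤ ν * (M + (β * M + 10 * Q)) := mul_le_mul_of_nonneg_left e6 hν0
    have h2 : 0 ≤ β * M + 10 * Q := by positivity
    nlinarith
  have e8 : A * (1 + K / N ^ 2) ≤ A * (1 + 8 * Q) := by
    apply mul_le_mul_of_nonneg_left _ hA; linarith
  have hβM : 0 ≤ β * M := by positivity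
  nlinarith [mul_nonneg hA hβM, mul_nonneg hA hQ0]

theorem piece_aux2 {A K M Q w δ β N ν : ℝ} (hν0 : 0 ≤ ν) (hν1 : ν ≤ 1) (hK : 0 ≤ K)
    (hδ0 : 0 ≤ δ) (hδ : δ ≤ β * w / 16 + 1 / 256) (hβ0 : 0 ≤ β) (hβ : β ≤ 1 / 16)
    (hw : 8 ≤ w) (hA : 0 ≤ A)
    (hM1 : K * (1 / (w + 2 * δ)) ≤ M) (hQ : K * (1 / (w + 2 * δ) ^ 2) ≤ Q)
    (hM : M ≤ K * (1 / (w - 2 * δ)))
    (hN1 : w ≤ N) (hN : N ≤ w + 2 * δ + 2) :
    ν * M - (8 * A + 16) * (1 + β * M + Q) ≤ ν * (K / N) - A * (1 + K / N ^ 2) := by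
  have hδw : δ ≤ w / 128 := by nlinarith
  have hNpos : 0 < N := by linarith
  have hwpos : 0 < w := by linarith
  have hwd : 0 < w + 2 * δ := by linarith
  have hwd2 : 0 < w - 2 * δ := by linarith
  have hM0 : 0 ≤ M := le_trans (by positivity) hM1
  have hQ0 : 0 ≤ Q := le_trans (by positivity) hQ
  have e1 : K / w ≤ 2 * M := by
    have : K / w ≤ 2 * (K * (1 / (w + 2 * δ))) := by
      rw [div_le_iff₀ hwpos, mul_one_div]
      have h2 : 2 * (K / (w + 2 * δ)) * w = K * (2 * w / (w + 2 * δ)) := by ring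
      rw [h2]
      have h3 : 1 ≤ 2 * w / (w + 2 * δ) := by rw [le_div_iff₀ hwd]; linarith
      nlinarith
    linarith
  have e2 : K / w ^ 2 ≤ 2 * Q := by
    have : K / w ^ 2 ≤ 2 * (K * (1 / (w + 2 * δ) ^ 2)) := by
      rw [div_le_iff₀ (by positivity), mul_one_div]
      have h2 : 2 * (K / (w + 2 * δ) ^ 2) * w ^ 2 = K * (2 * w ^ 2 / (w + 2 * δ) ^ 2) := by ring
      rw [h2]
      have h3 : 1 ≤ 2 * w ^ 2 / (w + 2 * δ) ^ 2 := by
        rw [le_div_iff₀ (by positivity)]; nlinarith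
      nlinarith
    linarith
  have e3 : K / N ^ 2 ≤ 8 * Q := by
    have : K / N ^ 2 ≤ K / w ^ 2 := by
      apply div_le_div_of_nonneg_left hK (by positivity)
      apply pow_le_pow_left₀ hwpos.le hN1
    linarith
  have e4 : K * (1 / (w - 2 * δ)) - K / N ≤ 2 * (4 * δ + 2) * (K / w ^ 2) := by
    have h1 : K * (1 / (w - 2 * δ)) - K / N = K * (N - (w - 2 * δ)) / (N * (w - 2 * δ)) := by
      field_simp
    rw [h1]
    have h2 : K * (N - (w - 2 * δ)) ≤ K * (4 * δ + 2) := by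
      apply mul_le_mul_of_nonneg_left _ hK; linarith
    have h3 : w ^ 2 / 2 ≤ N * (w - 2 * δ) := by nlinarith
    calc K * (N - (w - 2 * δ)) / (N * (w - 2 * δ)) ≤ K * (4 * δ + 2) / (N * (w - 2 * δ)) := by
          apply div_le_div_of_nonneg_right h2 (by positivity)
      _ ≤ K * (4 * δ + 2) / (w ^ 2 / 2) := by
          apply div_le_div_of_nonneg_left (by positivity) (by positivity) h3
      _ = 2 * (4 * δ + 2) * (K / w ^ 2) := by field_simp
  have e5 : 2 * (4 * δ + 2) * (K / w ^ 2) ≤ β * M + 10 * Q := by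
    have h0 : 0 ≤ K / w ^ 2 := by positivity
    have h1 : 2 * (4 * δ + 2) ≤ β * w / 2 + 5 := by linarith
    have h2 : (β * w / 2 + 5) * (K / w ^ 2) = β / 2 * (K / w) + 5 * (K / w ^ 2) := by
      field_simp
    have h3 : 2 * (4 * δ + 2) * (K / w ^ 2) ≤ (β * w / 2 + 5) * (K / w ^ 2) :=
      mul_le_mul_of_nonneg_right h1 h0
    rw [h2] at h3
    have h4 : β / 2 * (K / w) ≤ β / 2 * (2 * M) := by
      apply mul_le_mul_of_nonneg_left e1; linarith
    linarith
  have e6 : M ≤ K / N + (β * M + 10 * Q) := by linarith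
  have e7 : ν * M ≤ ν * (K / N) + (β * M + 10 * Q) := by
    have h1 : ν * M ≤ ν * (K / N + (β * M + 10 * Q)) := mul_le_mul_of_nonneg_left e6 hν0
    have h2 : 0 ≤ β * M + 10 * Q := by positivity
    nlinarith
  have e8 : A * (1 + K / N ^ 2) ≤ A * (1 + 8 * Q) := by
    apply mul_le_mul_of_nonneg_left _ hA; linarith
  have hβM : 0 ≤ β * M := by positivity
  nlinarith [mul_nonneg hA hβM, mul_nonneg hA hQ0]

/-- **the mean over a short piece** -/
theorem piece_mean : ∃ C : ℝ, 1 ≤ C ∧ ∀ (α : ℝ) (f g : ℤ → ℝ), Slow α f g → ∀ (a b : ℤ), a ≤ b →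
    8 ≤ g a - f a → √α * ((b - a : ℤ) : ℝ) ≤ (g a - f a) / 16 →
    |mn (nn f g a b) - √3 / 4 * MM f g a b| ≤ C * (1 + √α * MM f g a b + QQ f g a b) := by
  obtain ⟨A, hA0, hA⟩ := rect_mean
  refine ⟨8 * A + 16, by linarith, fun α f g hs a b hab hw hK => ?_⟩
  have hs' := hs
  obtain ⟨α0, α1, lf, lg, h2w⟩ := hs'
  set w := g a - f a with hwd
  set β := √α with hβd
  set K : ℝ := ((b - a : ℤ) : ℝ) with hKd
  have hβ0 : 0 ≤ β := Real.sqrt_nonneg _
  have hββ : β * β = α := Real.mul_self_sqrt α0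
  have hβ1 : β ≤ 1 / 16 := by
    apply Real.sqrt_le_iff.2
    constructor
    · norm_num
    · linarith
  have hK0 : 0 ≤ K := by
    have : 0 ≤ b - a := by omega
    simp only [hKd]; exact_mod_cast this
  set δ := α * (K + 1) with hδd
  have hδ0 : 0 ≤ δ := by positivity
  have hδ : δ ≤ β * w / 16 + 1 / 256 := by
    have h1 : δ = β * (β * K) + α := by rw [hδd, ← hββ]; ring
    have h2 : β * (β * K) ≤ β * (w / 16) := mul_le_mul_of_nonneg_left hK hβ0
    rw [h1]; linarith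
  have hδw : δ ≤ w / 128 := by nlinarith
  have s3 : √3 / 4 ≤ 1 := by
    have : √3 ≤ 2 := Real.sqrt_le_iff.2 ⟨by norm_num, by norm_num⟩
    linarith
  have s0 : 0 ≤ √3 / 4 := by positivity
  -- the variation of the graphs
  have var : ∀ (F : ℤ → ℝ), (∀ y, |F (y + 1) - F y| ≤ α) → ∀ y, a - 1 ≤ y → y ≤ b + 1 →
      F a - δ ≤ F y ∧ F y ≤ F a + δ := by
    intro F hF y y1 y2
    have h1 := lip hF a y
    have h2 : |((y - a : ℤ) : ℝ)| ≤ K + 1 := by
      rw [abs_le]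
      constructor
      · have : -1 ≤ y - a := by omega
        have h3 : (-1:ℝ) ≤ ((y - a : ℤ) : ℝ) := by exact_mod_cast this
        linarith
      · have : y - a ≤ b - a + 1 := by omega
        have h3 : ((y - a : ℤ) : ℝ) ≤ ((b - a : ℤ) : ℝ) + 1 := by exact_mod_cast this
        exact h3
    have h3 : α * |((y - a : ℤ) : ℝ)| ≤ δ := mul_le_mul_of_nonneg_left h2 α0
    have h4 := abs_le.1 (h1.trans h3)
    constructor <;> linarith
  have wy : ∀ y ∈ Finset.Ico a b, w - 2 * δ ≤ g y - f y ∧ g y - f y ≤ w + 2 * δ := by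
    intro y hy
    rw [Finset.mem_Ico] at hy
    obtain ⟨h1, h2⟩ := var f lf y (by omega) (by omega)
    obtain ⟨h3, h4⟩ := var g lg y (by omega) (by omega)
    constructor <;> linarith
  have hwd2 : 0 < w - 2 * δ := by linarith
  have hM1 : K * (1 / (w + 2 * δ)) ≤ MM f g a b := by
    apply sum_Ico_ge hab
    intro y hy
    apply one_div_le_one_div_of_le _ (wy y hy).2
    have := h2w y
    linarith
  have hM2 : MM f g a b ≤ K * (1 / (w - 2 * δ)) := by
    apply sum_Ico_le hab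
    intro y hy
    exact one_div_le_one_div_of_le hwd2 (wy y hy).1
  have hQ1 : K * (1 / (w + 2 * δ) ^ 2) ≤ QQ f g a b := by
    apply sum_Ico_ge hab
    intro y hy
    have h2 := h2w y
    apply one_div_le_one_div_of_le (by positivity)
    apply pow_le_pow_left₀ (by linarith) (wy y hy).2
  -- inner rectangle
  have up : mn (nn f g a b) ≤ √3 / 4 * MM f g a b +
      (8 * A + 16) * (1 + β * MM f g a b + QQ f g a b) := by
    set l : ℤ := ⌈f a + δ⌉ with hl
    set r : ℤ := ⌊g a - δ⌋ with hr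
    have l1 : f a + δ ≤ l := Int.le_ceil _
    have l2 : (l:ℝ) < f a + δ + 1 := Int.ceil_lt_add_one _
    have r1 : (r:ℝ) ≤ g a - δ := Int.floor_le _
    have r2 : g a - δ < r + 1 := Int.lt_floor_add_one _
    have hrl : w - 2 * δ - 2 ≤ ((r - l : ℤ) : ℝ) := by push_cast; linarith
    have hlr' : (0:ℝ) < ((r - l : ℤ) : ℝ) := by linarith
    have hlr : l < r := by
      have : 0 < r - l := by exact_mod_cast hlr'
      omega
    obtain ⟨N, hN⟩ := Int.eq_ofNat_of_zero_le (show 0 ≤ r - l by omega)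
    have eN : r = l + N := by omega
    have hN1 : 1 ≤ N := by omega
    have h1 := hA l N a b hN1 hab
    have h2 : mn (nn f g a b) ≤ mn (rn l r a b) := by
      have L1 := (nn_loc f g a b).mono (Finset.subset_union_left (s₂ := ES (rct_finite l r a b)))
      have L2 := (rn_loc l r a b).mono (Finset.subset_union_right (s₁ := ES (dom_finite f g a b)))
      apply mn_mono L1 L2
      intro ω
      apply nn_le_rn f g l r a b hlr
      · intro y y1 y2
        exact (var f lf y y1 y2).2.trans l1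
      · intro y y1 y2
        exact r1.trans (var g lg y y1 y2).1
    rw [eN] at h2
    have h3 := (abs_le.1 h1).2
    have hNr : w - 2 * δ - 2 ≤ (N:ℝ) := by
      rw [hN] at hrl; exact_mod_cast hrl
    have h4 := piece_aux (A := A) (K := K) (M := MM f g a b) (Q := QQ f g a b) (w := w) (δ := δ)
      (β := β) (N := N) (ν := √3 / 4) s0 s3 hK0 hδ0 hδ hβ0 hβ1 hw hA0 hM1 hQ1 hNr
    linarith
  have lo : √3 / 4 * MM f g a b - (8 * A + 16) * (1 + β * MM f g a b + QQ f g a b) ≤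
      mn (nn f g a b) := by
    set l : ℤ := ⌈f a - δ⌉ - 1 with hl
    set r : ℤ := ⌊g a + δ⌋ + 1 with hr
    have l1 : f a - δ ≤ l + 1 := by
      have : f a - δ ≤ ⌈f a - δ⌉ := Int.le_ceil _
      rw [hl]; push_cast; linarith
    have l2 : (l:ℝ) < f a - δ := by
      have := Int.ceil_lt_add_one (f a - δ)
      rw [hl]; push_cast; linarith
    have r1 : (r:ℝ) ≤ g a + δ + 1 := by
      have := Int.floor_le (g a + δ)
      rw [hr]; push_cast; linarith
    have r2 : g a + δ < r := by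
      have := Int.lt_floor_add_one (g a + δ)
      rw [hr]; push_cast; linarith
    have hrl : ((r - l : ℤ) : ℝ) ≤ w + 2 * δ + 2 := by push_cast; linarith
    have hrl2 : w ≤ ((r - l : ℤ) : ℝ) := by push_cast; linarith
    have hlr' : (0:ℝ) < ((r - l : ℤ) : ℝ) := by linarith
    have hlr : l < r := by
      have : 0 < r - l := by exact_mod_cast hlr'
      omega
    obtain ⟨N, hN⟩ := Int.eq_ofNat_of_zero_le (show 0 ≤ r - l by omega)
    have eN : r = l + N := by omega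
    have hN1 : 1 ≤ N := by omega
    have h1 := hA l N a b hN1 hab
    have h2 : mn (rn l r a b) ≤ mn (nn f g a b) := by
      have L1 := (nn_loc f g a b).mono (Finset.subset_union_left (s₂ := ES (rct_finite l r a b)))
      have L2 := (rn_loc l r a b).mono (Finset.subset_union_right (s₁ := ES (dom_finite f g a b)))
      apply mn_mono L2 L1
      intro ω
      apply rn_le_nn hs l r a b
      · intro y y1 y2
        exact l2.trans_le (var f lf y (by omega) (by omega)).1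
      · intro y y1 y2
        exact (var g lg y (by omega) (by omega)).2.trans_lt r2
    rw [eN] at h2
    have h3 := (abs_le.1 h1).1
    have hNr : (N:ℝ) ≤ w + 2 * δ + 2 := by
      rw [hN] at hrl; exact_mod_cast hrl
    have hNr2 : w ≤ (N:ℝ) := by
      rw [hN] at hrl2; exact_mod_cast hrl2
    have h4 := piece_aux2 (A := A) (K := K) (M := MM f g a b) (Q := QQ f g a b) (w := w) (δ := δ)
      (β := β) (N := N) (ν := √3 / 4) s0 s3 hK0 hδ0 hδ hβ0 hβ1 hw hA0 hM1 hQ1 hM2 hNr2 hNr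
    linarith
  rw [abs_le]
  constructor <;> linarith

end Pool.Agent.TH601.SV
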