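import Pool.Agent.TH601.SV.Cut

/-! Functions of finitely many edges: moments, variance, independence. -/

namespace Pool.Agent.TH601.SV

open Pool.Agent.H988R2.Perc Pool.Agent.H980R2.Cross Pool.Agent.H980R2.Unif Finset Filter Topology
  MeasureTheory

/-- `f` depends only on the edges of `S` -/
def Loc (S : Finset H974.Edg) (f : Conf → ℝ) : Prop :=
  ∀ ω ω' : Conf, (∀ e : Edge, (e.1, e.2.1, !e.2.2) ∈ S → ω e = ω' e) → f ω = f ω'

theorem Loc.int {S : Finset H974.Edg} {f : Conf → ℝ} (h : Loc S f) : Integrable f perc :=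
  (ex_eq S f h).2

theorem Loc.mono {S T : Finset H974.Edg} {f : Conf → ℝ} (h : Loc S f) (hST : S ⊆ T) : Loc T f :=
  fun ω ω' hh => h ω ω' (fun e he => hh e (hST he))

theorem Loc.add {S : Finset H974.Edg} {f g : Conf → ℝ} (hf : Loc S f) (hg : Loc S g) :
    Loc S (fun ω => f ω + g ω) := fun ω ω' h => by
  simp only [hf ω ω' h, hg ω ω' h]

theorem Loc.sub {S : Finset H974.Edg} {f g : Conf → ℝ} (hf : Loc S f) (hg : Loc S g) :
    Loc S (fun ω => f ω - g ω) := fun ω ω' h => by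
  simp only [hf ω ω' h, hg ω ω' h]

theorem Loc.mul {S : Finset H974.Edg} {f g : Conf → ℝ} (hf : Loc S f) (hg : Loc S g) :
    Loc S (fun ω => f ω * g ω) := fun ω ω' h => by
  simp only [hf ω ω' h, hg ω ω' h]

theorem Loc.sq {S : Finset H974.Edg} {f : Conf → ℝ} (hf : Loc S f) :
    Loc S (fun ω => f ω ^ 2) := fun ω ω' h => by
  simp only [hf ω ω' h]

theorem Loc.const (S : Finset H974.Edg) (c : ℝ) : Loc S (fun _ => c) := fun _ _ _ => rfl

theorem Loc.subc {S : Finset H974.Edg} {f : Conf → ℝ} (hf : Loc S f) (c : ℝ) :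
    Loc S (fun ω => f ω - c) := hf.sub (Loc.const S c)

theorem Loc.smul {S : Finset H974.Edg} {f : Conf → ℝ} (hf : Loc S f) (c : ℝ) :
    Loc S (fun ω => c * f ω) := (Loc.const S c).mul hf

theorem Loc.cf_inter {U S : Finset H974.Edg} {f : Conf → ℝ} (hf : Loc S f) (F : Finset H974.Edg)
    (_hF : F ⊆ U) : f (cf F) = f (cf (F ∩ S)) := by
  apply hf
  intro e he
  unfold cf
  simp only [Finset.mem_inter, he, and_true]

/-- independence -/
theorem Loc.indep {S T : Finset H974.Edg} {f g : Conf → ℝ} (hf : Loc S f) (hg : Loc T g)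
    (hd : Disjoint S T) :
    ∫ ω, f ω * g ω ∂perc = (∫ ω, f ω ∂perc) * ∫ ω, g ω ∂perc := by
  classical
  have hf' := hf.mono (Finset.subset_union_left (s₁ := S) (s₂ := T))
  have hg' := hg.mono (Finset.subset_union_right (s₁ := S) (s₂ := T))
  rw [(ex_eq _ _ (hf'.mul hg')).1, (ex_eq _ _ hf').1, (ex_eq _ _ hg').1]
  exact H974.Ex_mul_indep (U := S ∪ T) (S := S) (T := T) Finset.subset_union_left
    Finset.subset_union_right hd (f := fun F => f (cf F)) (g := fun F => g (cf F))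
    (fun F hF => hf.cf_inter F hF) (fun F hF => hg.cf_inter F hF)

/-- the mean -/
noncomputable def mn (f : Conf → ℝ) : ℝ := ∫ ω, f ω ∂perc

/-- the variance -/
noncomputable def vr (f : Conf → ℝ) : ℝ := ∫ ω, (f ω - mn f) ^ 2 ∂perc

theorem vr_nonneg (f : Conf → ℝ) : 0 ≤ vr f := integral_nonneg (fun _ => sq_nonneg _)

theorem mn_add {S : Finset H974.Edg} {f g : Conf → ℝ} (hf : Loc S f) (hg : Loc S g) :
    mn (fun ω => f ω + g ω) = mn f + mn g := integral_add hf.int hg.int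

theorem mn_sub {S : Finset H974.Edg} {f g : Conf → ℝ} (hf : Loc S f) (hg : Loc S g) :
    mn (fun ω => f ω - g ω) = mn f - mn g := integral_sub hf.int hg.int

theorem mn_const (c : ℝ) : mn (fun _ => c) = c := by
  unfold mn; simp

theorem mn_smul (c : ℝ) (f : Conf → ℝ) : mn (fun ω => c * f ω) = c * mn f := by
  unfold mn; exact integral_const_mul c f

theorem mn_mono {S : Finset H974.Edg} {f g : Conf → ℝ} (hf : Loc S f) (hg : Loc S g)
    (h : ∀ ω, f ω ≤ g ω) : mn f ≤ mn g := integral_mono hf.int hg.int h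

theorem mn_sq_sub {S : Finset H974.Edg} {f : Conf → ℝ} (hf : Loc S f) (c : ℝ) :
    mn (fun ω => (f ω - c) ^ 2) = mn (fun ω => f ω ^ 2) - 2 * c * mn f + c ^ 2 := by
  have e : (fun ω => (f ω - c) ^ 2) = fun ω => (f ω ^ 2 - (2 * c) * f ω) + c ^ 2 := by
    funext ω; ring
  rw [e, mn_add (S := S) ((hf.sq).sub (hf.smul _)) (Loc.const S _),
    mn_sub (S := S) hf.sq (hf.smul _), mn_smul, mn_const]

theorem vr_eq {S : Finset H974.Edg} {f : Conf → ℝ} (hf : Loc S f) :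
    vr f = mn (fun ω => f ω ^ 2) - mn f ^ 2 := by
  have h := mn_sq_sub hf (mn f)
  unfold vr
  unfold mn at h ⊢
  rw [h]; ring

theorem vr_le_sq {S : Finset H974.Edg} {f : Conf → ℝ} (hf : Loc S f) :
    vr f ≤ mn (fun ω => f ω ^ 2) := by
  rw [vr_eq hf]; nlinarith [sq_nonneg (mn f)]

theorem mn_sq_eq {S : Finset H974.Edg} {f : Conf → ℝ} (hf : Loc S f) (c : ℝ) :
    mn (fun ω => (f ω - c) ^ 2) = vr f + (mn f - c) ^ 2 := by
  rw [mn_sq_sub hf, vr_eq hf]; ring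

/-- Cauchy-Schwarz -/
theorem mn_cs {S : Finset H974.Edg} {f g : Conf → ℝ} (hf : Loc S f) (hg : Loc S g) :
    mn (fun ω => f ω * g ω) ^ 2 ≤ mn (fun ω => f ω ^ 2) * mn (fun ω => g ω ^ 2) := by
  have key : ∀ t : ℝ, 0 ≤ mn (fun ω => f ω ^ 2) * (t * t) + (-2 * mn (fun ω => f ω * g ω)) * t +
      mn (fun ω => g ω ^ 2) := by
    intro t
    have e : (fun ω => (t * f ω - g ω) ^ 2) =
        fun ω => ((t * t) * f ω ^ 2 - (2 * t) * (f ω * g ω)) + g ω ^ 2 := by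
      funext ω; ring
    have h0 : 0 ≤ mn (fun ω => (t * f ω - g ω) ^ 2) := integral_nonneg (fun _ => sq_nonneg _)
    rw [e, mn_add (S := S) ((hf.sq.smul _).sub ((hf.mul hg).smul _)) hg.sq,
      mn_sub (S := S) (hf.sq.smul _) ((hf.mul hg).smul _), mn_smul, mn_smul] at h0
    linarith
  have h := discrim_le_zero key
  unfold discrim at h
  nlinarith

/-- Minkowski for the standard deviation -/
theorem vr_add_le {S : Finset H974.Edg} {f g : Conf → ℝ} (hf : Loc S f) (hg : Loc S g) :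
    vr (fun ω => f ω + g ω) ≤ (√(vr f) + √(vr g)) ^ 2 := by
  have hf0 := hf.subc (mn f)
  have hg0 := hg.subc (mn g)
  have e : vr (fun ω => f ω + g ω) =
      vr f + 2 * mn (fun ω => (f ω - mn f) * (g ω - mn g)) + vr g := by
    have e1 : vr (fun ω => f ω + g ω) =
        mn (fun ω => ((f ω - mn f) ^ 2 + 2 * ((f ω - mn f) * (g ω - mn g))) + (g ω - mn g) ^ 2) := by
      unfold vr
      rw [mn_add hf hg]
      unfold mn
      congr 1
      funext ω
      ring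
    rw [e1, mn_add (S := S) (hf0.sq.add ((hf0.mul hg0).smul _)) hg0.sq,
      mn_add (S := S) hf0.sq ((hf0.mul hg0).smul _), mn_smul]
    rfl
  have hcs := mn_cs hf0 hg0
  have hv1 : mn (fun ω => (f ω - mn f) ^ 2) = vr f := rfl
  have hv2 : mn (fun ω => (g ω - mn g) ^ 2) = vr g := rfl
  rw [hv1, hv2] at hcs
  have s1 := Real.sq_sqrt (vr_nonneg f)
  have s2 := Real.sq_sqrt (vr_nonneg g)
  have hb : mn (fun ω => (f ω - mn f) * (g ω - mn g)) ≤ √(vr f) * √(vr g) := by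
    rw [← Real.sqrt_mul (vr_nonneg f)]
    exact (le_abs_self _).trans (Real.abs_le_sqrt hcs)
  rw [e, add_sq, s1, s2]
  linarith

theorem vr_add_indep {S T : Finset H974.Edg} {f g : Conf → ℝ} (hf : Loc S f) (hg : Loc T g)
    (hd : Disjoint S T) : vr (fun ω => f ω + g ω) = vr f + vr g := by
  classical
  have hf' := hf.mono (Finset.subset_union_left (s₁ := S) (s₂ := T))
  have hg' := hg.mono (Finset.subset_union_right (s₁ := S) (s₂ := T))
  rw [vr_eq (hf'.add hg'), vr_eq hf', vr_eq hg', mn_add hf' hg']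
  have e : (fun ω => (f ω + g ω) ^ 2) = fun ω => (f ω ^ 2 + 2 * (f ω * g ω)) + g ω ^ 2 := by
    funext ω; ring
  rw [e, mn_add (S := S ∪ T) (hf'.sq.add ((hf'.mul hg').smul _)) hg'.sq,
    mn_add (S := S ∪ T) hf'.sq ((hf'.mul hg').smul _), mn_smul]
  have h : mn (fun ω => f ω * g ω) = mn f * mn g := hf.indep hg hd
  rw [h]; ring

/-- the second moment of the number of clusters crossing an annulus is bounded -/
theorem annulus_sq : ∃ A : ℝ, 0 ≤ A ∧ ∀ (m : ℕ) (x0 y0 : ℤ) (S : Finset H974.Edg),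
    H974.Ex (fun _ => (1/2 : ℝ)) S
      (fun F => ((H974.NC H974.src H974.tgt (Kb x0 y0 m) (Bb x0 y0 m) (↑F : Set H974.Edg) : ℕ) : ℝ)
        ^ 2) ≤ A := by
  have ok := H974.okq (q := 1/2) (by norm_num) (by norm_num)
  have hpos : (0:ℝ) ≤ 2 / (1 - (1 - (1/2 : ℝ)^188))^2 := by positivity
  refine ⟨2 / (1 - (1 - (1/2 : ℝ)^188))^2 + 81 ^ 2, by positivity, fun m x0 y0 S => ?_⟩
  rcases Nat.lt_or_ge m 5 with hm | hm
  · have h1 : H974.Ex (fun _ => (1/2 : ℝ)) S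
      (fun F => ((H974.NC H974.src H974.tgt (Kb x0 y0 m) (Bb x0 y0 m) (↑F : Set H974.Edg) : ℕ) : ℝ)
        ^ 2) ≤ 81 ^ 2 := by
      apply H974.Ex_le_of_le ok
      intro F _
      have h2 := H974.NC_le H974.src H974.tgt (Kb x0 y0 m) (Bb x0 y0 m) (↑F : Set H974.Edg)
      rw [u4_card_Kb] at h2
      have h3 : (2 * m + 1) ^ 2 ≤ 81 := by
        have : 2 * m + 1 ≤ 9 := by omega
        calc (2 * m + 1) ^ 2 ≤ 9 ^ 2 := Nat.pow_le_pow_left this 2
          _ = 81 := by norm_num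
      have h4 : ((H974.NC H974.src H974.tgt (Kb x0 y0 m) (Bb x0 y0 m)
          (↑F : Set H974.Edg) : ℕ) : ℝ) ≤ 81 := by exact_mod_cast h2.trans h3
      exact pow_le_pow_left₀ (Nat.cast_nonneg _) h4 2
    linarith
  · have h1 := H974.NC_sq ok S H974.src H974.tgt (Kb x0 y0 m) (Bb x0 y0 m)
      (lam := 1 - (1/2 : ℝ)^188) (by
        have : (0:ℝ) < (1/2 : ℝ)^188 := by positivity
        linarith) (u4_prob hm x0 y0 S)
    have : (0:ℝ) ≤ 81 ^ 2 := by norm_num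
    linarith

/-- second moment of a count controlled by `J` annuli -/
theorem moment_le : ∃ A : ℝ, 0 ≤ A ∧ ∀ (S : Set (ℤ × ℤ)) (hS : S.Finite) (m J : ℕ)
    (ctr : ℕ → ℤ × ℤ) (D : Conf → Set (Set (ℤ × ℤ)))
    (_hloc : Loc (CC.ES hS) (fun ω => ((D ω).ncard : ℝ)))
    (_h : ∀ F ⊆ CC.ES hS, ∀ C ∈ D (cf F), ∃ a, C = cluO S (cf F) a ∧ ∃ x ∈ C,
      (∃ j < J, x ∈ Kb (ctr j).1 (ctr j).2 m) ∧
      ∃ z ∈ C, 4 * (m:ℤ) ≤ |z.1 - x.1| ∨ 4 * (m:ℤ) ≤ |z.2 - x.2|),
    mn (fun ω => ((D ω).ncard : ℝ) ^ 2) ≤ A * (J:ℝ) ^ 2 := by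
  obtain ⟨A, hA0, hA⟩ := annulus_sq
  have ok := H974.okq (q := 1/2) (by norm_num) (by norm_num)
  refine ⟨A, hA0, fun S hS m J ctr D hloc h => ?_⟩
  unfold mn
  rw [(ex_eq _ _ hloc.sq).1]
  refine (H974.Ex_mono ok (g := fun F => ∑ j ∈ range J, (J:ℝ) *
    ((H974.NC H974.src H974.tgt (Kb (ctr j).1 (ctr j).2 m) (Bb (ctr j).1 (ctr j).2 m)
        (↑F : Set H974.Edg) : ℕ) : ℝ) ^ 2) ?_).trans ?_
  · intro F hF
    have h1 := count_le hS hF m J ctr (D (cf F)) (h F hF)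
    have h2 : ((D (cf F)).ncard : ℝ) ≤ ∑ j ∈ range J,
      ((H974.NC H974.src H974.tgt (Kb (ctr j).1 (ctr j).2 m) (Bb (ctr j).1 (ctr j).2 m)
        (↑F : Set H974.Edg) : ℕ) : ℝ) := by exact_mod_cast h1
    have h3 := sq_sum_le_card_mul_sum_sq (s := range J) (f := fun j =>
      ((H974.NC H974.src H974.tgt (Kb (ctr j).1 (ctr j).2 m) (Bb (ctr j).1 (ctr j).2 m)
        (↑F : Set H974.Edg) : ℕ) : ℝ))
    rw [Finset.card_range] at h3
    rw [← Finset.mul_sum]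
    exact (pow_le_pow_left₀ (Nat.cast_nonneg _) h2 2).trans h3
  · rw [H974.Ex_sum]
    have h4 : ∀ j ∈ range J, H974.Ex (fun _ => (1/2 : ℝ)) (CC.ES hS) (fun F => (J:ℝ) *
      ((H974.NC H974.src H974.tgt (Kb (ctr j).1 (ctr j).2 m) (Bb (ctr j).1 (ctr j).2 m)
        (↑F : Set H974.Edg) : ℕ) : ℝ) ^ 2) ≤ (J:ℝ) * A := by
      intro j _
      rw [H974.Ex_mul_left]
      exact mul_le_mul_of_nonneg_left (hA _ _ _ _) (Nat.cast_nonneg _)
    refine (Finset.sum_le_sum h4).trans ?_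
    rw [Finset.sum_const, Finset.card_range, nsmul_eq_mul]
    nlinarith

end Pool.Agent.TH601.SV
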