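import Pool.Agent.TH601.SV.CutM
import Pool.Agent.TH601.CC.Unif4

/-! Comparison of a slowly varying piece with rectangles. -/

namespace Pool.Agent.TH601.SV

open Pool.Agent.H988R2.Perc Pool.Agent.H980R2.Cross Pool.Agent.H980R2.Unif Finset Filter Topology
  MeasureTheory
open Pool.Agent.TH601.CC (OpenAdj.symm' OpenAdj.sum OpenAdj.diff cluO_self cluO_sub cluO_symm
  cluO_trans cluO_eq cluO_mono cluO_sep clu_side ES mem_ES step_congr cluO_congr cluO_cf
  perc_reindex eb cut_mean eb_tr ec_eb ec_cardy eb_ex BoxO_finite)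

theorem crG_le {S L R S' L' R' : Set (ℤ × ℤ)} (hS' : S'.Finite) (ω : Conf)
    (h : ∀ C ∈ crG S L R ω, ∃ C' ∈ crG S' L' R' ω, C' ⊆ C) :
    (crG S L R ω).ncard ≤ (crG S' L' R' ω).ncard := by
  classical
  set φ : Set (ℤ × ℤ) → Set (ℤ × ℤ) := fun C =>
    if hC : C ∈ crG S L R ω then (h C hC).choose else ∅ with hφ
  have hspec : ∀ C (hC : C ∈ crG S L R ω), φ C ∈ crG S' L' R' ω ∧ φ C ⊆ C := by
    intro C hC
    simp only [hφ, hC, dite_true]
    exact (h C hC).choose_spec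
  apply Set.ncard_le_ncard_of_injOn φ (fun C hC => (hspec C hC).1) _ (crG_finite hS' L' R' ω)
  intro C1 h1 C2 h2 he
  obtain ⟨⟨x, hx, -, e, -⟩, s1⟩ := hspec C1 h1
  obtain ⟨-, s2⟩ := hspec C2 h2
  have hx1 : x ∈ φ C1 := by rw [e]; exact cluO_self _ _ _
  have hx2 : x ∈ φ C2 := by rw [← he]; exact hx1
  obtain ⟨a1, -, -, rfl, -⟩ := h1
  obtain ⟨a2, -, -, rfl, -⟩ := h2
  rw [← cluO_eq (s1 hx1), ← cluO_eq (s2 hx2)]

/-- rectangles -/
def rct (l r a b : ℤ) : Set (ℤ × ℤ) :=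
  {x | a ≤ x.1 + x.2 ∧ x.1 + x.2 ≤ b ∧ l ≤ x.1 - x.2 ∧ x.1 - x.2 ≤ r}

/-- columns -/
def colm (l : ℤ) : Set (ℤ × ℤ) := {x | x.1 - x.2 = l}

theorem rct_finite (l r a b : ℤ) : (rct l r a b).Finite := by
  apply Set.Finite.subset (dom_finite (fun _ => (l:ℝ)) (fun _ => (r:ℝ)) a b)
  rintro x ⟨h1, h2, h3, h4⟩
  refine ⟨h1, h2, ?_, ?_⟩
  · show (l:ℝ) ≤ ((x.1 - x.2 : ℤ) : ℝ)
    exact_mod_cast h3
  · show ((x.1 - x.2 : ℤ) : ℝ) ≤ (r:ℝ)
    exact_mod_cast h4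

/-- number of crossing clusters of a rectangle -/
noncomputable def rn (l r a b : ℤ) (ω : Conf) : ℝ :=
  ((crG (rct l r a b) (colm l) (colm r) ω).ncard : ℝ)

theorem rn_loc (l r a b : ℤ) : Loc (ES (rct_finite l r a b)) (rn l r a b) := by
  intro ω ω' h
  unfold rn
  rw [crG_congr (rct_finite l r a b) _ _ h]

/-! ### upper bound -/

theorem nn_le_rn (f g : ℤ → ℝ) (l r a b : ℤ) (hlr : l < r)
    (hf : ∀ y, a - 1 ≤ y → y ≤ b + 1 → f y ≤ l) (hg : ∀ y, a - 1 ≤ y → y ≤ b + 1 → (r:ℝ) ≤ g y)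
    (ω : Conf) : nn f g a b ω ≤ rn l r a b ω := by
  unfold nn rn
  apply Nat.cast_le.2
  apply crG_le (rct_finite l r a b) ω
  rintro C ⟨p, hp, hpL, rfl, q, hq, hqR⟩
  have hTS : rct l r a b ⊆ dom f g a b := by
    rintro x ⟨h1, h2, h3, h4⟩
    refine ⟨h1, h2, (hf _ (by omega) (by omega)).trans ?_, le_trans ?_ (hg _ (by omega) (by omega))⟩
    · exact_mod_cast h3
    · exact_mod_cast h4
  have hpl : p.1 - p.2 ≤ l := by
    obtain ⟨z, hz, hz2⟩ := hpL
    obtain ⟨c1, c2⟩ := nbr_cases hz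
    obtain ⟨k1, k2, -, -⟩ := hp
    have h3 := hz2.trans_le (hf (z.1 + z.2) (by omega) (by omega))
    have h4 : z.1 - z.2 < l := by exact_mod_cast h3
    omega
  have hqr : r ≤ q.1 - q.2 := by
    obtain ⟨z, hz, hz2⟩ := hqR
    obtain ⟨c1, c2⟩ := nbr_cases hz
    obtain ⟨k1, k2, -, -⟩ := cluO_sub hp hq
    have h3 := (hg (z.1 + z.2) (by omega) (by omega)).trans_lt hz2
    have h4 : r < z.1 - z.2 := by exact_mod_cast h3
    omega
  set S := dom f g a b with hS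
  set T := rct l r a b with hT
  have key : ∀ z ∈ cluO S ω p,
      (∃ x ∈ cluO S ω p, x ∈ T ∧ x.1 - x.2 = l ∧ ∃ y ∈ cluO T ω x, y.1 - y.2 = r) ∨
      z.1 - z.2 < l ∨ (∃ x ∈ cluO S ω p, x ∈ T ∧ x.1 - x.2 = l ∧ z ∈ cluO T ω x) := by
    intro z hz
    have h' : Relation.ReflTransGen (fun x y => OpenAdj ω x y ∧ x ∈ S ∧ y ∈ S) p z := hz
    induction h' with
    | refl =>
      rcases lt_or_eq_of_le hpl with h | h
      · exact Or.inr (Or.inl h)
      · refine Or.inr (Or.inr ⟨p, hz, ⟨hp.1, hp.2.1, h.ge, by omega⟩, h, cluO_self _ _ _⟩)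
    | @tail y z hpy hs ih =>
      have hz2 := hs.2.2
      have hd := OpenAdj.diff hs.1
      rcases ih hpy with h | h | ⟨x, hx, hxT, hxl, hyx⟩
      · exact Or.inl h
      · rcases lt_or_ge (z.1 - z.2) l with h2 | h2
        · exact Or.inr (Or.inl h2)
        · refine Or.inr (Or.inr ⟨z, hz, ⟨hz2.1, hz2.2.1, h2, by omega⟩, by omega, cluO_self _ _ _⟩)
      · have hyT : y ∈ T := cluO_sub hxT hyx
        by_cases hzT : z ∈ T
        · refine Or.inr (Or.inr ⟨x, hx, hxT, hxl, ?_⟩)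
          exact Relation.ReflTransGen.tail (show Relation.ReflTransGen _ x y from hyx)
            ⟨hs.1, hyT, hzT⟩
        · rcases lt_or_ge (z.1 - z.2) l with h2 | h2
          · exact Or.inr (Or.inl h2)
          · left
            have h3 : ¬ (z.1 - z.2 ≤ r) := fun hh => hzT ⟨hz2.1, hz2.2.1, h2, hh⟩
            have h4 := hyT.2.2.2
            exact ⟨x, hx, hxT, hxl, y, hyx, by omega⟩
  have hdone : ∃ x ∈ cluO S ω p, x ∈ T ∧ x.1 - x.2 = l ∧ ∃ y ∈ cluO T ω x, y.1 - y.2 = r := by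
    rcases key q hq with h | h | ⟨x, hx, hxT, hxl, hyx⟩
    · exact h
    · omega
    · have := (cluO_sub hxT hyx).2.2.2
      exact ⟨x, hx, hxT, hxl, q, hyx, by omega⟩
  obtain ⟨x, hx, hxT, hxl, y, hy, hyr⟩ := hdone
  refine ⟨cluO T ω x, ⟨x, hxT, hxl, rfl, y, hy, hyr⟩, ?_⟩
  rw [← cluO_eq hx]
  exact cluO_mono hTS ω x

/-! ### lower bound -/

theorem rn_le_nn {α : ℝ} {f g : ℤ → ℝ} (hs : Slow α f g) (l r a b : ℤ)
    (hf : ∀ y, a ≤ y → y ≤ b → (l:ℝ) < f y) (hg : ∀ y, a ≤ y → y ≤ b → g y < r)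
    (ω : Conf) : rn l r a b ω ≤ nn f g a b ω := by
  unfold nn rn
  apply Nat.cast_le.2
  apply crG_le (dom_finite f g a b) ω
  rintro C ⟨p, hp, hpL, rfl, q, hq, hqR⟩
  have hTS : dom f g a b ⊆ rct l r a b := by
    rintro x ⟨h1, h2, h3, h4⟩
    refine ⟨h1, h2, ?_, ?_⟩
    · have := ((hf _ h1 h2).trans_le h3).le
      exact_mod_cast this
    · have := (h4.trans_lt (hg _ h1 h2)).le
      exact_mod_cast this
  set S := dom f g a b with hS
  set T := rct l r a b with hT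
  have key : ∀ z ∈ cluO T ω p,
      (∃ x ∈ cluO T ω p, x ∈ S ∧ x ∈ lft f ∧ ∃ y ∈ cluO S ω x, y ∈ rgt g) ∨
      ((z.1 - z.2 : ℤ) : ℝ) < f (z.1 + z.2) ∨
      (∃ x ∈ cluO T ω p, x ∈ S ∧ x ∈ lft f ∧ z ∈ cluO S ω x) := by
    intro z hz
    have h' : Relation.ReflTransGen (fun x y => OpenAdj ω x y ∧ x ∈ T ∧ y ∈ T) p z := hz
    induction h' with
    | refl =>
      right; left
      have h1 : p.1 - p.2 = l := hpL
      rw [h1]
      exact hf _ hp.1 hp.2.1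
    | @tail y z hpy hs' ih =>
      have hz2 := hs'.2.2
      have hd := OpenAdj.diff hs'.1
      have hsum := OpenAdj.sum hs'.1
      have hnb := nbr_of hs'.1
      rcases ih hpy with h | h | ⟨x, hx, hxS, hxl, hyx⟩
      · exact Or.inl h
      · rcases lt_or_ge ((z.1 - z.2 : ℤ) : ℝ) (f (z.1 + z.2)) with h2 | h2
        · exact Or.inr (Or.inl h2)
        · refine Or.inr (Or.inr ⟨z, hz, ⟨hz2.1, hz2.2.1, h2, ?_⟩, ⟨y, nbr_symm hnb, h⟩,
            cluO_self _ _ _⟩)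
          have h3 := lip hs.lf (z.1 + z.2) (y.1 + y.2)
          have h4 : |((y.1 + y.2 - (z.1 + z.2) : ℤ) : ℝ)| = 1 := by
            rcases hsum with h1 | h1
            · have : y.1 + y.2 - (z.1 + z.2) = -1 := by omega
              rw [this]; simp
            · have : y.1 + y.2 - (z.1 + z.2) = 1 := by omega
              rw [this]; simp
          rw [h4, mul_one, abs_le] at h3
          have h5 : ((z.1 - z.2 : ℤ) : ℝ) ≤ ((y.1 - y.2 : ℤ) : ℝ) + 1 := by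
            have : z.1 - z.2 ≤ y.1 - y.2 + 1 := by omega
            exact_mod_cast this
          have h6 := hs.w (z.1 + z.2)
          have h7 := hs.h1
          linarith
      · have hyS : y ∈ S := cluO_sub hxS hyx
        by_cases hzS : z ∈ S
        · refine Or.inr (Or.inr ⟨x, hx, hxS, hxl, ?_⟩)
          exact Relation.ReflTransGen.tail (show Relation.ReflTransGen _ x y from hyx)
            ⟨hs'.1, hyS, hzS⟩
        · rcases lt_or_ge ((z.1 - z.2 : ℤ) : ℝ) (f (z.1 + z.2)) with h2 | h2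
          · exact Or.inr (Or.inl h2)
          · left
            have h3 : ¬ (((z.1 - z.2 : ℤ) : ℝ) ≤ g (z.1 + z.2)) :=
              fun hh => hzS ⟨hz2.1, hz2.2.1, h2, hh⟩
            exact ⟨x, hx, hxS, hxl, y, hyx, z, hnb, not_le.1 h3⟩
  have hdone : ∃ x ∈ cluO T ω p, x ∈ S ∧ x ∈ lft f ∧ ∃ y ∈ cluO S ω x, y ∈ rgt g := by
    have hqT := cluO_sub hp hq
    have hqr : q.1 - q.2 = r := hqR
    have h1 := hg _ hqT.1 hqT.2.1
    rcases key q hq with h | h | ⟨x, hx, hxS, hxl, hyx⟩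
    · exact h
    · rw [hqr] at h
      have h6 := hs.w (q.1 + q.2)
      linarith
    · have h2 := (cluO_sub hxS hyx).2.2.2
      rw [hqr] at h2
      linarith
  obtain ⟨x, hx, hxS, hxl, y, hy, hyr⟩ := hdone
  refine ⟨cluO S ω x, ⟨x, hxS, hxl, rfl, y, hy, hyr⟩, ?_⟩
  rw [← cluO_eq hx]
  exact cluO_mono hTS ω x

/-! ### translations -/

/-- translation of the edges -/
def trE2 (s t : ℤ) : Edge ≃ Edge where
  toFun e := (e.1 + s, e.2.1 + t, e.2.2)
  invFun e := (e.1 - s, e.2.1 - t, e.2.2)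
  left_inv e := by simp
  right_inv e := by simp

/-- translation of the vertices -/
def trV2 (s t : ℤ) : (ℤ × ℤ) ≃ (ℤ × ℤ) where
  toFun e := (e.1 + s, e.2 + t)
  invFun e := (e.1 - s, e.2 - t)
  left_inv e := by simp
  right_inv e := by simp

theorem openAdj_tr2 (s t : ℤ) (ω : Conf) (x y : ℤ × ℤ) :
    OpenAdj ω (trV2 s t x) (trV2 s t y) ↔ OpenAdj (fun i => ω (trE2 s t i)) x y := by
  obtain ⟨x1, x2⟩ := x
  obtain ⟨y1, y2⟩ := y
  unfold OpenAdj trV2 trE2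
  simp only [Equiv.coe_fn_mk, Prod.mk.injEq]
  have e1 : ∀ a b k : ℤ, (a + k = b + k + 1 ↔ a = b + 1) := by intro a b k; omega
  have e2 : ∀ a b k : ℤ, (a + k = b + k ↔ a = b) := by intro a b k; omega
  simp only [e1, e2]

theorem cluO_tr2 (s t : ℤ) (S : Set (ℤ × ℤ)) (ω : Conf) (a : ℤ × ℤ) :
    cluO (trV2 s t '' S) ω (trV2 s t a) = trV2 s t '' cluO S (fun i => ω (trE2 s t i)) a := by
  ext b
  constructor
  · intro h
    have h' : Relation.ReflTransGen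
      (fun x y => OpenAdj ω x y ∧ x ∈ trV2 s t '' S ∧ y ∈ trV2 s t '' S) (trV2 s t a) b := h
    induction h' with
    | refl => exact ⟨a, cluO_self _ _ _, rfl⟩
    | @tail y z hp hs ih =>
      obtain ⟨y', hy', rfl⟩ := ih hp
      obtain ⟨h1, h2, ⟨z', hz', rfl⟩⟩ := hs
      rw [openAdj_tr2] at h1
      have h2' : y' ∈ S := by
        obtain ⟨w, hw, hw2⟩ := h2
        rwa [(trV2 s t).injective hw2] at hw
      exact ⟨z', Relation.ReflTransGen.tail (show Relation.ReflTransGen _ a _ from hy')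
        ⟨h1, h2', hz'⟩, rfl⟩
  · rintro ⟨c, hc, rfl⟩
    have h' : Relation.ReflTransGen
      (fun x y => OpenAdj (fun i => ω (trE2 s t i)) x y ∧ x ∈ S ∧ y ∈ S) a c := hc
    show Relation.ReflTransGen
      (fun x y => OpenAdj ω x y ∧ x ∈ trV2 s t '' S ∧ y ∈ trV2 s t '' S) (trV2 s t a) (trV2 s t c)
    induction h' with
    | refl => exact Relation.ReflTransGen.refl
    | @tail y z hp hs ih =>
      refine (ih hp).tail ⟨?_, ⟨y, hs.2.1, rfl⟩, ⟨z, hs.2.2, rfl⟩⟩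
      rw [openAdj_tr2]
      exact hs.1

theorem crG_tr (l r a b s : ℤ) (ω : Conf) :
    crG (rct (l + s) (r + s) (a + s) (b + s)) (colm (l + s)) (colm (r + s)) ω =
      (fun C => trV2 s 0 '' C) '' crG (rct l r a b) (colm l) (colm r)
        (fun i => ω (trE2 s 0 i)) := by
  have eR : rct (l + s) (r + s) (a + s) (b + s) = trV2 s 0 '' rct l r a b := by
    ext ⟨x, y⟩
    constructor
    · rintro ⟨h1, h2, h3, h4⟩
      simp only at h1 h2 h3 h4
      refine ⟨(x - s, y), ⟨?_, ?_, ?_, ?_⟩, ?_⟩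
      · simp only; linarith
      · simp only; linarith
      · simp only; linarith
      · simp only; linarith
      · simp only [trV2, Equiv.coe_fn_mk, sub_add_cancel, add_zero]
    · rintro ⟨⟨x', y'⟩, ⟨h1, h2, h3, h4⟩, e⟩
      simp only [trV2, Equiv.coe_fn_mk, Prod.mk.injEq] at h1 h2 h3 h4 e
      obtain ⟨rfl, rfl⟩ := e
      refine ⟨?_, ?_, ?_, ?_⟩ <;> simp only <;> linarith
  rw [eR]
  ext C
  constructor
  · rintro ⟨p, ⟨p', hp', rfl⟩, h0, rfl, q, hq, hqN⟩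
    rw [cluO_tr2] at hq ⊢
    obtain ⟨q', hq', rfl⟩ := hq
    refine ⟨_, ⟨p', hp', ?_, rfl, q', hq', ?_⟩, rfl⟩
    · simp only [colm, trV2, Equiv.coe_fn_mk, Set.mem_ofPred_eq] at h0 ⊢; linarith
    · simp only [colm, trV2, Equiv.coe_fn_mk, Set.mem_ofPred_eq] at hqN ⊢; linarith
  · rintro ⟨C', ⟨p, hp, h0, rfl, q, hq, hqN⟩, rfl⟩
    simp only
    rw [← cluO_tr2]
    refine ⟨trV2 s 0 p, ⟨p, hp, rfl⟩, ?_, rfl, trV2 s 0 q, ?_, ?_⟩
    · simp only [colm, trV2, Equiv.coe_fn_mk, Set.mem_ofPred_eq] at h0 ⊢; linarith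
    · rw [cluO_tr2]; exact ⟨q, hq, rfl⟩
    · simp only [colm, trV2, Equiv.coe_fn_mk, Set.mem_ofPred_eq] at hqN ⊢; linarith

theorem mn_rn_tr (l r a b s : ℤ) : mn (rn (l + s) (r + s) (a + s) (b + s)) = mn (rn l r a b) := by
  unfold mn
  rw [← perc_reindex (trE2 s 0) (rn l r a b)]
  congr 1
  funext ω
  unfold rn
  rw [crG_tr, Set.ncard_image_of_injective _ (Set.image_injective.2 (trV2 s 0).injective)]

theorem rn_box (N : ℕ) (a b : ℤ) (ω : Conf) :
    rn 0 N a b ω = ((crossO N (BoxO N a b) ω).ncard : ℝ) := by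
  unfold rn
  have e : rct 0 N a b = BoxO N a b := by
    ext x
    constructor
    · rintro ⟨h1, h2, h3, h4⟩; exact ⟨h3, h4, h1, h2⟩
    · rintro ⟨h1, h2, h3, h4⟩; exact ⟨h3, h4, h1, h2⟩
  rw [e]
  rfl

theorem mn_rn (l : ℤ) (N : ℕ) (a b : ℤ) : mn (rn l (l + N) a b) = eb N (a - l) (b - l) := by
  have h := mn_rn_tr 0 N (a - l) (b - l) l
  rw [zero_add, sub_add_cancel, sub_add_cancel, add_comm (N:ℤ) l] at h
  rw [h]
  unfold mn eb
  simp only [rn_box]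

/-- mean number of crossing clusters of a rectangle, any position -/
theorem rect_mean : ∃ A : ℝ, 0 ≤ A ∧ ∀ (l : ℤ) (N : ℕ) (a b : ℤ), 1 ≤ N → a ≤ b →
    |mn (rn l (l + N) a b) - √3 / 4 * (((b - a : ℤ) : ℝ) / N)| ≤
      A * (1 + ((b - a : ℤ) : ℝ) / (N:ℝ) ^ 2) := by
  obtain ⟨A, hA0, hA⟩ := ec_cardy
  obtain ⟨B, hB0, hB⟩ := cut_mean
  have s3 : √3 / 4 ≤ 1 := by
    have : √3 ≤ 2 := Real.sqrt_le_iff.2 ⟨by norm_num, by norm_num⟩
    linarith
  have s0 : 0 ≤ √3 / 4 := by positivity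
  refine ⟨4 * A + B + 1, by positivity, fun l N a b hN hab => ?_⟩
  rw [mn_rn]
  obtain ⟨K, hK⟩ := Int.eq_ofNat_of_zero_le (sub_nonneg.2 hab)
  have hN1 : (1:ℝ) ≤ N := by exact_mod_cast hN
  have hNpos : (0:ℝ) < N := by linarith
  rw [hK]
  have eb' : b - l = (a - l) + K := by omega
  rw [eb']
  set a' := a - l with ha'
  have hKc : (((K:ℕ) : ℤ) : ℝ) = (K:ℝ) := by norm_cast
  simp only [hKc]
  have hK0 : (0:ℝ) ≤ K := Nat.cast_nonneg K
  have hKN : 0 ≤ (K:ℝ) / (N:ℝ) ^ 2 := by positivity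
  rcases Int.even_or_odd' a' with ⟨k, hk | hk⟩
  · -- even start
    have h1 := hB N (a' - 1) a' (a' + K) (by omega) (by omega)
    have e1 : eb N (a' - 1) (a' + K) = CC.ec N (K + 1) := by
      rw [ec_eb]
      have := eb_tr N 1 (((K+1 : ℕ) : ℤ) + 1) (k - 1)
      rw [← this]
      congr 1
      · omega
      · push_cast; omega
    have e2 : eb N (a' - 1) a' = CC.ec N 1 := by
      rw [ec_eb]
      have := eb_tr N 1 (((1 : ℕ) : ℤ) + 1) (k - 1)
      rw [← this]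
      congr 1
      · omega
      · push_cast; omega
    have h2 := hA N (K+1) hN
    have h3 := hA N 1 hN
    rw [e1, e2] at h1
    push_cast at h2 h3
    have i1 : (1:ℝ) / (N:ℝ) ≤ 1 := by
      rw [div_le_one hNpos]; exact hN1
    have i2 : (1:ℝ) / (N:ℝ) ^ 2 ≤ 1 := by
      rw [div_le_one (by positivity)]; nlinarith
    have i3 : ((K:ℝ) + 1) / N = K / N + 1 / N := by ring
    have i4 : ((K:ℝ) + 1) / (N:ℝ)^2 = K / (N:ℝ)^2 + 1 / (N:ℝ)^2 := by ring
    have i5 : 0 ≤ (1:ℝ) / N := by positivity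
    rw [i3, i4] at h2
    have j1 : A * (1 + (K / (N:ℝ)^2 + 1 / (N:ℝ)^2)) ≤ A * (2 + K / (N:ℝ)^2) := by
      apply mul_le_mul_of_nonneg_left _ hA0; linarith
    have j2 : A * (1 + 1 / (N:ℝ)^2) ≤ A * 2 := by
      apply mul_le_mul_of_nonneg_left _ hA0; linarith
    have j3 : √3 / 4 * (1 / (N:ℝ)) ≤ 1 := by nlinarith
    have j4 : 0 ≤ √3 / 4 * (1 / (N:ℝ)) := by positivity
    have h2' := abs_le.1 (h2.trans j1)
    have h3' := abs_le.1 (h3.trans j2)
    have h1' := abs_le.1 h1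
    have j5 : 0 ≤ A * (K / (N:ℝ)^2) := by positivity
    have j6 : 0 ≤ (B+1) * (K / (N:ℝ)^2) := by positivity
    rw [mul_add] at h2'
    rw [abs_le]
    constructor <;> nlinarith [h2'.1, h2'.2, h3'.1, h3'.2, h1'.1, h1'.2]
  · have e1 : eb N a' (a' + K) = CC.ec N K := by
      rw [ec_eb]
      have := eb_tr N 1 ((K : ℤ) + 1) k
      rw [← this]
      congr 1
      · omega
      · omega
    rw [e1]
    refine (hA N K hN).trans ?_
    apply mul_le_mul_of_nonneg_right _ (by positivity)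
    linarith

end Pool.Agent.TH601.SV
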