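import Pool.Agent.TH601.SV.MeanI

/-! The variance over a long slowly varying domain; the final estimate. -/

namespace Pool.Agent.TH601.SV

open Pool.Agent.H988R2.Perc Pool.Agent.H980R2.Cross Pool.Agent.H980R2.Unif Finset Filter Topology
  MeasureTheory
open Pool.Agent.TH601.CC (ES mem_ES)

theorem var_alg {x y T D V1 V2 : ℝ} (hD : 1 ≤ D) (hT : 20 * D ≤ T) (hx : (x + y) / 3 ≤ x)
    (hy : (x + y) / 3 ≤ y) (hx1 : 1 ≤ x) (hy1 : 1 ≤ y)
    (h1 : V1 ≤ (T * √x - 5 * D) ^ 2) (h2 : V2 ≤ (T * √y - 5 * D) ^ 2) :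
    (√(V1 + V2) + D) ^ 2 ≤ (T * √(x + y) - 5 * D) ^ 2 := by
  set p := √x with hp
  set q := √y with hq
  set s := √(x + y) with hs
  have hp0 : 0 ≤ p := Real.sqrt_nonneg _
  have hq0 : 0 ≤ q := Real.sqrt_nonneg _
  have hs0 : 0 ≤ s := Real.sqrt_nonneg _
  have hp2 : p ^ 2 = x := Real.sq_sqrt (by linarith)
  have hq2 : q ^ 2 = y := Real.sq_sqrt (by linarith)
  have hs2 : s ^ 2 = x + y := Real.sq_sqrt (by linarith)
  have hs1 : 1 ≤ s := by nlinarith
  -- p q ≥ (7/18) s²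
  have hpq : 7 / 18 * s ^ 2 ≤ p * q := by
    have e1 : (7 / 18 * s ^ 2) ^ 2 ≤ (p * q) ^ 2 := by
      have e2 : (p * q) ^ 2 = x * y := by rw [mul_pow, hp2, hq2]
      rw [e2, hs2]
      nlinarith [mul_nonneg (sub_nonneg.2 hx) (sub_nonneg.2 hy)]
    exact le_of_sq_le_sq e1 (by positivity)
  have hsum : 4 / 3 * s ≤ p + q := by
    have e1 : (4 / 3 * s) ^ 2 ≤ (p + q) ^ 2 := by nlinarith
    exact le_of_sq_le_sq e1 (by positivity)
  have hTs : 20 * D ≤ T * s := by nlinarith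
  have hR : 0 ≤ T * s - 6 * D := by linarith
  have key : V1 + V2 ≤ (T * s - 6 * D) ^ 2 := by
    have e1 : (T * p - 5 * D) ^ 2 + (T * q - 5 * D) ^ 2 ≤ (T * s - 6 * D) ^ 2 := by
      have e2 : T ^ 2 * p ^ 2 + T ^ 2 * q ^ 2 = T ^ 2 * s ^ 2 := by
        rw [← mul_add, hp2, hq2, hs2]
      have e3 : T * D * (4 / 3 * s) ≤ T * D * (p + q) := by
        apply mul_le_mul_of_nonneg_left hsum
        have : 0 ≤ T := by linarith
        positivity
      nlinarith
    linarith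
  have h3 : √(V1 + V2) ≤ T * s - 6 * D := Real.sqrt_le_iff.2 ⟨hR, key⟩
  have h4 : 0 ≤ √(V1 + V2) := Real.sqrt_nonneg _
  apply pow_le_pow_left₀ (by linarith)
  linarith

theorem short_of_MM {α : ℝ} {f g : ℤ → ℝ} (hs : Slow α f g) {a b : ℤ} (hab : a ≤ b)
    (hM : MM f g a b ≤ 3) : ((b - a : ℤ) : ℝ) ≤ 10 * (g a - f a) := by
  by_contra hcon
  push Not at hcon
  have hw := hs.w a
  set w := g a - f a with hwd
  set k : ℕ := ⌊10 * w⌋₊ with hk
  have k1 : (k:ℝ) ≤ 10 * w := Nat.floor_le (by linarith)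
  have k2 : 10 * w < k + 1 := Nat.lt_floor_add_one _
  have ek : ((a + k - a : ℤ) : ℝ) = (k:ℝ) := by
    have : a + (k:ℤ) - a = k := by ring
    rw [this]; simp
  have k3 : (k:ℤ) ≤ b - a := by
    have : (k:ℝ) ≤ ((b - a : ℤ) : ℝ) := by linarith
    exact_mod_cast this
  have m1 := MM_ge hs (show a ≤ a + (k:ℤ) by omega) (t := 10) (by rw [ek]; exact k1)
  rw [ek] at m1
  have m2 := MM_add f g (show a ≤ a + (k:ℤ) by omega) (show a + (k:ℤ) ≤ b by omega)
  have m3 := MM_nonneg hs (a + k) b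
  have m4 : 4 ≤ (k:ℝ) * (1 / (w * (1 + 2 * α * 10))) := by
    rw [mul_one_div, le_div_iff₀ (by have := hs.h0; positivity)]
    have := hs.h1
    have h0 := hs.h0
    nlinarith
  linarith

theorem split_MM {α : ℝ} {f g : ℤ → ℝ} (hs : Slow α f g) {a b : ℤ} (hab : a ≤ b)
    (hM : 3 < MM f g a b) : ∃ c, a < c ∧ c < b ∧ MM f g a b / 3 ≤ MM f g a c ∧
      MM f g a b / 3 ≤ MM f g c b := by
  classical
  set M := MM f g a b with hMd
  have hex : ∃ n : ℕ, a + n ≤ b ∧ M / 2 ≤ MM f g a (a + n) := by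
    refine ⟨(b - a).toNat, ?_, ?_⟩
    · omega
    · have : a + ((b - a).toNat : ℤ) = b := by omega
      rw [this]; linarith
  set n := Nat.find hex with hn
  obtain ⟨n1, n2⟩ := Nat.find_spec hex
  have hn0 : n ≠ 0 := by
    intro h0
    rw [← hn, h0] at n2
    simp only [Nat.cast_zero, add_zero] at n2
    rw [MM_self] at n2
    linarith
  obtain ⟨m, hm⟩ := Nat.exists_eq_succ_of_ne_zero hn0
  have hmlt : m < n := by omega
  have h3 := Nat.find_min hex hmlt
  rw [← hn] at n1 n2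
  have h4 : MM f g a (a + m) < M / 2 := by
    by_contra hcon
    push Not at hcon
    exact h3 ⟨by omega, hcon⟩
  have e1 : a + (n:ℤ) = (a + m) + 1 := by rw [hm]; push_cast; ring
  have h5 := MM_add f g (show a ≤ a + (m:ℤ) by omega) (show a + (m:ℤ) ≤ a + n by omega)
  have h6 : MM f g (a + m) (a + n) ≤ 1 / 2 := by
    rw [e1]
    unfold MM
    rw [Ico_one, Finset.sum_singleton]
    apply one_div_le_one_div_of_le (by norm_num) (hs.w _)
  have h7 := MM_add f g (show a ≤ a + (n:ℤ) by omega) n1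
  have h8 : M / 3 ≤ MM f g (a + n) b := by rw [← hMd] at h7; linarith
  refine ⟨a + n, by omega, ?_, by linarith, h8⟩
  rcases eq_or_lt_of_le n1 with h9 | h9
  · rw [h9, MM_self] at h8
    linarith
  · exact h9

/-- **the variance** -/
theorem slow_var : ∃ C : ℝ, 1 ≤ C ∧ ∀ (α : ℝ) (f g : ℤ → ℝ), Slow α f g → ∀ (a b : ℤ), a ≤ b →
    vr (nn f g a b) ≤ C * (1 + MM f g a b) := by
  obtain ⟨D, hD1, hD⟩ := cut_slow
  obtain ⟨A, hA0, hA⟩ := nn_sq
  have base : ∀ (α : ℝ) (f g : ℤ → ℝ), Slow α f g → ∀ (a b : ℤ), a ≤ b → MM f g a b ≤ 3 →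
      vr (nn f g a b) ≤ A := by
    intro α f g hs a b hab hM
    exact (vr_le_sq (nn_loc f g a b)).trans (hA α f g hs a b (short_of_MM hs hab hM))
  set T := 20 * D + √A with hT
  have hsA : 0 ≤ √A := Real.sqrt_nonneg A
  have main : ∀ (n : ℕ) (α : ℝ) (f g : ℤ → ℝ), Slow α f g → ∀ (a b : ℤ), a ≤ b →
      (b - a).toNat = n → 1 ≤ MM f g a b →
      vr (nn f g a b) ≤ (T * √(MM f g a b) - 5 * D) ^ 2 := by
    intro n
    induction n using Nat.strong_induction_on with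
    | _ n ih =>
      intro α f g hs a b hab hn hM1
      rcases le_or_gt (MM f g a b) 3 with hM | hM
      · refine (base α f g hs a b hab hM).trans ?_
        have h1 : 1 ≤ √(MM f g a b) := Real.one_le_sqrt.2 hM1
        have h2 : √A ≤ T * √(MM f g a b) - 5 * D := by nlinarith
        calc A = √A ^ 2 := (Real.sq_sqrt hA0).symm
          _ ≤ _ := pow_le_pow_left₀ hsA h2 2
      · obtain ⟨c, hac, hcb, h1, h2⟩ := split_MM hs hab hM
        have h3 := (hD α f g hs a c b hac.le hcb.le).2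
        have i1 := ih (c - a).toNat (by omega) α f g hs a c hac.le rfl (by linarith)
        have i2 := ih (b - c).toNat (by omega) α f g hs c b hcb.le rfl (by linarith)
        have e := MM_add f g hac.le hcb.le
        rw [e] at h1 h2 ⊢
        exact h3.trans (var_alg hD1 (by linarith) h1 h2 (by linarith) (by linarith) i1 i2)
  refine ⟨A + T ^ 2, ?_, fun α f g hs a b hab => ?_⟩
  · have : 20 ≤ T := by rw [hT]; linarith
    nlinarith
  · have hM0 := MM_nonneg hs a b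
    rcases le_or_gt (MM f g a b) 3 with hM | hM
    · have := base α f g hs a b hab hM
      nlinarith [sq_nonneg T, mul_nonneg (add_nonneg hA0 (sq_nonneg T)) hM0]
    · have h1 := main _ α f g hs a b hab rfl (by linarith)
      have h2 : (T * √(MM f g a b) - 5 * D) ^ 2 ≤ (T * √(MM f g a b)) ^ 2 := by
        have h3 : 1 ≤ √(MM f g a b) := Real.one_le_sqrt.2 (by linarith)
        apply pow_le_pow_left₀
        · have : 20 * D ≤ T := by rw [hT]; linarith
          nlinarith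
        · linarith
      rw [mul_pow, Real.sq_sqrt hM0] at h2
      nlinarith [sq_nonneg T, mul_nonneg hA0 hM0]

/-- **the mean square estimate** -/
theorem slow_l2 : ∃ C : ℝ, 1 ≤ C ∧ ∀ (α : ℝ) (f g : ℤ → ℝ), Slow α f g → ∀ (a b : ℤ), a ≤ b →
    mn (fun ω => (nn f g a b ω - √3 / 4 * MM f g a b) ^ 2) ≤
      C * (1 + MM f g a b + α * MM f g a b ^ 2 + QQ f g a b ^ 2) := by
  obtain ⟨C1, hC1, h1⟩ := slow_mean
  obtain ⟨C2, hC2, h2⟩ := slow_var
  refine ⟨C2 + 3 * C1 ^ 2, by nlinarith, fun α f g hs a b hab => ?_⟩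
  have hM0 := MM_nonneg hs a b
  have hQ0 := QQ_nonneg f g a b
  have hβ0 : 0 ≤ √α := Real.sqrt_nonneg _
  have hββ : √α ^ 2 = α := Real.sq_sqrt hs.h0
  rw [mn_sq_eq (nn_loc f g a b)]
  have k1 := h2 α f g hs a b hab
  have k2 := h1 α f g hs a b hab
  have k3 : (mn (nn f g a b) - √3 / 4 * MM f g a b) ^ 2 ≤
      (C1 * (1 + √α * MM f g a b + QQ f g a b)) ^ 2 := by
    rw [← sq_abs]
    exact pow_le_pow_left₀ (abs_nonneg _) k2 2
  have k4 : (1 + √α * MM f g a b + QQ f g a b) ^ 2 ≤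
      3 * (1 + α * MM f g a b ^ 2 + QQ f g a b ^ 2) := by
    have e : α * MM f g a b ^ 2 = (√α * MM f g a b) ^ 2 := by rw [mul_pow, hββ]
    rw [e]
    nlinarith [sq_nonneg (1 - √α * MM f g a b), sq_nonneg (1 - QQ f g a b),
      sq_nonneg (√α * MM f g a b - QQ f g a b)]
  have k5 : (C1 * (1 + √α * MM f g a b + QQ f g a b)) ^ 2 ≤
      C1 ^ 2 * (3 * (1 + α * MM f g a b ^ 2 + QQ f g a b ^ 2)) := by
    rw [mul_pow]
    exact mul_le_mul_of_nonneg_left k4 (sq_nonneg _)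
  have p1 : 0 ≤ α * MM f g a b ^ 2 := by have := hs.h0; positivity
  have p2 : 0 ≤ QQ f g a b ^ 2 := sq_nonneg _
  have p3 : 0 ≤ C2 * (α * MM f g a b ^ 2 + QQ f g a b ^ 2) := by positivity
  have p4 : 0 ≤ 3 * C1 ^ 2 * MM f g a b := by positivity
  calc vr (nn f g a b) + (mn (nn f g a b) - √3 / 4 * MM f g a b) ^ 2
      ≤ C2 * (1 + MM f g a b) + C1 ^ 2 * (3 * (1 + α * MM f g a b ^ 2 + QQ f g a b ^ 2)) := by
        linarith
    _ ≤ (C2 + 3 * C1 ^ 2) * (1 + MM f g a b + α * MM f g a b ^ 2 + QQ f g a b ^ 2) := by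
        have e : (C2 + 3 * C1 ^ 2) * (1 + MM f g a b + α * MM f g a b ^ 2 + QQ f g a b ^ 2) =
          C2 * (1 + MM f g a b) + C1 ^ 2 * (3 * (1 + α * MM f g a b ^ 2 + QQ f g a b ^ 2)) +
          C2 * (α * MM f g a b ^ 2 + QQ f g a b ^ 2) + 3 * C1 ^ 2 * MM f g a b := by ring
        linarith

end Pool.Agent.TH601.SV
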